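import Pool.Agent.H913.Pol

/-!
# Binary forms: Jacobian, Hessian, and their polarised versions
-/

set_option autoImplicit false
set_option linter.unusedSectionVars false

namespace Pool.Agent.H913

open Pool.Agent.V11286.AbsHeight Height NumberField Module MvPolynomial

/-- binary polynomials -/
abbrev S2 := MvPolynomial (Fin 2) Qb

/-- the derivation `a ∂/∂t - b ∂/∂s` -/
noncomputable def D2 (a b : Qb) : Derivation Qb S2 S2 :=
  (C a : S2) • pderiv 1 - (C b : S2) • pderiv 0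

lemma D2_apply (a b : Qb) (P : S2) :
    D2 a b P = C a * pderiv 1 P - C b * pderiv 0 P := rfl

/-- the linear form which is killed by `D2 a b` -/
noncomputable def W2 (a b : Qb) : S2 := C a * X 0 + C b * X 1

lemma pderiv_comm {σ : Type} (i j : σ) (P : MvPolynomial σ Qb) :
    pderiv i (pderiv j P) = pderiv j (pderiv i P) := by
  classical
  have h : (⁅(pderiv i : Derivation Qb (MvPolynomial σ Qb) (MvPolynomial σ Qb)),
      (pderiv j : Derivation Qb (MvPolynomial σ Qb) (MvPolynomial σ Qb))⁆ :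
      Derivation Qb (MvPolynomial σ Qb) (MvPolynomial σ Qb)) = 0 := by
    apply derivation_ext
    intro k
    rw [Derivation.commutator_apply, pderiv_X, pderiv_X]
    simp [Pi.single_apply]
    split_ifs <;> simp
  have h2 := congrArg (fun D => D P) h
  rw [Derivation.commutator_apply] at h2
  exact sub_eq_zero.mp h2

/-- the Jacobian -/
noncomputable def Jac (A B : S2) : S2 := pderiv 0 A * pderiv 1 B - pderiv 1 A * pderiv 0 B

/-- the Hessian -/
noncomputable def Hes (J : S2) : S2 :=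
  pderiv 0 (pderiv 0 J) * pderiv 1 (pderiv 1 J) - pderiv 0 (pderiv 1 J) ^ 2

lemma euler {P : S2} {n : ℕ} (h : P.IsHomogeneous n) :
    X 0 * pderiv 0 P + X 1 * pderiv 1 P = (n : S2) * P := by
  have := h.sum_X_mul_pderiv
  rw [Fin.sum_univ_two, nsmul_eq_mul] at this
  exact this

lemma hom_pderiv {P : S2} {n : ℕ} (i : Fin 2) (h : P.IsHomogeneous (n + 1)) :
    (pderiv i P).IsHomogeneous n := h.pderiv

lemma Jac_hom {A B : S2} {n : ℕ} (hA : A.IsHomogeneous (n + 1)) (hB : B.IsHomogeneous (n + 1)) :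
    (Jac A B).IsHomogeneous (n + n) :=
  ((hom_pderiv 0 hA).mul (hom_pderiv 1 hB)).sub ((hom_pderiv 1 hA).mul (hom_pderiv 0 hB))

lemma Hes_hom {J : S2} {n : ℕ} (hJ : J.IsHomogeneous (n + 2)) :
    (Hes J).IsHomogeneous (n + n) := by
  have h1 : (pderiv 0 (pderiv 0 J)).IsHomogeneous n := hom_pderiv 0 (hom_pderiv 0 hJ)
  have h2 : (pderiv 1 (pderiv 1 J)).IsHomogeneous n := hom_pderiv 1 (hom_pderiv 1 hJ)
  have h3 : (pderiv 0 (pderiv 1 J)).IsHomogeneous n := hom_pderiv 0 (hom_pderiv 1 hJ)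
  rw [Hes, pow_two]
  exact (h1.mul h2).sub (h3.mul h3)

lemma D2_W2 (a b : Qb) : D2 a b (W2 a b) = 0 := by
  rw [D2_apply, W2]
  simp [pderiv_X]
  ring

lemma I1 {A B : S2} {n : ℕ} (hA : A.IsHomogeneous n) (hB : B.IsHomogeneous n) (a b : Qb) :
    (n : S2) * (A * D2 a b B - B * D2 a b A) = W2 a b * Jac A B := by
  have e1 := euler hA
  have e2 := euler hB
  rw [D2_apply, D2_apply, W2, Jac]
  linear_combination (-(C a * pderiv 1 B - C b * pderiv 0 B)) * e1 +
    (C a * pderiv 1 A - C b * pderiv 0 A) * e2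

lemma I2 {J : S2} {n : ℕ} (hJ : J.IsHomogeneous (n + 1)) (a b : Qb) :
    (n : S2) * (((n + 1 : ℕ) : S2) * (J * D2 a b (D2 a b J)) - n * (D2 a b J) ^ 2) =
      W2 a b ^ 2 * Hes J := by
  have e := euler hJ
  have e0 := euler (hom_pderiv 0 hJ)
  have e1 := euler (hom_pderiv 1 hJ)
  rw [pderiv_comm 1 0] at e0
  have hD : D2 a b (D2 a b J) = C a ^ 2 * pderiv 1 (pderiv 1 J)
      - 2 * C a * C b * pderiv 0 (pderiv 1 J) + C b ^ 2 * pderiv 0 (pderiv 0 J) := by
    rw [D2_apply, D2_apply, map_sub, map_sub, pderiv_C_mul, pderiv_C_mul, pderiv_C_mul,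
      pderiv_C_mul, pderiv_comm 1 0]
    ring
  rw [hD, D2_apply, W2, Hes]
  set P := pderiv 0 (pderiv 0 J)
  set Q := pderiv 0 (pderiv 1 J)
  set R := pderiv 1 (pderiv 1 J)
  set U := pderiv 0 J
  set V := pderiv 1 J
  have h1 : (n : S2) * (((n + 1 : ℕ) : S2) * J) =
      X 0 ^ 2 * P + 2 * X 0 * X 1 * Q + X 1 ^ 2 * R := by
    rw [← e]
    linear_combination (-X 0) * e0 + (-X 1) * e1
  have h2 : (n : S2) * (C a * V - C b * U) = C a * (X 0 * Q + X 1 * R) - C b * (X 0 * P + X 1 * Q) := by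
    linear_combination (-C a) * e1 + (C b) * e0
  linear_combination (C a ^ 2 * R - 2 * C a * C b * Q + C b ^ 2 * P) * h1 -
    ((n : S2) * (C a * V - C b * U) +
      (C a * (X 0 * Q + X 1 * R) - C b * (X 0 * P + X 1 * Q))) * h2

lemma I3 {J H : S2} {n m : ℕ} (hJ : J.IsHomogeneous n) (hH : H.IsHomogeneous m) (a b : Qb) :
    (m : S2) * (D2 a b J * H) - (n : S2) * (J * D2 a b H) = - (W2 a b * Jac J H) := by
  have e1 := euler hJ
  have e2 := euler hH
  rw [D2_apply, D2_apply, W2, Jac]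
  linear_combination (C a * pderiv 1 H - C b * pderiv 0 H) * e1 -
    (C a * pderiv 1 J - C b * pderiv 0 J) * e2

end Pool.Agent.H913
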