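import Pool.Agent.H913.Defs

/-!
# From points of projective spaces to vectors
-/

set_option autoImplicit false
set_option linter.unusedSectionVars false

namespace Pool.Agent.H913.KS

open Pool.Agent.V11286.AbsHeight Module MvPolynomial Pool.Agent.H913

variable {κ ι : Type} [Fintype κ] [Fintype ι] [DecidableEq κ] [DecidableEq ι]

lemma eval_smul_hom' {σ : Type} [Fintype σ] {P : MvPolynomial σ Qb} {d : ℕ}
    (h : P.IsHomogeneous d) (c : Qb) (y : σ → Qb) :
    eval (c • y) P = c ^ d * eval y P := by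
  classical
  rw [eval_eq', eval_eq', Finset.mul_sum]
  apply Finset.sum_congr rfl
  intro m hm
  have h2 : ∑ x, m x = d := by
    have := h (mem_support_iff.mp hm)
    rw [Finsupp.weight_apply, Finsupp.sum_fintype _ _ (by simp)] at this
    simpa using this
  simp only [Pi.smul_apply, smul_eq_mul, mul_pow]
  rw [Finset.prod_mul_distrib, Finset.prod_pow_eq_pow_sum, h2]
  ring

lemma rep_mk {σ : Type} {y : σ → Qb} (hy : y ≠ 0) :
    ∃ c : Qb, c ≠ 0 ∧ (Projectivization.mk Qb y hy).rep = c • y := by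
  obtain ⟨a, ha⟩ := Projectivization.exists_smul_eq_mk_rep Qb y hy
  exact ⟨a, a.ne_zero, ha.symm⟩

lemma vev_smul {u : ι → MvPolynomial κ Qb} {d : ℕ} (hu : ∀ i, (u i).IsHomogeneous d) (c : Qb)
    (y : κ → Qb) : vev u (c • y) = c ^ d • vev u y := by
  funext i
  simp only [vev, Pi.smul_apply, smul_eq_mul]
  exact eval_smul_hom' (hu i) c y

lemma bihom_iff {P : MvPolynomial (κ ⊕ ι) Qb} {a b : ℕ} : Bihom P a b ↔ WH1 P a b := by
  have h1 : ∀ m : (κ ⊕ ι) →₀ ℕ, Finsupp.weight (wt (g1 (κ := κ) (ι := ι))) m = ![a, b] ↔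
      ∑ k, m (Sum.inl k) = a ∧ ∑ i, m (Sum.inr i) = b := by
    intro m
    have e : ∀ γ, Finsupp.weight (wt (g1 (κ := κ) (ι := ι))) m γ =
        ∑ x : κ ⊕ ι, if g1 x = γ then m x else 0 := by
      intro γ
      rw [Finsupp.weight_apply, Finsupp.sum_fintype _ _ (by simp), Finset.sum_apply]
      apply Finset.sum_congr rfl
      intro x _
      simp only [Pi.smul_apply, wt, smul_eq_mul, Pi.single_apply]
      by_cases h : g1 x = γ
      · simp [h]
      · rw [if_neg h, if_neg (fun h' => h h'.symm), mul_zero]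
    have e0 : Finsupp.weight (wt (g1 (κ := κ) (ι := ι))) m 0 = ∑ k, m (Sum.inl k) := by
      rw [e 0, Fintype.sum_sum_type]
      simp [g1]
    have e1 : Finsupp.weight (wt (g1 (κ := κ) (ι := ι))) m 1 = ∑ i, m (Sum.inr i) := by
      rw [e 1, Fintype.sum_sum_type]
      simp [g1]
    constructor
    · intro h
      rw [h] at e0 e1
      simp only [Matrix.cons_val_zero, Matrix.cons_val_one] at e0 e1
      exact ⟨e0.symm, e1.symm⟩
    · rintro ⟨h2, h3⟩
      funext γ
      fin_cases γ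
      · show Finsupp.weight (wt g1) m 0 = _
        rw [e0, h2]
        rfl
      · show Finsupp.weight (wt g1) m 1 = _
        rw [e1, h3]
        rfl
  constructor
  · intro h m hm
    exact (h1 m).mpr (h m (mem_support_iff.mpr hm))
  · intro h m hm
    exact (h1 m).mp (h (mem_support_iff.mp hm))

lemma Pl_ne_of_li {α β : ι → Qb} (h : LinearIndependent Qb ![α, β]) : Pl α β ≠ 0 := by
  intro h0
  rw [LinearIndependent.pair_iff] at h
  have hα : α ≠ 0 := by
    rintro rfl
    have := (h 1 0 (by simp)).1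
    exact one_ne_zero this
  obtain ⟨c, hc⟩ := PMap.Pl_zero_prop hα h0
  have := (h c (-1) (by
    rw [hc]
    funext i
    simp)).2
  exact (neg_ne_zero.mpr one_ne_zero) this

lemma pt_eq (α β : ι → Qb) (z : Fin 2 → Qb) : pt α β z = z 0 • α + z 1 • β := by
  funext i
  simp [pt]

namespace Bundle

variable (X : Bundle κ ι)

/-- the plane over a vector -/
noncomputable def EV (y : κ → Qb) : Submodule Qb (ι → Qb) :=
  Submodule.span Qb (Set.range (fun c => vev (X.u c) y) ∪ Set.range (fun c => vev (X.v c) y))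

lemma EV_rep (y : PS κ) : X.EV y.rep = X.E y := rfl

lemma EV_smul {c : Qb} (hc : c ≠ 0) (y : κ → Qb) : X.EV (c • y) = X.EV y := by
  have key : ∀ (c : Qb) (y : κ → Qb), X.EV (c • y) ≤ X.EV y := by
    intro c y
    refine Submodule.span_le.mpr ?_
    rintro _ (⟨i, rfl⟩ | ⟨i, rfl⟩)
    · simp only
      rw [vev_smul (X.u_hom i)]
      exact Submodule.smul_mem _ _ (Submodule.subset_span (Or.inl ⟨i, rfl⟩))
    · simp only
      rw [vev_smul (X.v_hom i)]
      exact Submodule.smul_mem _ _ (Submodule.subset_span (Or.inr ⟨i, rfl⟩))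
  apply le_antisymm (key c y)
  have := key c⁻¹ (c • y)
  rwa [smul_smul, inv_mul_cancel₀ hc, one_smul] at this

lemma mem_Y_mk {y : κ → Qb} (hy : y ≠ 0) :
    Projectivization.mk Qb y hy ∈ X.Y ↔ ∀ P ∈ X.eqs, eval y P = 0 := by
  obtain ⟨c, hc, h⟩ := rep_mk hy
  constructor
  · intro h1 P hP
    have h2 := h1 P hP
    obtain ⟨d, hd⟩ := X.eqs_hom P hP
    rw [h, eval_smul_hom' hd] at h2
    exact (mul_eq_zero.mp h2).resolve_left (pow_ne_zero _ hc)
  · intro h1 P hP
    obtain ⟨d, hd⟩ := X.eqs_hom P hP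
    rw [h, eval_smul_hom' hd, h1 P hP, mul_zero]

lemma E_mk {y : κ → Qb} (hy : y ≠ 0) : X.E (Projectivization.mk Qb y hy) = X.EV y := by
  obtain ⟨c, hc, h⟩ := rep_mk hy
  rw [← EV_rep, h, X.EV_smul hc]

/-- the family of planes over the cone -/
noncomputable def toBdl : Bdl κ ι where
  SY := X.eqs
  hSY := X.eqs_hom
  Ch := X.Ch
  fC := X.fin
  e := X.deg
  u := X.u
  v := X.v
  hu := X.u_hom
  hvv := X.v_hom
  E := fun y => X.EV y
  memU := fun y _ _ c => ⟨Submodule.subset_span (Or.inl ⟨c, rfl⟩),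
    Submodule.subset_span (Or.inr ⟨c, rfl⟩)⟩
  plane := fun y hy0 hy => by
    have hm : Projectivization.mk Qb y hy0 ∈ X.Y := (X.mem_Y_mk hy0).mpr hy
    obtain ⟨h1, c, h2⟩ := X.plane _ hm
    obtain ⟨s, hs, h⟩ := rep_mk hy0
    have hu : val (X.u c) (Projectivization.mk Qb y hy0) = s ^ X.deg c • vev (X.u c) y := by
      have : val (X.u c) (Projectivization.mk Qb y hy0) =
        vev (X.u c) (Projectivization.mk Qb y hy0).rep := rfl
      rw [this, h, vev_smul (X.u_hom c)]
    have hv : val (X.v c) (Projectivization.mk Qb y hy0) = s ^ X.deg c • vev (X.v c) y := by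
      have : val (X.v c) (Projectivization.mk Qb y hy0) =
        vev (X.v c) (Projectivization.mk Qb y hy0).rep := rfl
      rw [this, h, vev_smul (X.v_hom c)]
    have hsd : s ^ X.deg c ≠ 0 := pow_ne_zero _ hs
    have h3 : LinearIndependent Qb ![vev (X.u c) y, vev (X.v c) y] := by
      rw [LinearIndependent.pair_iff] at h2 ⊢
      intro p q hpq
      apply h2
      rw [hu, hv, smul_comm p, smul_comm q, ← smul_add, hpq, smul_zero]
    refine ⟨c, Pl_ne_of_li h3, fun w => ?_⟩
    have h4 : finrank Qb (X.EV y) = 2 := by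
      rw [← X.E_mk hy0]
      exact h1
    have h5 : Submodule.span Qb (Set.range ![vev (X.u c) y, vev (X.v c) y]) = X.EV y := by
      have : FiniteDimensional Qb (X.EV y) := inferInstance
      apply Submodule.eq_of_le_of_finrank_eq
      · refine Submodule.span_le.mpr ?_
        rintro _ ⟨i, rfl⟩
        fin_cases i
        · exact Submodule.subset_span (Or.inl ⟨c, rfl⟩)
        · exact Submodule.subset_span (Or.inr ⟨c, rfl⟩)
      · rw [finrank_span_eq_card h3, h4]
        rfl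
    show w ∈ X.EV y ↔ _
    rw [← h5]
    simp only [Matrix.range_cons, Matrix.range_empty, Set.union_empty, Set.singleton_union]
    rw [Submodule.mem_span_pair]
    constructor
    · rintro ⟨p, q, rfl⟩
      refine ⟨![p, q], ?_⟩
      rw [pt_eq]
      simp
    · rintro ⟨z, rfl⟩
      exact ⟨z 0, z 1, (pt_eq _ _ z).symm⟩

lemma mem_toBdl_Y {y : κ → Qb} (hy : y ≠ 0) :
    y ∈ X.toBdl.Y ↔ Projectivization.mk Qb y hy ∈ X.Y := by
  rw [X.mem_Y_mk hy]
  exact ⟨fun h => h.2, fun h => ⟨hy, h⟩⟩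

lemma rep_mem_Y {y : PS κ} (hy : y ∈ X.Y) : y.rep ∈ X.toBdl.Y := ⟨y.rep_nonzero, hy⟩

lemma irr_toBdl : FMap.Irr X.toBdl := by
  apply irr_of
  rintro p q hp hq ⟨y1, hy1, h1⟩ ⟨y2, hy2, h2⟩
  by_contra hcon
  push Not at hcon
  have key : ∀ (p : MvPolynomial κ Qb) (_ : ∃ d, p.IsHomogeneous d) (y : κ → Qb)
      (_ : y ∈ X.toBdl.Y), (∀ z : PS κ, (∀ R ∈ X.eqs, eval z.rep R = 0) → eval z.rep p = 0) →
      eval y p = 0 := by
    rintro p ⟨d, hd⟩ y hy h
    have h3 := h (Projectivization.mk Qb y hy.1) ((X.mem_toBdl_Y hy.1).mp hy)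
    obtain ⟨c, hc, h4⟩ := rep_mk hy.1
    rw [h4, eval_smul_hom' hd] at h3
    exact (mul_eq_zero.mp h3).resolve_left (pow_ne_zero _ hc)
  rcases X.irreducible p q hp hq (by
    intro y hy
    rw [map_mul]
    by_cases h : eval y.rep p = 0
    · rw [h, zero_mul]
    · rw [hcon y.rep (X.rep_mem_Y hy) h, mul_zero]) with h | h
  · exact h1 (key p hp y1 hy1 h)
  · exact h2 (key q hq y2 hy2 h)

end Bundle

end Pool.Agent.H913.KS
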