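import Pool.Agent.H913.Bridge

/-!
# From endomorphisms of the bundle to maps of vectors
-/

set_option autoImplicit false
set_option linter.unusedSectionVars false

namespace Pool.Agent.H913.KS

open Pool.Agent.V11286.AbsHeight Module MvPolynomial Pool.Agent.H913

variable {κ ι : Type} [Fintype κ] [Fintype ι] [DecidableEq κ] [DecidableEq ι]

namespace Endo

variable {X : Bundle κ ι} (F : Endo X)

open Classical in
/-- the map of the base on vectors -/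
noncomputable def gV (y : κ → Qb) : κ → Qb :=
  if h : y ≠ 0 then (F.g (Projectivization.mk Qb y h)).rep else 0

lemma gV_eq {y : κ → Qb} (hy : y ≠ 0) : F.gV y = (F.g (Projectivization.mk Qb y hy)).rep := by
  rw [gV, dif_pos hy]

lemma gV_rep (y : PS κ) : F.gV y.rep = (F.g y).rep := by
  rw [F.gV_eq y.rep_nonzero, Projectivization.mk_rep]

lemma gV_smul {c : Qb} (hc : c ≠ 0) {y : κ → Qb} (hy : y ≠ 0) : F.gV (c • y) = F.gV y := by
  rw [F.gV_eq hy, F.gV_eq (smul_ne_zero hc hy)]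
  congr 2
  rw [Projectivization.mk_eq_mk_iff]
  exact ⟨Units.mk0 c hc, rfl⟩

lemma zz1_smul (s t : Qb) (y : κ → Qb) (w : ι → Qb) {P : MvPolynomial (κ ⊕ ι) Qb} {a b : ℕ}
    (h : WH1 P a b) : eval (zz1 (s • y) (t • w)) P = s ^ a * t ^ b * eval (zz1 y w) P :=
  eval_scale1 h s t y w

/-- the point of the product given by two vectors -/
noncomputable def mkx {y : κ → Qb} {w : ι → Qb} (hy : y ≠ 0) (hw : w ≠ 0) : PS κ × PS ι :=
  (Projectivization.mk Qb y hy, Projectivization.mk Qb w hw)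

lemma mkx_mem {y : κ → Qb} {w : ι → Qb} (hy : y ∈ X.toBdl.Y) (hw : w ∈ X.toBdl.E y) (hw0 : w ≠ 0) :
    mkx hy.1 hw0 ∈ X.pts := by
  refine ⟨(X.mem_toBdl_Y hy.1).mp hy, ?_⟩
  show (Projectivization.mk Qb w hw0).rep ∈ X.E (Projectivization.mk Qb y hy.1)
  rw [X.E_mk]
  obtain ⟨c, -, h⟩ := rep_mk hw0
  rw [h]
  exact Submodule.smul_mem _ _ hw

/-- the value of a chart at vectors -/
lemma G_val {y : κ → Qb} {w : ι → Qb} (hy : y ≠ 0) (hw : w ≠ 0) (j : F.Jf) :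
    ∃ c : Qb, c ≠ 0 ∧ (fun i => eval (zz1 y w) (F.G j i)) =
      c • fun i => bival (F.G j i) (mkx hy hw) := by
  obtain ⟨s, hs, h1⟩ := rep_mk hy
  obtain ⟨t, ht, h2⟩ := rep_mk hw
  refine ⟨(s ^ F.a * t ^ F.lam)⁻¹, inv_ne_zero (mul_ne_zero (pow_ne_zero _ hs)
    (pow_ne_zero _ ht)), ?_⟩
  funext i
  have h3 : bival (F.G j i) (mkx hy hw) = s ^ F.a * t ^ F.lam * eval (zz1 y w) (F.G j i) := by
    have h4 : bival (F.G j i) (mkx hy hw) = eval (zz1 (s • y) (t • w)) (F.G j i) := by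
      rw [← h1, ← h2]
      rfl
    rw [h4, zz1_smul s t y w (bihom_iff.mp (F.G_hom j i))]
  simp only [Pi.smul_apply, smul_eq_mul]
  rw [h3, ← mul_assoc, inv_mul_cancel₀ (mul_ne_zero (pow_ne_zero _ hs) (pow_ne_zero _ ht)),
    one_mul]

/-- the value of a chart at vectors in the bundle -/
lemma G_val' {y : κ → Qb} {w : ι → Qb} (hy : y ∈ X.toBdl.Y) (hw : w ∈ X.toBdl.E y) (hw0 : w ≠ 0)
    (j : F.Jf) : ∃ c : Qb, (fun i => eval (zz1 y w) (F.G j i)) =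
      c • (F.f (mkx hy.1 hw0)).rep := by
  obtain ⟨c, -, h⟩ := F.G_val hy.1 hw0 j
  obtain ⟨d, hd⟩ := F.G_rep _ (mkx_mem hy hw hw0) j
  exact ⟨c * d, by rw [h, hd, smul_smul]⟩

lemma G_zero (hlam : 1 ≤ F.lam) (y : κ → Qb) (j : F.Jf) :
    (fun i => eval (zz1 y (0 : ι → Qb)) (F.G j i)) = 0 := by
  funext i
  have h := zz1_smul 1 0 y (0 : ι → Qb) (bihom_iff.mp (F.G_hom j i))
  rw [one_smul, smul_zero, zero_pow (by omega)] at h
  rw [h]
  simp

lemma mem_E {y : κ → Qb} {w : ι → Qb} : w ∈ X.toBdl.E y ↔ w ∈ X.EV y := Iff.rfl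

lemma fld_hg (y : κ → Qb) (hy : y ∈ X.toBdl.Y) : F.gV y ∈ X.toBdl.Y := by
  have h0 : y ≠ 0 := hy.1
  have h1 : Projectivization.mk Qb y h0 ∈ X.Y := (X.mem_toBdl_Y h0).mp hy
  have h2 := F.g_mem (Projectivization.mk Qb y h0) h1
  have h3 := X.rep_mem_Y h2
  rw [F.gV_eq h0]
  exact h3

lemma fld_hE (hlam : 1 ≤ F.lam) (y : κ → Qb) (hy : y ∈ X.toBdl.Y) (w : ι → Qb)
    (hw : w ∈ X.toBdl.E y) (j : F.Jf) :
    (fun i => eval (zz1 y w) (F.G j i)) ∈ X.toBdl.E (F.gV y) := by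
  rw [mem_E]
  by_cases hw0 : w = 0
  · subst hw0
    rw [F.G_zero hlam]
    exact Submodule.zero_mem _
  · obtain ⟨c, hc⟩ := F.G_val' hy hw hw0 j
    have h0 : y ≠ 0 := hy.1
    have h1 : (F.f (mkx h0 hw0)).rep ∈ X.E (F.g (Projectivization.mk Qb y h0)) :=
      F.f_mem (mkx h0 hw0) (mkx_mem hy hw hw0)
    rw [hc, F.gV_eq h0, Bundle.EV_rep]
    exact Submodule.smul_mem _ c h1

lemma fld_hprop (hlam : 1 ≤ F.lam) (y : κ → Qb) (hy : y ∈ X.toBdl.Y) (w : ι → Qb)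
    (hw : w ∈ X.toBdl.E y) (j j' : F.Jf) :
    Pl (fun i => eval (zz1 y w) (F.G j i)) (fun i => eval (zz1 y w) (F.G j' i)) = 0 := by
  by_cases hw0 : w = 0
  · subst hw0
    rw [F.G_zero hlam]
    exact PMap.Pl_zero_left _
  · obtain ⟨c, hc⟩ := F.G_val' hy hw hw0 j
    obtain ⟨c', hc'⟩ := F.G_val' hy hw hw0 j'
    rw [hc, hc']
    funext p
    simp only [Pl, Pi.smul_apply, smul_eq_mul, Pi.zero_apply]
    ring

lemma fld_good (y : κ → Qb) (hy : y ∈ X.toBdl.Y) :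
    ∃ j, ∀ w ∈ X.toBdl.E y, w ≠ 0 → (fun i => eval (zz1 y w) (F.G j i)) ≠ 0 := by
  obtain ⟨j, hj⟩ := F.G_good _ ((X.mem_toBdl_Y hy.1).mp hy)
  refine ⟨j, fun w hw hw0 => ?_⟩
  obtain ⟨c, hc, h⟩ := F.G_val hy.1 hw0 j
  rw [h]
  exact smul_ne_zero hc (hj _ (mkx_mem hy hw hw0) rfl)

lemma val_mk {y : κ → Qb} (hy : y ≠ 0) (i : F.Jg) : ∃ c : Qb, c ≠ 0 ∧
    val (F.Q i) (Projectivization.mk Qb y hy) = c • vev (F.Q i) y := by
  obtain ⟨c, hc, h⟩ := rep_mk hy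
  refine ⟨c ^ F.e, pow_ne_zero _ hc, ?_⟩
  have : val (F.Q i) (Projectivization.mk Qb y hy) =
    vev (F.Q i) (Projectivization.mk Qb y hy).rep := rfl
  rw [this, h, vev_smul (F.Q_hom i)]

lemma fld_hQg (y : κ → Qb) (hy : y ∈ X.toBdl.Y) (i : F.Jg) :
    ∃ c : Qb, vev (F.Q i) y = fun k => c * F.gV y k := by
  obtain ⟨c, hc, h1⟩ := F.val_mk hy.1 i
  obtain ⟨d, hd⟩ := F.Q_rep _ ((X.mem_toBdl_Y hy.1).mp hy) i
  refine ⟨c⁻¹ * d, ?_⟩
  rw [h1] at hd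
  have h2 : vev (F.Q i) y = (c⁻¹ * d) • (F.g (Projectivization.mk Qb y hy.1)).rep := by
    rw [mul_smul, ← hd, smul_smul, inv_mul_cancel₀ hc, one_smul]
  rw [h2, F.gV_eq hy.1]
  rfl

lemma fld_goodQ (y : κ → Qb) (hy : y ∈ X.toBdl.Y) : ∃ i, vev (F.Q i) y ≠ 0 := by
  obtain ⟨i, hi⟩ := F.Q_good _ ((X.mem_toBdl_Y hy.1).mp hy)
  refine ⟨i, fun h0 => hi ?_⟩
  obtain ⟨c, hc, h⟩ := F.val_mk hy.1 i
  rw [h, h0, smul_zero]

/-- the map of vectors -/
noncomputable def toPMap (hlam : 1 ≤ F.lam) : PMap X.toBdl where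
  Jx := F.Jf
  fJ := F.finJf
  a := F.a
  lam := F.lam
  G := F.G
  hG := fun j i => bihom_iff.mp (F.G_hom j i)
  g := F.gV
  hg := F.fld_hg
  hE := F.fld_hE hlam
  hprop := F.fld_hprop hlam
  good := F.fld_good
  Jg := F.Jg
  fJg := F.finJg
  e := F.e
  Q := F.Q
  hQ := F.Q_hom
  hQg := F.fld_hQg
  goodQ := F.fld_goodQ
  hlam := hlam

lemma map_mem {x : PS κ × PS ι} (hx : x ∈ X.pts) : F.map x ∈ X.pts :=
  ⟨F.g_mem _ hx.1, F.f_mem _ hx⟩

lemma iter_mem {x : PS κ × PS ι} (hx : x ∈ X.pts) (n : ℕ) : F.map^[n] x ∈ X.pts := by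
  induction n with
  | zero => exact hx
  | succ n ih =>
    rw [Function.iterate_succ_apply']
    exact F.map_mem ih

/-- the vectors of an orbit, scaled at the start -/
noncomputable def orbY (s : Qb) (x : PS κ × PS ι) : ℕ → κ → Qb
  | 0 => s • x.1.rep
  | n + 1 => (F.map^[n + 1] x).1.rep

/-- the vectors of an orbit, scaled at the start -/
noncomputable def orbW (t : Qb) (x : PS κ × PS ι) : ℕ → ι → Qb
  | 0 => t • x.2.rep
  | n + 1 => (F.map^[n + 1] x).2.rep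

lemma orbY_eq {s : Qb} (hs : s ≠ 0) (x : PS κ × PS ι) (n : ℕ) :
    ∃ c : Qb, c ≠ 0 ∧ F.orbY s x n = c • (F.map^[n] x).1.rep := by
  cases n with
  | zero => exact ⟨s, hs, rfl⟩
  | succ n => exact ⟨1, one_ne_zero, by rw [one_smul]; rfl⟩

lemma orbW_eq {t : Qb} (ht : t ≠ 0) (x : PS κ × PS ι) (n : ℕ) :
    ∃ c : Qb, c ≠ 0 ∧ F.orbW t x n = c • (F.map^[n] x).2.rep := by
  cases n with
  | zero => exact ⟨t, ht, rfl⟩
  | succ n => exact ⟨1, one_ne_zero, by rw [one_smul]; rfl⟩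

lemma isOrb (hlam : 1 ≤ F.lam) {x : PS κ × PS ι} (hx : x ∈ X.pts) {s t : Qb} (hs : s ≠ 0)
    (ht : t ≠ 0) : (F.toPMap hlam).IsOrb (F.orbY s x) (F.orbW t x) where
  hy := fun n => by
    obtain ⟨c, hc, h⟩ := F.orbY_eq hs x n
    rw [h]
    refine ⟨smul_ne_zero hc (Projectivization.rep_nonzero _), fun P hP => ?_⟩
    obtain ⟨d, hd⟩ := X.eqs_hom P hP
    rw [eval_smul_hom' hd, (F.iter_mem hx n).1 P hP, mul_zero]
  hw := fun n => by
    obtain ⟨c, hc, h⟩ := F.orbY_eq hs x n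
    obtain ⟨d, hd, h'⟩ := F.orbW_eq ht x n
    rw [h, h']
    show _ ∈ X.EV _
    rw [X.EV_smul hc]
    exact Submodule.smul_mem _ _ (F.iter_mem hx n).2
  hw0 := fun n => by
    obtain ⟨d, hd, h'⟩ := F.orbW_eq ht x n
    rw [h']
    exact smul_ne_zero hd (Projectivization.rep_nonzero _)
  step_y := fun n => by
    obtain ⟨c, hc, h⟩ := F.orbY_eq hs x n
    show F.orbY s x (n + 1) = F.gV _
    rw [h, F.gV_smul hc (Projectivization.rep_nonzero _), F.gV_rep]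
    show (F.map^[n + 1] x).1.rep = _
    rw [Function.iterate_succ_apply']
    rfl
  step_w := fun n j => by
    obtain ⟨c, hc, h⟩ := F.orbY_eq hs x n
    obtain ⟨d, hd, h'⟩ := F.orbW_eq ht x n
    have h1 : (F.toPMap hlam).Gv j (F.orbY s x n) (F.orbW t x n) =
        (c ^ F.a * d ^ F.lam) • fun i => bival (F.G j i) (F.map^[n] x) := by
      rw [h, h']
      funext i
      exact zz1_smul c d _ _ (bihom_iff.mp (F.G_hom j i))
    obtain ⟨e, he⟩ := F.G_rep _ (F.iter_mem hx n) j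
    have h2 : F.orbW t x (n + 1) = (F.f (F.map^[n] x)).rep := by
      show (F.map^[n + 1] x).2.rep = _
      rw [Function.iterate_succ_apply']
      rfl
    rw [h1, he, h2]
    funext p
    simp only [Pl, Pi.smul_apply, smul_eq_mul, Pi.zero_apply]
    ring

lemma rep_eq_of_Pl {p q : PS ι} (h : Pl p.rep q.rep = 0) : p = q := by
  obtain ⟨c, hc⟩ := PMap.Pl_zero_prop p.rep_nonzero h
  have hc0 : c ≠ 0 := by
    rintro rfl
    apply q.rep_nonzero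
    rw [hc]
    funext i
    simp
  rw [← p.mk_rep, ← q.mk_rep, Projectivization.mk_eq_mk_iff']
  refine ⟨c⁻¹, ?_⟩
  rw [hc]
  funext i
  simp only [Pi.smul_apply, smul_eq_mul]
  rw [← mul_assoc, inv_mul_cancel₀ hc0, one_mul]

/-- totally ramified points: from vectors to points -/
lemma totRam_of (hlam : 1 ≤ F.lam) {y : PS κ} (hy : y ∈ X.Y) {w : ι → Qb} (hw : w ∈ X.E y)
    (hw0 : w ≠ 0) {k : ℕ} (hal : (PMap.it (F.toPMap hlam) k).AloneV y.rep w) :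
    F.TotRam (k + 1) (y, Projectivization.mk Qb w hw0) := by
  rintro ⟨y', p⟩ hx' hy' heq
  simp only at hy'
  subst hy'
  set q := Projectivization.mk Qb w hw0 with hq
  have hqm : (y', q) ∈ X.pts := by
    refine ⟨hy, ?_⟩
    obtain ⟨c, -, h⟩ := rep_mk hw0
    show q.rep ∈ X.E y'
    rw [h]
    exact Submodule.smul_mem _ _ hw
  obtain ⟨t, ht0, ht⟩ := rep_mk hw0
  have h1 : w = t⁻¹ • q.rep := by
    rw [ht, smul_smul, inv_mul_cancel₀ ht0, one_smul]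
  have o1 := F.isOrb hlam hqm one_ne_zero (inv_ne_zero ht0)
  have o2 := F.isOrb hlam hx' one_ne_zero one_ne_zero
  have h2 : Pl w p.rep = 0 := by
    apply hal p.rep hx'.2
    intro j
    obtain ⟨c, hc⟩ := o1.it_Gv k j
    obtain ⟨d, hd⟩ := o2.it_Gv k j
    have e1 : F.orbY 1 (y', q) 0 = y'.rep := one_smul _ _
    have e2 : F.orbY 1 (y', p) 0 = y'.rep := one_smul _ _
    have e3 : F.orbW t⁻¹ (y', q) 0 = w := h1.symm
    have e4 : F.orbW 1 (y', p) 0 = p.rep := one_smul _ _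
    have e5 : F.orbW 1 (y', p) (k + 1) = F.orbW t⁻¹ (y', q) (k + 1) := by
      show (F.map^[k + 1] (y', p)).2.rep = (F.map^[k + 1] (y', q)).2.rep
      rw [heq]
    rw [e1, e3] at hc
    rw [e2, e4, e5] at hd
    rw [hc, hd]
    funext p
    simp only [Pl, Pi.zero_apply]
    ring
  have h3 : p = q := by
    symm
    apply rep_eq_of_Pl
    rw [ht]
    funext r
    have := congrFun h2 r
    simp only [Pl, Pi.zero_apply, Pi.smul_apply, smul_eq_mul] at this ⊢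
    linear_combination t * this
  rw [h3]

lemma nonMon (hlam : 1 ≤ F.lam) {y : PS κ} (hy : y ∈ X.Y) {k : ℕ}
    (h : ¬ ∃ x₁ ∈ X.pts, ∃ x₂ ∈ X.pts, x₁.1 = y ∧ x₂.1 = y ∧ x₁ ≠ x₂ ∧ F.TotRam (k + 1) x₁ ∧
      F.TotRam (k + 1) x₂) : (PMap.it (F.toPMap hlam) k).NonMon y.rep := by
  rintro ⟨w1, hw1, w2, hw2, hne, a1, a2⟩
  have h1 : w1 ≠ 0 := by
    rintro rfl
    exact hne (PMap.Pl_zero_left _)
  have h2 : w2 ≠ 0 := by
    rintro rfl
    exact hne (PMap.Pl_zero_right _)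
  have m : ∀ (w : ι → Qb) (hw : w ∈ X.E y) (hw0 : w ≠ 0),
      (y, Projectivization.mk Qb w hw0) ∈ X.pts := by
    intro w hw hw0
    refine ⟨hy, ?_⟩
    obtain ⟨c, -, h⟩ := rep_mk hw0
    show (Projectivization.mk Qb w hw0).rep ∈ X.E y
    rw [h]
    exact Submodule.smul_mem _ _ hw
  refine h ⟨_, m w1 hw1 h1, _, m w2 hw2 h2, rfl, rfl, ?_, F.totRam_of hlam hy hw1 h1 a1,
    F.totRam_of hlam hy hw2 h2 a2⟩
  intro heq
  have h3 := congrArg Prod.snd heq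
  simp only at h3
  rw [Projectivization.mk_eq_mk_iff'] at h3
  obtain ⟨c, hc⟩ := h3
  apply hne
  rw [← hc]
  funext p
  simp only [Pl, Pi.smul_apply, smul_eq_mul, Pi.zero_apply]
  ring

end Endo

end Pool.Agent.H913.KS
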