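import Pool.Agent.H913.North

/-!
# The core theorem: points of small relative height are not dense
-/

set_option autoImplicit false
set_option linter.unusedSectionVars false

namespace Pool.Agent.H913

open Pool.Agent.V11286.AbsHeight Height NumberField Module MvPolynomial

variable {κ ι : Type} [Fintype κ] [Fintype ι] [DecidableEq κ] [DecidableEq ι]

lemma br_zero {v z₀ : Fin 2 → Qb} (hz : z₀ ≠ 0) (h : br v z₀ = 0) :
    ∃ μ : Qb, ∀ z, br z v = μ * br z z₀ := by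
  by_cases h0 : z₀ 0 = 0
  · have h1 : z₀ 1 ≠ 0 := by
      intro h1
      apply hz
      funext i
      fin_cases i
      · exact h0
      · exact h1
    refine ⟨v 1 / z₀ 1, fun z => ?_⟩
    simp only [br, h0] at h ⊢
    have hv : v 0 = 0 := by
      have h2 : v 0 * z₀ 1 = 0 := by linear_combination h
      exact (mul_eq_zero.mp h2).resolve_right h1
    rw [hv]
    field_simp
    ring
  · refine ⟨v 0 / z₀ 0, fun z => ?_⟩
    simp only [br] at h ⊢
    field_simp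
    linear_combination (-(z 0)) * h

lemma alone_jac {A B : S2} {n : ℕ} (hA : A.IsHomogeneous (n + 2)) (hB : B.IsHomogeneous (n + 2))
    (hAB : NoZ A B) {z₀ : Fin 2 → Qb} (hz : z₀ ≠ 0) (hal : Alone A B z₀) :
    eval z₀ (Jac A B) = 0 := by
  set P : S2 := C (eval z₀ B) * A - C (eval z₀ A) * B with hP
  have hPne : P ≠ 0 := P_ne hA hB hAB hz
  have hPhom : P.IsHomogeneous (n + 2) := by
    have hC : ∀ (c : Qb) (Q : S2), Q.IsHomogeneous (n + 2) → (C c * Q).IsHomogeneous (n + 2) := by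
      intro c Q hQ
      have := (isHomogeneous_C (Fin 2) c).mul hQ
      simpa using this
    exact (hC _ _ hA).sub (hC _ _ hB)
  obtain ⟨v, c, hc, hv0, hev⟩ := factor hPhom hPne
  have hbr : ∀ i, br (v i) z₀ = 0 := by
    intro i
    apply hal
    have h1 : eval (v i) P = 0 := by
      rw [hev, Finset.prod_eq_zero (Finset.mem_univ i), mul_zero]
      simp only [br]
      ring
    rw [hP] at h1
    simp only [map_sub, map_mul, eval_C] at h1
    linear_combination h1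
  choose μ hμ using fun i => br_zero hz (hbr i)
  set L : S2 := C (z₀ 1) * X 0 - C (z₀ 0) * X 1 with hL
  have hLev : ∀ z, eval z L = br z z₀ := by
    intro z
    simp only [hL, br, map_sub, map_mul, eval_C, eval_X]
    ring
  have hPL : P = C (c * ∏ i, μ i) * L ^ (n + 2) := by
    apply MvPolynomial.funext
    intro z
    rw [hev, map_mul, eval_C, map_pow, hLev]
    simp_rw [hμ]
    rw [Finset.prod_mul_distrib, Finset.prod_const, Finset.card_univ, Fintype.card_fin]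
    ring
  have hL0 : eval z₀ L = 0 := by
    rw [hLev]
    simp only [br]
    ring
  have hd : ∀ i, eval z₀ (pderiv i P) = 0 := by
    intro i
    rw [hPL, pderiv_C_mul, pderiv_pow]
    simp only [map_mul, map_pow, hL0, Nat.add_one_sub_one]
    simp
  have e0 : eval z₀ (pderiv 0 P) = eval z₀ B * eval z₀ (pderiv 0 A) -
      eval z₀ A * eval z₀ (pderiv 0 B) := by
    rw [hP, map_sub, pderiv_C_mul, pderiv_C_mul]
    simp
  have e1 : eval z₀ (pderiv 1 P) = eval z₀ B * eval z₀ (pderiv 1 A) -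
      eval z₀ A * eval z₀ (pderiv 1 B) := by
    rw [hP, map_sub, pderiv_C_mul, pderiv_C_mul]
    simp
  rw [hd 0] at e0
  rw [hd 1] at e1
  have f1 : eval z₀ B * eval z₀ (Jac A B) = 0 := by
    simp only [Jac, map_sub, map_mul]
    linear_combination (-(eval z₀ (pderiv 1 B))) * e0 + (eval z₀ (pderiv 0 B)) * e1
  have f2 : eval z₀ A * eval z₀ (Jac A B) = 0 := by
    simp only [Jac, map_sub, map_mul]
    linear_combination (-(eval z₀ (pderiv 1 A))) * e0 + (eval z₀ (pderiv 0 A)) * e1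
  by_contra hJ
  exact hAB z₀ hz ⟨(mul_eq_zero.mp f2).resolve_right hJ, (mul_eq_zero.mp f1).resolve_right hJ⟩

lemma exists_field {S σ : Type} [Finite S] [Finite σ] (Ψ : S → MvPolynomial σ Qb) :
    ∃ K : IntermediateField ℚ Qb, ∃ _ : FiniteDimensional ℚ K, ∀ s m, coeff m (Ψ s) ∈ K := by
  classical
  have := Fintype.ofFinite S
  let T : Finset Qb := Finset.univ.biUnion fun s : S => (Ψ s).support.image fun m => coeff m (Ψ s)
  refine ⟨IntermediateField.adjoin ℚ (T : Set Qb), ?_, ?_⟩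
  · exact IntermediateField.finiteDimensional_adjoin fun x _ => isIntegral_Qb x
  · intro s m
    by_cases h : coeff m (Ψ s) = 0
    · rw [h]; exact zero_mem _
    · apply IntermediateField.subset_adjoin
      simp only [T, Finset.coe_biUnion, Set.mem_iUnion]
      exact ⟨s, by simp, by
        rw [Finset.coe_image]
        exact ⟨m, by simpa using h, rfl⟩⟩

lemma eval_mem {σ : Type} {K : IntermediateField ℚ Qb} {Φ : MvPolynomial σ Qb} {z : σ → Qb}
    (hΦ : ∀ m, coeff m Φ ∈ K) (hz : ∀ x, z x ∈ K) : eval z Φ ∈ K := by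
  rw [eval_eq]
  apply sum_mem
  intro m _
  apply mul_mem (hΦ m)
  apply prod_mem
  intro x _
  exact pow_mem (hz x) _

namespace FMap

variable {X : Bdl κ ι} (F : FMap X)

/-- the value of one chart -/
noncomputable def Gv (j : F.Jx) (y : κ → Qb) (w : ι → Qb) : ι → Qb :=
  fun i => eval (zz1 y w) (F.G j i)

/-- the point `w` of the plane over `y` is alone in its fibre -/
def AloneV (y : κ → Qb) (w : ι → Qb) : Prop :=
  ∀ w' ∈ X.E y, (∀ j, Pl (F.Gv j y w) (F.Gv j y w') = 0) → Pl w w' = 0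

variable {F}

lemma Fib.Gv_eq {y : κ → Qb} {α β α' β' : ι → Qb} {τ : F.Jx → Qb} {A B : S2}
    (h : F.Fib y α β α' β' τ A B) (j : F.Jx) (z : Fin 2 → Qb) :
    F.Gv j y (pt α β z) = fun i => τ j * img α' β' A B z i := by
  funext i
  have := congrFun (h.Gvec_eq z) (j, i)
  exact this

lemma Fib.alone {y : κ → Qb} {α β α' β' : ι → Qb} {τ : F.Jx → Qb} {A B : S2}
    (h : F.Fib y α β α' β' τ A B) {z : Fin 2 → Qb} (hal : Alone A B z) :
    F.AloneV y (pt α β z) := by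
  intro w' hw' hj
  obtain ⟨x, rfl⟩ := (h.bas.2 _).mp hw'
  obtain ⟨j, hτ⟩ := Function.ne_iff.mp h.tau
  have h1 := hj j
  rw [h.Gv_eq, h.Gv_eq] at h1
  obtain ⟨p, hp⟩ := Function.ne_iff.mp h.bas'.1
  have h2 := congrFun h1 p
  have h3 : τ j ^ 2 * Pl α' β' p * (eval z A * eval x B - eval z B * eval x A) = 0 := by
    have h4 : τ j ^ 2 * Pl α' β' p * (eval z A * eval x B - eval z B * eval x A) =
        Pl (fun i => τ j * img α' β' A B z i) (fun i => τ j * img α' β' A B x i) p := by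
      simp only [Pl, img, pt, Matrix.cons_val_zero, Matrix.cons_val_one]
      ring
    rw [h4, h2]
    rfl
  have h5 : eval z A * eval x B - eval z B * eval x A = 0 :=
    (mul_eq_zero.mp h3).resolve_left (mul_ne_zero (pow_ne_zero _ hτ) hp)
  have h6 := hal x (by linear_combination -h5)
  rw [Bdl.Pl_pt]
  funext q
  have h7 : br z x = 0 := by
    simp only [br] at h6 ⊢
    linear_combination -h6
  simp [h7]

lemma Fib.chart {y : κ → Qb} {α β α' β' : ι → Qb} {τ : F.Jx → Qb} {A B : S2}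
    (h : F.Fib y α β α' β' τ A B) (c : X.Ch) : ∃ δ : Qb,
    (Pl (vev (X.u c) y) (vev (X.v c) y) = fun p => δ * Pl α β p) ∧
    ∀ (a b e : ℕ) (Φ : MvPolynomial (κ ⊕ ((ι × ι) ⊕ ι)) Qb), WH2 Φ a b e → ∀ w,
      eval (zz1 y w) (subp (X.u c) (X.v c) Φ) = δ ^ b * eval (zz2 y (Pl α β) w) Φ := by
  obtain ⟨h1, h2⟩ := X.memU y h.hy.1 h.hy.2 c
  obtain ⟨z1, hz1⟩ := (h.bas.2 _).mp h1
  obtain ⟨z2, hz2⟩ := (h.bas.2 _).mp h2
  have h3 : Pl (vev (X.u c) y) (vev (X.v c) y) = fun p => br z1 z2 * Pl α β p := by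
    rw [hz1, hz2, Bdl.Pl_pt]
  refine ⟨br z1 z2, h3, fun a b e Φ hΦ w => ?_⟩
  rw [subp_eval, h3, eval_scale2 hΦ]

variable (F)

lemma exists_fib_chart {l : ℕ} (hl : F.lam = l + 1) {y : κ → Qb} (hy : y ∈ X.Y) :
    ∃ c α' β' τ A B, F.Fib y (vev (X.u c) y) (vev (X.v c) y) α' β' τ A B := by
  obtain ⟨c, hc⟩ := X.exists_bas hy
  obtain ⟨c', hc'⟩ := X.exists_bas (F.hg y hy)
  obtain ⟨τ, A, B, h⟩ := F.exists_fib hl hy hc hc'
  exact ⟨c, _, _, τ, A, B, h⟩

/-- the polynomial `P` is not identically zero on the bundle -/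
def NV (X : Bdl κ ι) (P : MvPolynomial (κ ⊕ ι) Qb) : Prop :=
  ∃ y ∈ X.Y, ∃ w ∈ X.E y, w ≠ 0 ∧ eval (zz1 y w) P ≠ 0

/-- there are indices which give a nonzero factor -/
lemma exists_idx {y : κ → Qb} {α β α' β' : ι → Qb} {τ : F.Jx → Qb} {A B : S2}
    (h : F.Fib y α β α' β' τ A B) : ∃ j a b k, τ j ^ 2 * (α' a * β' b - α' b * β' a) ≠ 0 ∧
      W2 (α k) (β k) ≠ 0 := by
  obtain ⟨j, hj⟩ := Function.ne_iff.mp h.tau
  obtain ⟨⟨a, b⟩, hab⟩ := Function.ne_iff.mp h.bas'.1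
  obtain ⟨⟨k, m⟩, hkm⟩ := Function.ne_iff.mp h.bas.1
  refine ⟨j, a, b, k, mul_ne_zero (pow_ne_zero _ hj) hab, ?_⟩
  intro h0
  have e0 := congrArg (eval ![1, 0]) h0
  have e1 := congrArg (eval ![0, 1]) h0
  simp [W2] at e0 e1
  apply hkm
  simp [Pl, e0, e1]

lemma NV_of {y : κ → Qb} {c : X.Ch} {α' β' : ι → Qb} {τ : F.Jx → Qb}
    {A B : S2} (h : F.Fib y (vev (X.u c) y) (vev (X.v c) y) α' β' τ A B)
    (Φ : MvPolynomial (κ ⊕ ((ι × ι) ⊕ ι)) Qb)
    (hΦ : ∃ z ≠ 0, eval z (rho y (vev (X.u c) y) (vev (X.v c) y) Φ) ≠ 0) :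
    NV X (subp (X.u c) (X.v c) Φ) := by
  obtain ⟨z, hz, hz2⟩ := hΦ
  refine ⟨y, h.hy, pt (vev (X.u c) y) (vev (X.v c) y) z, X.bas_mem h.bas z,
    (Bdl.pt_ne h.bas.1).mpr hz, ?_⟩
  rw [subp_eval]
  rw [rho_eval] at hz2
  exact hz2

lemma exists_ne' {P : S2} (hP : P ≠ 0) : ∃ z, z ≠ 0 ∧ eval z P ≠ 0 := by
  obtain ⟨z, hz⟩ := exists_ne (mul_ne_zero hP (X_ne_zero (0 : Fin 2)))
  rw [map_mul, eval_X] at hz
  refine ⟨z, ?_, left_ne_zero_of_mul hz⟩
  rintro rfl
  exact right_ne_zero_of_mul hz rfl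

end FMap

end Pool.Agent.H913
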