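import Pool.Agent.H913.Core

/-!
# The core theorem: points of small relative height are not dense
-/

set_option autoImplicit false
set_option linter.unusedSectionVars false

namespace Pool.Agent.H913

open Pool.Agent.V11286.AbsHeight Height NumberField Module MvPolynomial

variable {κ ι : Type} [Fintype κ] [Fintype ι] [DecidableEq κ] [DecidableEq ι]

namespace FMap

variable {X : Bdl κ ι} (F : FMap X)

/-- the bundle is irreducible -/
def Irr (X : Bdl κ ι) : Prop :=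
  ∀ P Q : MvPolynomial (κ ⊕ ι) Qb, (∃ a b, WH1 P a b) → (∃ a b, WH1 Q a b) →
    NV X P → NV X Q → NV X (P * Q)

lemma nv_prod (hirr : Irr X) (h1 : NV X 1) {S : Type} (s : Finset S)
    (P : S → MvPolynomial (κ ⊕ ι) Qb) (hP : ∀ i ∈ s, ∃ a b, WH1 (P i) a b)
    (hNV : ∀ i ∈ s, NV X (P i)) :
    (∃ a b, WH1 (∏ i ∈ s, P i) a b) ∧ NV X (∏ i ∈ s, P i) := by
  classical
  induction s using Finset.induction_on with
  | empty =>
    refine ⟨⟨0, 0, ?_⟩, by simpa using h1⟩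
    rw [Finset.prod_empty]
    have h2 := isWeightedHomogeneous_one Qb (wt (g1 (κ := κ) (ι := ι)))
    have h3 : (![0, 0] : Fin 2 → ℕ) = 0 := by
      funext i
      fin_cases i <;> rfl
    rw [WH1, h3]
    exact h2
  | insert i s his ih =>
    obtain ⟨⟨a, b, hab⟩, h2⟩ := ih (fun i hi => hP i (Finset.mem_insert_of_mem hi))
      (fun i hi => hNV i (Finset.mem_insert_of_mem hi))
    obtain ⟨a', b', hab'⟩ := hP i (Finset.mem_insert_self i s)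
    rw [Finset.prod_insert his]
    exact ⟨⟨_, _, hab'.mul hab⟩, hirr _ _ ⟨a', b', hab'⟩ ⟨a, b, hab⟩
      (hNV i (Finset.mem_insert_self i s)) h2⟩

/-- at most one point of the fibre over `y` is alone -/
def NonMon (y : κ → Qb) : Prop :=
  ¬ ∃ w₁ ∈ X.E y, ∃ w₂ ∈ X.E y, Pl w₁ w₂ ≠ 0 ∧ F.AloneV y w₁ ∧ F.AloneV y w₂

variable {F}

lemma Fib.nonmon {l : ℕ} (hl : F.lam = l + 3) {y : κ → Qb} {α β α' β' : ι → Qb}
    {τ : F.Jx → Qb} {A B : S2} (h : F.Fib y α β α' β' τ A B) (hnm : F.NonMon y) :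
    Hes (Jac A B) ≠ 0 ∧ ∀ r, Jac (Jac A B) (Hes (Jac A B)) ^ 2 ≠ C r * Hes (Jac A B) ^ 3 := by
  by_contra hcon
  apply hnm
  obtain ⟨z1, z2, hbr, h1, h2⟩ := two_tot (l := l + 1) (hl ▸ h.hA) (hl ▸ h.hB) h.noz (by
    by_contra hc
    apply hcon
    push Not at hc
    exact hc)
  refine ⟨_, X.bas_mem h.bas z1, _, X.bas_mem h.bas z2, ?_, h.alone h1, h.alone h2⟩
  rw [Bdl.Pl_pt]
  obtain ⟨p, hp⟩ := Function.ne_iff.mp h.bas.1
  intro h0
  exact mul_ne_zero hbr hp (congrFun h0 p)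

variable (F)

/-- **The core theorem.** -/
theorem core {l : ℕ} (hl : F.lam = l + 3) (hirr : Irr X) {y₀ : κ → Qb} (hy₀ : y₀ ∈ X.Y)
    (hnm : F.NonMon y₀) (D : ℕ) (B₀ : ℝ) :
    ∃ P : MvPolynomial (κ ⊕ ι) Qb, (∃ a b, WH1 P a b) ∧ NV X P ∧
      ∀ y ∈ X.Y, ∀ w ∈ X.E y, w ≠ 0 →
        (∃ L : IntermediateField ℚ Qb, ∃ _ : FiniteDimensional ℚ L, finrank ℚ L ≤ D ∧
          (∀ k, y k ∈ L) ∧ ∀ i, w i ∈ L) →
        eval (zz1 y w) P ≠ 0 → ∀ j, F.Gv j y w ≠ 0 →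
          B₀ < 2 * hv (F.Gv j y w) - X.hp (F.g y) := by
  classical
  have := X.fC
  obtain ⟨C1, hC1⟩ := F.bound_cv hl
  obtain ⟨c₀, α₀', β₀', τ₀, A₀, B₀', h₀⟩ := F.exists_fib_chart (l := l + 2) (by rw [hl]) hy₀
  obtain ⟨j₀, a₀, b₀, k₀, hc₀, hW₀⟩ := F.exists_idx h₀
  obtain ⟨hH₀, hT₀⟩ := h₀.nonmon hl hnm
  have hG := fun (j : F.Jx) (i : ι) => hl ▸ F.hG j i
  -- the finitely many polynomials
  let Ψ : Bool → MvPolynomial (κ ⊕ ι) Qb := fun t =>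
    subp (X.u c₀) (X.v c₀) (CVp l k₀ (F.G j₀ a₀) (F.G j₀ b₀) t)
  obtain ⟨K0, hK0, hΨ⟩ := exists_field Ψ
  have hfin := northcott_deg (D * finrank ℚ K0) (6 * B₀ + C1)
  let R : Finset Qb := hfin.toFinset
  let PJ := subp (X.u c₀) (X.v c₀) (JJ k₀ (F.G j₀ a₀) (F.G j₀ b₀))
  let PH := subp (X.u c₀) (X.v c₀) (HH (l + 1) k₀ (F.G j₀ a₀) (F.G j₀ b₀))
  let Pr : Qb → MvPolynomial (κ ⊕ ι) Qb := fun r => subp (X.u c₀) (X.v c₀)
    (CVp l k₀ (F.G j₀ a₀) (F.G j₀ b₀) true - C r * CVp l k₀ (F.G j₀ a₀) (F.G j₀ b₀) false)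
  have wJ := WH2_JJ (hG j₀ a₀) (hG j₀ b₀) k₀
  have wH := WH2_HH (hG j₀ a₀) (hG j₀ b₀) (l + 1) k₀
  have wC := fun t => WH2_CVp (hG j₀ a₀) (hG j₀ b₀) k₀ t
  have wr : ∀ r, WH2 (CVp l k₀ (F.G j₀ a₀) (F.G j₀ b₀) true -
      C r * CVp l k₀ (F.G j₀ a₀) (F.G j₀ b₀) false) (12 * F.a) 12 (12 * l + 24) := fun r =>
    (wC true).sub ((wC false).C_mul r)
  have hPJ : ∃ a b, WH1 PJ a b := ⟨_, _, WH1_subp (X.hu c₀) (X.hvv c₀) wJ⟩
  have hPH : ∃ a b, WH1 PH a b := ⟨_, _, WH1_subp (X.hu c₀) (X.hvv c₀) wH⟩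
  have hPr : ∀ r, ∃ a b, WH1 (Pr r) a b := fun r => ⟨_, _, WH1_subp (X.hu c₀) (X.hvv c₀) (wr r)⟩
  obtain ⟨i1, i2, -⟩ := rho_cov (n := l + 1) (lam := l + 3) rfl (hl ▸ h₀.hA) (hl ▸ h₀.hB)
    (h₀.val j₀ a₀) (h₀.val j₀ b₀) k₀
  have hJ₀ : Jac A₀ B₀' ≠ 0 := Jac_ne (n := l + 2) (hl ▸ h₀.hA) (hl ▸ h₀.hB) h₀.noz
  have hCc : (C (τ₀ j₀ ^ 2 * (α₀' a₀ * β₀' b₀ - α₀' b₀ * β₀' a₀)) : S2) ≠ 0 :=
    C_ne_zero.mpr hc₀
  have nvJ : NV X PJ := by
    apply F.NV_of h₀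
    apply exists_ne'
    intro h
    rw [h, mul_zero] at i1
    exact mul_ne_zero hCc (mul_ne_zero hW₀ hJ₀) i1.symm
  have nvH : NV X PH := by
    apply F.NV_of h₀
    apply exists_ne'
    intro h
    rw [h, mul_zero] at i2
    exact mul_ne_zero (pow_ne_zero _ hCc) (mul_ne_zero (pow_ne_zero _ hW₀) hH₀) i2.symm
  have nvr : ∀ r, NV X (Pr r) := by
    intro r
    apply F.NV_of h₀
    apply exists_ne'
    intro h
    -- constants
    set K3 : Qb := (((2 * (l + 1) + 1 : ℕ) : Qb) * ((l + 3 : ℕ) : Qb) ^ 3) with hK3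
    set K2 : Qb := (((2 * (l + 1) + 1 : ℕ) : Qb) * ((l + 3 : ℕ) : Qb) ^ 2) with hK2
    have hK3' : K3 ≠ 0 := by
      refine mul_ne_zero (by exact_mod_cast (by omega : 2 * (l + 1) + 1 ≠ 0)) (pow_ne_zero _ ?_)
      exact_mod_cast (by omega : l + 3 ≠ 0)
    have hK2' : K2 ≠ 0 := by
      refine mul_ne_zero (by exact_mod_cast (by omega : 2 * (l + 1) + 1 ≠ 0)) (pow_ne_zero _ ?_)
      exact_mod_cast (by omega : l + 3 ≠ 0)
    set TTT := Jac (Jac A₀ B₀') (Hes (Jac A₀ B₀')) with hTTT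
    set HHH := Hes (Jac A₀ B₀') with hHHH
    have key : W2 (vev (X.u c₀) y₀ k₀) (vev (X.v c₀) y₀ k₀) ^ 12 *
        (C ((K3⁻¹) ^ 2) * TTT ^ 2 - C (r * (K2⁻¹) ^ 3) * HHH ^ 3) = 0 := by
      apply MvPolynomial.funext
      intro z
      have h1 := congrArg (eval z) h
      rw [map_zero, rho_eval, map_sub, map_mul, eval_C, h₀.cov_eval hl, h₀.cov_eval hl] at h1
      have hW : eval z (W2 (vev (X.u c₀) y₀ k₀) (vev (X.v c₀) y₀ k₀)) =
          pt (vev (X.u c₀) y₀) (vev (X.v c₀) y₀) z k₀ := by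
        simp only [W2, pt, map_add, map_mul, eval_C, eval_X]
        ring
      have hne : (τ₀ j₀ ^ 2 * Pl α₀' β₀' (a₀, b₀)) ^ 6 ≠ 0 := pow_ne_zero _ hc₀
      rw [map_mul, map_pow, hW, map_sub, map_mul, map_mul, map_pow, map_pow, eval_C, eval_C,
        map_zero]
      apply mul_left_cancel₀ hne
      rw [mul_zero, ← h1]
      simp only [cv, if_true, Bool.false_eq_true, if_false]
      rw [div_eq_mul_inv, div_eq_mul_inv, ← hK3, ← hK2, ← hHHH, ← hTTT, map_pow, map_pow]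
      ring
    have h2 := (mul_eq_zero.mp key).resolve_left (pow_ne_zero _ hW₀)
    apply hT₀ (K3 ^ 2 * (r * (K2⁻¹) ^ 3))
    have h3 : (C (K3 ^ 2) : S2) * C ((K3⁻¹) ^ 2) = 1 := by
      rw [← C_mul, ← mul_pow, mul_inv_cancel₀ hK3', one_pow, C_1]
    rw [C_mul]
    linear_combination (C (K3 ^ 2) : S2) * h2 - TTT ^ 2 * h3
  have hNV1 : NV X 1 := by
    obtain ⟨y, hy, w, hw, hw0, -⟩ := nvJ
    exact ⟨y, hy, w, hw, hw0, by simp⟩
  obtain ⟨hPR, nvR⟩ := nv_prod hirr hNV1 R Pr (fun r _ => hPr r) (fun r _ => nvr r)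
  have hPJH : ∃ a b, WH1 (PJ * PH) a b := by
    obtain ⟨a, b, h1⟩ := hPJ
    obtain ⟨a', b', h2⟩ := hPH
    exact ⟨_, _, h1.mul h2⟩
  have nvJH : NV X (PJ * PH) := hirr _ _ hPJ hPH nvJ nvH
  refine ⟨(PJ * PH) * ∏ r ∈ R, Pr r, ?_, hirr _ _ hPJH hPR nvJH nvR, ?_⟩
  · obtain ⟨a, b, h1⟩ := hPJH
    obtain ⟨a', b', h2⟩ := hPR
    exact ⟨_, _, h1.mul h2⟩
  rintro y hy w hw hw0 ⟨L, hLfd, hLD, hyL, hwL⟩ hP j hj
  rw [map_mul, map_mul, map_prod] at hP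
  have hPJx := left_ne_zero_of_mul (left_ne_zero_of_mul hP)
  have hPHx := right_ne_zero_of_mul (left_ne_zero_of_mul hP)
  have hPRx := right_ne_zero_of_mul hP
  by_contra hcon
  push Not at hcon
  obtain ⟨c, α', β', τ, A, B, h⟩ := F.exists_fib_chart (l := l + 2) (by rw [hl]) hy
  set α := vev (X.u c) y
  set β := vev (X.v c) y
  obtain ⟨z, rfl⟩ := (h.bas.2 _).mp hw
  have hz : z ≠ 0 := (Bdl.pt_ne h.bas.1).mp hw0
  obtain ⟨δ, -, hδ⟩ := h.chart c₀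
  -- the Jacobian does not vanish
  obtain ⟨f1, f2, -⟩ := rho_cov (n := l + 1) (lam := l + 3) rfl (hl ▸ h.hA) (hl ▸ h.hB)
    (h.val j₀ a₀) (h.val j₀ b₀) k₀
  generalize τ j₀ ^ 2 * (α' a₀ * β' b₀ - α' b₀ * β' a₀) = cc at f1 f2
  have f1' := congrArg (eval z) f1
  have f2' := congrArg (eval z) f2
  rw [map_mul, rho_eval, eval_C, map_mul, map_mul, eval_C] at f1'
  rw [map_mul, rho_eval, eval_C, map_mul, map_mul, map_pow, eval_C] at f2'
  have hl3 : ((l + 3 : ℕ) : Qb) ≠ 0 := by exact_mod_cast (by omega : l + 3 ≠ 0)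
  have hl5 : ((2 * (l + 1) + 1 : ℕ) : Qb) ≠ 0 := by
    exact_mod_cast (by omega : 2 * (l + 1) + 1 ≠ 0)
  have hJz : eval z (Jac A B) ≠ 0 := by
    intro h0
    have h1 : eval (zz1 y (pt α β z)) PJ = 0 := by
      rw [hδ _ _ _ _ wJ]
      rw [h0, mul_zero, mul_zero, mul_eq_zero] at f1'
      rw [f1'.resolve_left hl3, mul_zero]
    exact hPJx h1
  have hHz : eval z (Hes (Jac A B)) ≠ 0 := by
    intro h0
    have h1 : eval (zz1 y (pt α β z)) PH = 0 := by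
      rw [hδ _ _ _ _ wH]
      rw [h0, mul_zero, mul_zero, mul_eq_zero] at f2'
      rw [f2'.resolve_left (mul_ne_zero hl5 (pow_ne_zero _ hl3)), mul_zero]
    exact hPHx h1
  have hal : ¬ Alone A B z := fun ha =>
    hJz (alone_jac (n := l + 1) (hl ▸ h.hA) (hl ▸ h.hB) h.noz hz ha)
  have hcvf : cv l A B z false ≠ 0 := by
    simp only [cv, Bool.false_eq_true, if_false]
    exact pow_ne_zero _ (div_ne_zero hHz (mul_ne_zero hl5 (pow_ne_zero _ hl3)))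
  have hcv : cv l A B z ≠ 0 := fun h0 => hcvf (congrFun h0 false)
  have hbound := hC1 h z hz hal hcv
  set r : Qb := cv l A B z true / cv l A B z false with hr
  have hh1 : h1 r = hv (cv l A B z) := by
    rw [h1]
    have e1 : hv (cv l A B z) = hv (fun b : Bool => (cv l A B z false)⁻¹ * cv l A B z b) :=
      (Bdl.hv_smul' (inv_ne_zero hcvf) _).symm
    rw [e1, ← hv_equiv finTwoEquiv]
    rw [← hv_equiv (Equiv.swap (0 : Fin 2) 1)]
    congr 1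
    funext i
    fin_cases i
    · simp [finTwoEquiv, hcvf]
    · simp [finTwoEquiv, hr]
      ring
  have hGv : hv (F.Gv j y (pt α β z)) = hv (img α' β' A B z) := by
    rw [h.Gv_eq]
    rw [h.Gv_eq] at hj
    have hτ : τ j ≠ 0 := by
      intro h0
      apply hj
      funext i
      rw [h0, zero_mul]
      rfl
    exact Bdl.hv_smul' hτ _
  rw [hGv, X.hp_eq h.bas'] at hcon
  have hrB : h1 r ≤ 6 * B₀ + C1 := by
    rw [hh1]
    linarith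
  -- rationality
  have hN : ∀ t, eval (zz1 y (pt α β z)) (Ψ t) =
      δ ^ 12 * ((τ j₀ ^ 2 * Pl α' β' (a₀, b₀)) ^ 6 * (pt α β z k₀) ^ 12) * cv l A B z t := by
    intro t
    simp only [Ψ]
    rw [hδ _ _ _ _ (wC t), h.cov_eval hl]
    ring
  have hNf : eval (zz1 y (pt α β z)) (Ψ false) ≠ 0 := by
    have : Ψ false = PH ^ 3 := by
      simp only [Ψ, PH, CVp, Bool.false_eq_true, if_false, map_pow]
    rw [this, map_pow]
    exact pow_ne_zero _ hPHx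
  have hcommon : δ ^ 12 * ((τ j₀ ^ 2 * Pl α' β' (a₀, b₀)) ^ 6 * (pt α β z k₀) ^ 12) ≠ 0 := by
    intro h0
    rw [hN, h0, zero_mul] at hNf
    exact hNf rfl
  have hrN : r = eval (zz1 y (pt α β z)) (Ψ true) / eval (zz1 y (pt α β z)) (Ψ false) := by
    rw [hN, hN, mul_div_mul_left _ _ hcommon]
  have hmem : ∀ t, eval (zz1 y (pt α β z)) (Ψ t) ∈ L ⊔ K0 := by
    intro t
    apply eval_mem
    · intro m
      exact (le_sup_right : K0 ≤ L ⊔ K0) (hΨ t m)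
    · rintro (k | i)
      · exact (le_sup_left : L ≤ L ⊔ K0) (hyL k)
      · exact (le_sup_left : L ≤ L ⊔ K0) (hwL i)
  have hrmem : r ∈ L ⊔ K0 := by
    rw [hrN]
    exact div_mem (hmem true) (hmem false)
  have hrR : r ∈ R := by
    rw [Set.Finite.mem_toFinset]
    refine ⟨hrB, L ⊔ K0, inferInstance, ?_, hrmem⟩
    exact (IntermediateField.finrank_sup_le L K0).trans (Nat.mul_le_mul_right _ hLD)
  have hPrx : eval (zz1 y (pt α β z)) (Pr r) ≠ 0 := Finset.prod_ne_zero_iff.mp hPRx r hrR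
  apply hPrx
  have e1 : eval (zz1 y (pt α β z)) (Pr r) = eval (zz1 y (pt α β z)) (Ψ true) -
      r * eval (zz1 y (pt α β z)) (Ψ false) := by
    simp only [Pr, Ψ]
    rw [hδ _ _ _ _ (wr r), hδ _ _ _ _ (wC true), hδ _ _ _ _ (wC false), map_sub, map_mul, eval_C]
    ring
  rw [e1, hrN, div_mul_cancel₀ _ hNf, sub_self]

end FMap

end Pool.Agent.H913
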