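import Pool.Agent.H913.Tot

/-!
# The covariants as polynomials in the point, the Plücker vector and the fibre coordinate
-/

set_option autoImplicit false
set_option linter.unusedSectionVars false

namespace Pool.Agent.H913

open Pool.Agent.V11286.AbsHeight Height NumberField Module MvPolynomial

variable {κ ι : Type} [Fintype κ] [Fintype ι] [DecidableEq κ] [DecidableEq ι]

/-- the Plücker vector of the plane spanned by `u` and `v` -/
noncomputable def Pl (u v : ι → Qb) : ι × ι → Qb := fun p => u p.1 * v p.2 - u p.2 * v p.1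

/-- restriction to the plane spanned by `α` and `β` -/
noncomputable def rho (y : κ → Qb) (α β : ι → Qb) :
    MvPolynomial (κ ⊕ ((ι × ι) ⊕ ι)) Qb →ₐ[Qb] S2 :=
  aeval (Sum.elim (fun k => C (y k)) (Sum.elim (fun p => C (Pl α β p))
    (fun l => C (α l) * X 0 + C (β l) * X 1)))

/-- the point with coordinates `z` in the plane -/
noncomputable def pt (α β : ι → Qb) (z : Fin 2 → Qb) : ι → Qb := fun l => z 0 * α l + z 1 * β l

lemma rho_eval (y : κ → Qb) (α β : ι → Qb) (Φ : MvPolynomial (κ ⊕ ((ι × ι) ⊕ ι)) Qb)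
    (z : Fin 2 → Qb) :
    eval z (rho y α β Φ) = eval (zz2 y (Pl α β) (pt α β z)) Φ := by
  have h : (eval z).comp (rho y α β : MvPolynomial (κ ⊕ ((ι × ι) ⊕ ι)) Qb →+* S2) =
      eval (zz2 y (Pl α β) (pt α β z)) := by
    apply MvPolynomial.ringHom_ext
    · intro r
      simp [rho]
    · rintro (k | p | l)
      · simp [rho, zz2]
      · simp [rho, zz2]
      · simp [rho, zz2, pt]
        ring
  exact congrArg (fun f => f Φ) h

lemma rho_DD (y : κ → Qb) (α β : ι → Qb) (k : ι) (Φ : MvPolynomial (κ ⊕ ((ι × ι) ⊕ ι)) Qb) :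
    rho y α β (DD k Φ) = D2 (α k) (β k) (rho y α β Φ) := by
  induction Φ using MvPolynomial.induction_on with
  | C a =>
    have h1 : DD (κ := κ) k (C a) = 0 := derivation_C _ _
    have h2 : rho y α β (C a) = C a := by simp [rho]
    rw [h1, h2, map_zero, D2_apply]
    simp
  | add p q hp hq => simp only [map_add, hp, hq]
  | mul_X p i hp =>
    have hX : rho y α β (DD k (X i)) = D2 (α k) (β k) (rho y α β (X i)) := by
      rw [DD_apply, D2_apply, map_sum]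
      rcases i with k' | p | l
      · have h0 : ∀ l : ι, pderiv (Sum.inr (Sum.inr l)) (X (Sum.inl k') :
            MvPolynomial (κ ⊕ ((ι × ι) ⊕ ι)) Qb) = 0 := fun l => pderiv_X_of_ne (by simp)
        simp [rho, h0]
      · have h0 : ∀ l : ι, pderiv (Sum.inr (Sum.inr l)) (X (Sum.inr (Sum.inl p)) :
            MvPolynomial (κ ⊕ ((ι × ι) ⊕ ι)) Qb) = 0 := fun l => pderiv_X_of_ne (by simp)
        simp [rho, h0]
      · rw [Finset.sum_eq_single l]
        · simp [rho, Pl, pderiv_X]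
          ring
        · intro l' _ hl'
          rw [pderiv_X_of_ne (by simpa using hl'.symm)]
          simp
        · simp
    rw [Derivation.leibniz, map_add, smul_eq_mul, smul_eq_mul, map_mul, map_mul, hp, hX,
      map_mul (rho y α β) p, Derivation.leibniz, smul_eq_mul, smul_eq_mul]

/-- polynomials in `y` and `w` -/
noncomputable def emb : MvPolynomial (κ ⊕ ι) Qb →ₐ[Qb] MvPolynomial (κ ⊕ ((ι × ι) ⊕ ι)) Qb :=
  bind₁ (Sum.elim (fun k => X (Sum.inl k)) (fun l => X (Sum.inr (Sum.inr l))))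

/-- polynomials in `y` and `w`, at the point `w = U_s` -/
noncomputable def embU (s : ι → Qb) :
    MvPolynomial (κ ⊕ ι) Qb →ₐ[Qb] MvPolynomial (κ ⊕ ((ι × ι) ⊕ ι)) Qb :=
  bind₁ (Sum.elim (fun k => X (Sum.inl k)) (fun l => ∑ k, C (s k) * X (Sum.inr (Sum.inl (k, l)))))

lemma emb_eval (y : κ → Qb) (p : ι × ι → Qb) (w : ι → Qb) (Φ : MvPolynomial (κ ⊕ ι) Qb) :
    eval (zz2 y p w) (emb Φ) = eval (zz1 y w) Φ := by
  have h : (eval (zz2 y p w)).comp (emb (κ := κ) (ι := ι)).toRingHom = eval (zz1 y w) := by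
    apply MvPolynomial.ringHom_ext
    · intro r
      simp [emb]
    · rintro (k | l)
      · simp [emb, zz2, zz1]
      · simp [emb, zz2, zz1]
  exact congrArg (fun f => f Φ) h

/-- the point `U_s` of the plane with Plücker vector `p` -/
noncomputable def Us (s : ι → Qb) (p : ι × ι → Qb) : ι → Qb := fun l => ∑ k, s k * p (k, l)

lemma embU_eval (s : ι → Qb) (y : κ → Qb) (p : ι × ι → Qb) (w : ι → Qb)
    (Φ : MvPolynomial (κ ⊕ ι) Qb) :
    eval (zz2 y p w) (embU s Φ) = eval (zz1 y (Us s p)) Φ := by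
  have h : (eval (zz2 y p w)).comp (embU (κ := κ) s).toRingHom =
      eval (zz1 y (Us s p)) := by
    apply MvPolynomial.ringHom_ext
    · intro r
      simp [embU]
    · rintro (k | l)
      · simp [embU, zz2, zz1]
      · simp [embU, zz2, zz1, Us]
  exact congrArg (fun f => f Φ) h

lemma WH2_emb {Φ : MvPolynomial (κ ⊕ ι) Qb} {a b : ℕ} (h : WH1 Φ a b) : WH2 (emb Φ) a 0 b := by
  have h1 := WH_bind (grp' := g2 (κ := κ) (ι := ι)) h
    (Sum.elim (fun k => X (Sum.inl k)) (fun l => X (Sum.inr (Sum.inr l))))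
    ![![1, 0, 0], ![0, 0, 1]] (by
      rintro (k | l)
      · exact WH2_y k
      · exact WH2_w l)
  have h2 : (∑ γ, ![a, b] γ • (![![1, 0, 0], ![0, 0, 1]] : Fin 2 → (Fin 3 → ℕ)) γ) = ![a, 0, b] := by
    funext i
    fin_cases i <;> simp [Fin.sum_univ_two]
  rw [h2] at h1
  exact h1

lemma WH2_embU (s : ι → Qb) {Φ : MvPolynomial (κ ⊕ ι) Qb} {a b : ℕ} (h : WH1 Φ a b) :
    WH2 (embU s Φ) a b 0 := by
  have h1 := WH_bind (grp' := g2 (κ := κ) (ι := ι)) h
    (Sum.elim (fun k => X (Sum.inl k)) (fun l => ∑ k, C (s k) * X (Sum.inr (Sum.inl (k, l)))))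
    ![![1, 0, 0], ![0, 1, 0]] (by
      rintro (k | l)
      · exact WH2_y k
      · apply IsWeightedHomogeneous.sum
        intro k _
        exact IsWeightedHomogeneous.C_mul (WH2_p (k, l)) _)
  have h2 : (∑ γ, ![a, b] γ • (![![1, 0, 0], ![0, 1, 0]] : Fin 2 → (Fin 3 → ℕ)) γ) = ![a, b, 0] := by
    funext i
    fin_cases i <;> simp [Fin.sum_univ_two]
  rw [h2] at h1
  exact h1

lemma WH1_inl {P : MvPolynomial κ Qb} {b : ℕ} (h : P.IsHomogeneous b) :
    WH1 (ι := ι) (bind₁ (fun k => X (Sum.inl k)) P) b 0 := by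
  have h1 : (bind₁ (fun k => X (Sum.inl k)) P : MvPolynomial (κ ⊕ ι) Qb) =
      ∑ m ∈ P.support, C (coeff m P) * ∏ x, X (Sum.inl x) ^ m x := by
    rw [bind₁, aeval_def, eval₂_eq']
    rfl
  rw [h1]
  apply IsWeightedHomogeneous.sum
  intro m hm
  have h2 : ∑ x, m x = b := by
    have := h (mem_support_iff.mp hm)
    rw [Finsupp.weight_apply, Finsupp.sum_fintype _ _ (by simp)] at this
    simpa using this
  have h3 := IsWeightedHomogeneous.prod (w := wt (g1 (κ := κ) (ι := ι))) Finset.univ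
    (fun x => (X (Sum.inl x) : MvPolynomial (κ ⊕ ι) Qb) ^ m x)
    (fun x => m x • ![1, 0]) (fun x _ => (WH1_y x).pow (m x))
  have h4 : (∑ x, m x • (![1, 0] : Fin 2 → ℕ)) = ![b, 0] := by
    rw [← Finset.sum_smul, h2]
    funext i
    fin_cases i <;> simp
  rw [h4] at h3
  exact h3.C_mul _

/-- substitute the Plücker vector of `u`, `v` -/
noncomputable def subp (u v : ι → MvPolynomial κ Qb) :
    MvPolynomial (κ ⊕ ((ι × ι) ⊕ ι)) Qb →ₐ[Qb] MvPolynomial (κ ⊕ ι) Qb :=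
  bind₁ (Sum.elim (fun k => X (Sum.inl k)) (Sum.elim
    (fun p => bind₁ (fun k => X (Sum.inl k)) (u p.1 * v p.2 - u p.2 * v p.1))
    (fun l => X (Sum.inr l))))

/-- the value of a vector of polynomials -/
noncomputable def vev (u : ι → MvPolynomial κ Qb) (y : κ → Qb) : ι → Qb := fun i => eval y (u i)

lemma inl_eval (y : κ → Qb) (w : ι → Qb) (P : MvPolynomial κ Qb) :
    eval (zz1 y w) (bind₁ (fun k => X (Sum.inl k)) P) = eval y P := by
  have h : (eval (zz1 y w)).comp (bind₁ (fun k => X (Sum.inl k)) :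
      MvPolynomial κ Qb →ₐ[Qb] MvPolynomial (κ ⊕ ι) Qb).toRingHom = eval y := by
    apply MvPolynomial.ringHom_ext
    · intro r
      simp
    · intro k
      simp [zz1]
  exact congrArg (fun f => f P) h

lemma subp_eval (u v : ι → MvPolynomial κ Qb) (y : κ → Qb) (w : ι → Qb)
    (Φ : MvPolynomial (κ ⊕ ((ι × ι) ⊕ ι)) Qb) :
    eval (zz1 y w) (subp u v Φ) = eval (zz2 y (Pl (vev u y) (vev v y)) w) Φ := by
  have h : (eval (zz1 y w)).comp (subp u v :
      MvPolynomial (κ ⊕ ((ι × ι) ⊕ ι)) Qb →+* MvPolynomial (κ ⊕ ι) Qb) =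
      eval (zz2 y (Pl (vev u y) (vev v y)) w) := by
    apply MvPolynomial.ringHom_ext
    · intro r
      simp [subp]
    · rintro (k | p | l)
      · simp [subp, zz2, zz1]
      · have : eval (zz1 y w) (subp u v (X (Sum.inr (Sum.inl p)))) =
            eval (zz1 y w) (bind₁ (fun k => X (Sum.inl k)) (u p.1 * v p.2 - u p.2 * v p.1)) := by
          simp only [subp, bind₁_X_right, Sum.elim_inr, Sum.elim_inl]
        simp only [RingHom.coe_comp, Function.comp_apply, RingHom.coe_coe]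
        rw [this, inl_eval]
        simp [zz2, Pl, vev]
      · simp [subp, zz2, zz1]
  exact congrArg (fun f => f Φ) h

lemma WH1_subp {u v : ι → MvPolynomial κ Qb} {e : ℕ} (hu : ∀ i, (u i).IsHomogeneous e)
    (hv : ∀ i, (v i).IsHomogeneous e) {Φ : MvPolynomial (κ ⊕ ((ι × ι) ⊕ ι)) Qb} {a b c : ℕ}
    (h : WH2 Φ a b c) : WH1 (subp u v Φ) (a + b * (e + e)) c := by
  have h1 := WH_bind (grp' := g1 (κ := κ) (ι := ι)) h
    (Sum.elim (fun k => X (Sum.inl k)) (Sum.elim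
    (fun p => bind₁ (fun k => X (Sum.inl k)) (u p.1 * v p.2 - u p.2 * v p.1))
    (fun l => X (Sum.inr l))))
    ![![1, 0], ![e + e, 0], ![0, 1]] (by
      rintro (k | p | l)
      · exact WH1_y k
      · exact WH1_inl (((hu _).mul (hv _)).sub ((hu _).mul (hv _)))
      · exact WH1_w l)
  have h2 : (∑ γ, ![a, b, c] γ • (![![1, 0], ![e + e, 0], ![0, 1]] : Fin 3 → (Fin 2 → ℕ)) γ) =
      ![a + b * (e + e), c] := by
    funext i
    fin_cases i <;> simp [Fin.sum_univ_three]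
  rw [h2] at h1
  exact h1

section cov

/-- the polarised Jacobian -/
noncomputable def JJ (k : ι) (P Q : MvPolynomial (κ ⊕ ι) Qb) : MvPolynomial (κ ⊕ ((ι × ι) ⊕ ι)) Qb :=
  emb P * DD k (emb Q) - emb Q * DD k (emb P)

/-- the polarised Hessian -/
noncomputable def HH (l : ℕ) (k : ι) (P Q : MvPolynomial (κ ⊕ ι) Qb) :
    MvPolynomial (κ ⊕ ((ι × ι) ⊕ ι)) Qb :=
  ((2 * l + 1 + 1 : ℕ) : MvPolynomial (κ ⊕ ((ι × ι) ⊕ ι)) Qb) * (JJ k P Q * DD k (DD k (JJ k P Q))) -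
    ((2 * l + 1 : ℕ) : MvPolynomial (κ ⊕ ((ι × ι) ⊕ ι)) Qb) * DD k (JJ k P Q) ^ 2

/-- the third covariant -/
noncomputable def TT (l : ℕ) (k : ι) (P Q : MvPolynomial (κ ⊕ ι) Qb) :
    MvPolynomial (κ ⊕ ((ι × ι) ⊕ ι)) Qb :=
  ((2 * l + 2 * l : ℕ) : MvPolynomial (κ ⊕ ((ι × ι) ⊕ ι)) Qb) * (DD k (JJ k P Q) * HH l k P Q) -
    ((2 * l + 1 + 1 : ℕ) : MvPolynomial (κ ⊕ ((ι × ι) ⊕ ι)) Qb) * (JJ k P Q * DD k (HH l k P Q))

variable {P Q : MvPolynomial (κ ⊕ ι) Qb} {a l : ℕ}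

lemma WH2_nat_mul {Φ : MvPolynomial (κ ⊕ ((ι × ι) ⊕ ι)) Qb} {a b c : ℕ} (n : ℕ) (h : WH2 Φ a b c) :
    WH2 ((n : MvPolynomial (κ ⊕ ((ι × ι) ⊕ ι)) Qb) * Φ) a b c := by
  have : (n : MvPolynomial (κ ⊕ ((ι × ι) ⊕ ι)) Qb) = C (n : Qb) := by simp
  rw [this]
  exact IsWeightedHomogeneous.C_mul h _

lemma WH2_JJ (hP : WH1 P a (l + 3)) (hQ : WH1 Q a (l + 3)) (k : ι) :
    WH2 (JJ k P Q) (2 * a) 1 (2 * l + 5) := by
  have h1 : WH2 (DD k (emb Q)) a 1 (l + 2) := (WH2_DD k (WH2_emb hQ)).cast rfl (by ring) rfl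
  have h2 : WH2 (DD k (emb P)) a 1 (l + 2) := (WH2_DD k (WH2_emb hP)).cast rfl (by ring) rfl
  exact (((WH2_emb hP).mul h1).cast (by ring) (by ring) (by ring)).sub
    (((WH2_emb hQ).mul h2).cast (by ring) (by ring) (by ring))

lemma WH2_HH (hP : WH1 P a (l + 3)) (hQ : WH1 Q a (l + 3)) (n : ℕ) (k : ι) :
    WH2 (HH n k P Q) (4 * a) 4 (4 * l + 8) := by
  have h0 := WH2_JJ hP hQ k
  have h1 : WH2 (DD k (JJ k P Q)) (2 * a) 2 (2 * l + 4) := (WH2_DD k h0).cast rfl (by ring) rfl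
  have h2 : WH2 (DD k (DD k (JJ k P Q))) (2 * a) 3 (2 * l + 3) :=
    (WH2_DD k h1).cast rfl (by ring) rfl
  exact (WH2_nat_mul _ ((h0.mul h2).cast (by ring) (by ring) (by ring))).sub
    (WH2_nat_mul _ ((h1.pow 2).cast (by ring) (by ring) (by ring)))

lemma WH2_TT (hP : WH1 P a (l + 3)) (hQ : WH1 Q a (l + 3)) (n : ℕ) (k : ι) :
    WH2 (TT n k P Q) (6 * a) 6 (6 * l + 12) := by
  have h0 := WH2_JJ hP hQ k
  have h1 : WH2 (DD k (JJ k P Q)) (2 * a) 2 (2 * l + 4) := (WH2_DD k h0).cast rfl (by ring) rfl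
  have h3 := WH2_HH hP hQ n k
  have h4 : WH2 (DD k (HH n k P Q)) (4 * a) 5 (4 * l + 7) := (WH2_DD k h3).cast rfl (by ring) rfl
  exact (WH2_nat_mul _ ((h1.mul h3).cast (by ring) (by ring) (by ring))).sub
    (WH2_nat_mul _ ((h0.mul h4).cast (by ring) (by ring) (by ring)))

/-- The restrictions of the polarised covariants to the fibre. -/
lemma rho_cov {A B : S2} {lam n : ℕ} (hlam : lam = n + 2) (hA : A.IsHomogeneous lam)
    (hB : B.IsHomogeneous lam)
    {y : κ → Qb} {α β : ι → Qb} {t a1 b1 a2 b2 : Qb}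
    (hP : rho y α β (emb P) = C t * (C a1 * A + C b1 * B))
    (hQ : rho y α β (emb Q) = C t * (C a2 * A + C b2 * B)) (k : ι) :
    C ((lam : Qb)) * rho y α β (JJ k P Q) =
      C (t ^ 2 * (a1 * b2 - a2 * b1)) * (W2 (α k) (β k) * Jac A B) ∧
    C (((2 * n + 1 : ℕ) : Qb) * lam ^ 2) * rho y α β (HH n k P Q) =
      C (t ^ 2 * (a1 * b2 - a2 * b1)) ^ 2 * (W2 (α k) (β k) ^ 4 * Hes (Jac A B)) ∧
    C (((2 * n + 1 : ℕ) : Qb) * lam ^ 3) * rho y α β (TT n k P Q) =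
      - (C (t ^ 2 * (a1 * b2 - a2 * b1)) ^ 3 * (W2 (α k) (β k) ^ 6 *
        Jac (Jac A B) (Hes (Jac A B)))) := by
  subst hlam
  set D := D2 (α k) (β k) with hD
  set W := W2 (α k) (β k) with hW
  set J := Jac A B with hJ
  set H := Hes J with hH
  have hlam0 : ((n + 2 : ℕ) : Qb) ≠ 0 := by exact_mod_cast (by omega : n + 2 ≠ 0)
  have hCl : ((n + 2 : ℕ) : S2) = C ((n + 2 : ℕ) : Qb) := (map_natCast C _).symm
  have hCn : ((2 * n + 1 : ℕ) : S2) = C ((2 * n + 1 : ℕ) : Qb) := (map_natCast C _).symm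
  set c := t ^ 2 * (a1 * b2 - a2 * b1) with hc
  have hDW : D W = 0 := D2_W2 _ _
  have hmulW : ∀ R : S2, D (W * R) = W * D R := by
    intro R
    rw [Derivation.leibniz, hDW]
    simp
  have hmulC : ∀ (r : Qb) (R : S2), D (C r * R) = C r * D R := by
    intro r R
    rw [Derivation.leibniz, derivation_C]
    simp
  have hJhom : J.IsHomogeneous (2 * n + 1 + 1) := by
    have := Jac_hom (n := n + 1) hA hB
    convert this using 1
    ring
  have hHhom : H.IsHomogeneous (2 * n + 2 * n) := Hes_hom hJhom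
  -- first identity
  have e1 : C ((n + 2 : ℕ) : Qb) * rho y α β (JJ k P Q) = C c * (W * J) := by
    have h1 := I1 hA hB (α k) (β k)
    rw [← hD, ← hW, ← hJ, hCl] at h1
    rw [JJ, map_sub, map_mul, map_mul, rho_DD, rho_DD, hP, hQ, ← hD]
    simp only [hmulC, map_add]
    rw [hc]
    simp only [map_mul, map_sub, map_pow]
    linear_combination (C t ^ 2 * (C a1 * C b2 - C a2 * C b1)) * h1
  set R := rho y α β (JJ k P Q) with hR
  have hDR : C ((n + 2 : ℕ) : Qb) * D R = C c * (W * D J) := by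
    rw [← hmulC, e1, hmulC, hmulW]
  have hDDR : C ((n + 2 : ℕ) : Qb) * D (D R) = C c * (W * D (D J)) := by
    rw [← hmulC, hDR, hmulC, hmulW]
  have e2 : C (((2 * n + 1 : ℕ) : Qb) * ((n + 2 : ℕ) : Qb) ^ 2) * rho y α β (HH n k P Q) =
      C c ^ 2 * (W ^ 4 * H) := by
    have h2 := I2 (n := 2 * n + 1) hJhom (α k) (β k)
    rw [← hD, ← hW, ← hH] at h2
    have h3 : rho y α β (HH n k P Q) = ((2 * n + 1 + 1 : ℕ) : S2) * (R * D (D R)) -
        ((2 * n + 1 : ℕ) : S2) * D R ^ 2 := by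
      rw [HH, map_sub, map_mul, map_mul, map_mul, map_natCast, map_natCast, map_pow, rho_DD, rho_DD]
    rw [h3, C_mul, C_pow, ← hCn]
    have h4 : C ((n + 2 : ℕ) : Qb) ^ 2 * (((2 * n + 1 + 1 : ℕ) : S2) * (R * D (D R)) -
        ((2 * n + 1 : ℕ) : S2) * D R ^ 2) = ((2 * n + 1 + 1 : ℕ) : S2) *
        ((C ((n + 2 : ℕ) : Qb) * R) * (C ((n + 2 : ℕ) : Qb) * D (D R))) -
        ((2 * n + 1 : ℕ) : S2) * (C ((n + 2 : ℕ) : Qb) * D R) ^ 2 := by ring
    rw [mul_assoc, h4, e1, hDR, hDDR]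
    linear_combination (C c ^ 2 * W ^ 2) * h2
  have e2D : C (((2 * n + 1 : ℕ) : Qb) * ((n + 2 : ℕ) : Qb) ^ 2) * D (rho y α β (HH n k P Q)) =
      C c ^ 2 * (W ^ 4 * D H) := by
    rw [← hmulC, e2, ← C_pow, hmulC]
    have : W ^ 4 * H = W * (W * (W * (W * H))) := by ring
    rw [this, hmulW, hmulW, hmulW, hmulW]
    ring
  refine ⟨e1, e2, ?_⟩
  have h3 := I3 hJhom hHhom (α k) (β k)
  rw [← hD, ← hW] at h3
  have h4 : rho y α β (TT n k P Q) = ((2 * n + 2 * n : ℕ) : S2) * (D R * rho y α β (HH n k P Q)) -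
      ((2 * n + 1 + 1 : ℕ) : S2) * (R * D (rho y α β (HH n k P Q))) := by
    rw [TT, map_sub, map_mul, map_mul, map_mul, map_mul, map_natCast, map_natCast, rho_DD, rho_DD]
  have h5 : C (((2 * n + 1 : ℕ) : Qb) * ((n + 2 : ℕ) : Qb) ^ 3) =
      C ((n + 2 : ℕ) : Qb) * C (((2 * n + 1 : ℕ) : Qb) * ((n + 2 : ℕ) : Qb) ^ 2) (σ := Fin 2) := by
    rw [← C_mul]
    congr 1
    ring
  rw [h5, h4]
  have h6 : C ((n + 2 : ℕ) : Qb) * C (((2 * n + 1 : ℕ) : Qb) * ((n + 2 : ℕ) : Qb) ^ 2) *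
      (((2 * n + 2 * n : ℕ) : S2) * (D R * rho y α β (HH n k P Q)) -
      ((2 * n + 1 + 1 : ℕ) : S2) * (R * D (rho y α β (HH n k P Q)))) =
      ((2 * n + 2 * n : ℕ) : S2) * ((C ((n + 2 : ℕ) : Qb) * D R) *
        (C (((2 * n + 1 : ℕ) : Qb) * ((n + 2 : ℕ) : Qb) ^ 2) * rho y α β (HH n k P Q))) -
      ((2 * n + 1 + 1 : ℕ) : S2) * ((C ((n + 2 : ℕ) : Qb) * R) *
        (C (((2 * n + 1 : ℕ) : Qb) * ((n + 2 : ℕ) : Qb) ^ 2) * D (rho y α β (HH n k P Q)))) := by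
    ring
  rw [h6, e1, hDR, e2, e2D]
  linear_combination (C c ^ 3 * W ^ 5) * h3

end cov

end Pool.Agent.H913
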