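import Pool.Agent.H913.Irr

/-!
# Endomorphisms of projective line bundles: definitions

`PS κ` is the projective space over the algebraic numbers with homogeneous coordinates indexed by
the finite set `κ`.  All conditions below are conditions on forms, so that they do not depend on
the choice of the representatives `.rep`.
-/

set_option autoImplicit false
set_option linter.unusedSectionVars false

namespace Pool.Agent.H913.KS

open Pool.Agent.V11286.AbsHeight Module MvPolynomial

/-- Projective space over the algebraic numbers, homogeneous coordinates indexed by `κ`. -/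
abbrev PS (κ : Type) := Projectivization Qb (κ → Qb)

section

variable {κ ι : Type} [Fintype κ] [Fintype ι] [DecidableEq κ] [DecidableEq ι]

/-- The absolute logarithmic Weil height. -/
noncomputable def ht (p : PS κ) : ℝ := hv p.rep

/-- The vector of the values of the forms `u i` at `y`. -/
noncomputable def val (u : ι → MvPolynomial κ Qb) (y : PS κ) : ι → Qb := fun i => eval y.rep (u i)

/-- `P` is bihomogeneous of bidegree `(a, b)`. -/
def Bihom (P : MvPolynomial (κ ⊕ ι) Qb) (a b : ℕ) : Prop :=
  ∀ m ∈ P.support, ∑ k, m (Sum.inl k) = a ∧ ∑ i, m (Sum.inr i) = b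

/-- The value of a bihomogeneous form at a point of the product of two projective spaces. -/
noncomputable def bival (P : MvPolynomial (κ ⊕ ι) Qb) (x : PS κ × PS ι) : Qb :=
  eval (Sum.elim x.1.rep x.2.rep) P

/-- `v` is zero or a vector of homogeneous coordinates of `p`. -/
def Represents (v : ι → Qb) (p : PS ι) : Prop := ∃ c : Qb, v = c • p.rep

variable (κ ι) in
/-- A `ℙ¹`-bundle `X = ℙ(E)` over an irreducible projective variety `Y` in the projective space
`PS κ`, where `E` is a subbundle of rank two of the trivial bundle: the fibre of `X` over `y` is the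
line in `PS ι` given by the plane `E y`, which is spanned by the values `u c y`, `v c y` of finitely
many tuples of forms, one of these pairs being a basis near each point of `Y`. -/
structure Bundle where
  /-- the equations of `Y` -/
  eqs : Set (MvPolynomial κ Qb)
  eqs_hom : ∀ P ∈ eqs, ∃ d, P.IsHomogeneous d
  irreducible : ∀ P Q : MvPolynomial κ Qb, (∃ d, P.IsHomogeneous d) → (∃ d, Q.IsHomogeneous d) →
    (∀ y : PS κ, (∀ R ∈ eqs, eval y.rep R = 0) → eval y.rep (P * Q) = 0) →
    (∀ y : PS κ, (∀ R ∈ eqs, eval y.rep R = 0) → eval y.rep P = 0) ∨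
    (∀ y : PS κ, (∀ R ∈ eqs, eval y.rep R = 0) → eval y.rep Q = 0)
  Ch : Type
  fin : Fintype Ch
  deg : Ch → ℕ
  u : Ch → ι → MvPolynomial κ Qb
  v : Ch → ι → MvPolynomial κ Qb
  u_hom : ∀ c i, (u c i).IsHomogeneous (deg c)
  v_hom : ∀ c i, (v c i).IsHomogeneous (deg c)
  plane : ∀ y : PS κ, (∀ R ∈ eqs, eval y.rep R = 0) →
    finrank Qb (Submodule.span Qb (Set.range (fun c => val (u c) y) ∪
      Set.range (fun c => val (v c) y))) = 2 ∧
    ∃ c, LinearIndependent Qb ![val (u c) y, val (v c) y]

namespace Bundle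

variable (X : Bundle κ ι)

/-- The base. -/
def Y : Set (PS κ) := {y | ∀ R ∈ X.eqs, eval y.rep R = 0}

/-- The plane over `y`. -/
noncomputable def E (y : PS κ) : Submodule Qb (ι → Qb) :=
  Submodule.span Qb (Set.range (fun c => val (X.u c) y) ∪ Set.range (fun c => val (X.v c) y))

/-- The points of the bundle. -/
def pts : Set (PS κ × PS ι) := {x | x.1 ∈ X.Y ∧ x.2.rep ∈ X.E x.1}

end Bundle

/-- An endomorphism `f` of the bundle `X` over an endomorphism `g` of the base: `g` is given
locally by tuples `Q i` of forms of degree `e`, and `f` is given locally over the base by tuples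
`G j` of bihomogeneous forms of bidegree `(a, lam)`.  So `lam` is the degree of the forms which
give `f` on the fibres. -/
structure Endo (X : Bundle κ ι) where
  g : PS κ → PS κ
  f : PS κ × PS ι → PS ι
  g_mem : ∀ y ∈ X.Y, g y ∈ X.Y
  f_mem : ∀ x ∈ X.pts, (f x).rep ∈ X.E (g x.1)
  Jg : Type
  finJg : Fintype Jg
  e : ℕ
  Q : Jg → κ → MvPolynomial κ Qb
  Q_hom : ∀ i k, (Q i k).IsHomogeneous e
  Q_rep : ∀ y ∈ X.Y, ∀ i, Represents (val (Q i) y) (g y)
  Q_good : ∀ y ∈ X.Y, ∃ i, val (Q i) y ≠ 0
  Jf : Type
  finJf : Fintype Jf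
  a : ℕ
  lam : ℕ
  G : Jf → ι → MvPolynomial (κ ⊕ ι) Qb
  G_hom : ∀ j i, Bihom (G j i) a lam
  G_rep : ∀ x ∈ X.pts, ∀ j, Represents (fun i => bival (G j i) x) (f x)
  G_good : ∀ y ∈ X.Y, ∃ j, ∀ x ∈ X.pts, x.1 = y → (fun i => bival (G j i) x) ≠ 0

namespace Endo

variable {X : Bundle κ ι} (F : Endo X)

/-- The map on the points of the bundle. -/
def map (x : PS κ × PS ι) : PS κ × PS ι := (F.g x.1, F.f x)

/-- The point `x` is the only point of its fibre with the same image under `f ^ k`, i.e. the
restriction of `f ^ k` to the line through `x` is totally ramified at `x`. -/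
def TotRam (k : ℕ) (x : PS κ × PS ι) : Prop :=
  ∀ x' ∈ X.pts, x'.1 = x.1 → F.map^[k] x' = F.map^[k] x → x' = x

end Endo

/-- The point `x` has coordinates in a number field of degree at most `D`. -/
def DegLE (D : ℕ) (x : PS κ × PS ι) : Prop :=
  ∃ L : IntermediateField ℚ Qb, ∃ _ : FiniteDimensional ℚ L, finrank ℚ L ≤ D ∧
    ∃ s t : Qb, s ≠ 0 ∧ t ≠ 0 ∧ (∀ k, s * x.1.rep k ∈ L) ∧ ∀ i, t * x.2.rep i ∈ L

/-- The set `T` is Zariski dense in `X`. -/
def Dense (X : Bundle κ ι) (T : Set (PS κ × PS ι)) : Prop :=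
  ∀ (P : MvPolynomial (κ ⊕ ι) Qb) (a b : ℕ), Bihom P a b → (∀ x ∈ T, bival P x = 0) →
    ∀ x ∈ X.pts, bival P x = 0

end

end Pool.Agent.H913.KS
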