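import Mathlib

/-!
# The growth rate of a sequence with a forced recursion
-/

set_option autoImplicit false

namespace Pool.Agent.H913

open Filter Topology

lemma tendsto_root {c : ℝ} (hc : 0 < c) :
    Tendsto (fun n : ℕ => c ^ (1 / (n : ℝ))) atTop (𝓝 1) := by
  have h1 : ContinuousAt (fun x : ℝ => c ^ x) 0 := Real.continuousAt_const_rpow hc.ne'
  have h2 := h1.tendsto.comp tendsto_one_div_atTop_nhds_zero_nat
  rw [Real.rpow_zero] at h2
  exact h2

lemma root_mul_pow {c R : ℝ} (hc : 0 ≤ c) (hR : 0 ≤ R) {n : ℕ} (hn : n ≠ 0) :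
    (c * R ^ n) ^ (1 / (n : ℝ)) = c ^ (1 / (n : ℝ)) * R := by
  rw [Real.mul_rpow hc (pow_nonneg hR n), one_div, Real.pow_rpow_inv_natCast hR hn]

lemma growth_limit {yv wv : ℕ → ℝ} (hy : ∀ n, 0 ≤ yv n) (hw : ∀ n, 0 ≤ wv n) {lam a C : ℝ}
    (hlam : 1 ≤ lam) (ha : 0 ≤ a) (hC : 0 ≤ C)
    (h1 : ∀ n, wv (n + 1) ≤ lam * wv n + a * yv n + C)
    (h2 : ∃ K : ℝ, 0 < K ∧ ∃ m : ℕ, ∀ n, m ≤ n → lam ^ n ≤ K * wv n) {α : ℝ}
    (h3 : Tendsto (fun n : ℕ => (max 1 (yv n)) ^ (1 / (n : ℝ))) atTop (𝓝 α)) :
    Tendsto (fun n : ℕ => (max 1 (yv n + wv n)) ^ (1 / (n : ℝ))) atTop (𝓝 (max lam α)) := by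
  obtain ⟨K, hK, m, hm⟩ := h2
  have hlam0 : 0 ≤ lam := by linarith
  have hexp : ∀ n : ℕ, (0 : ℝ) ≤ 1 / (n : ℝ) := fun n => by positivity
  refine tendsto_order.mpr ⟨fun a' ha' => ?_, fun b hb => ?_⟩
  · rcases lt_max_iff.mp ha' with h | h
    · have h4 : Tendsto (fun n : ℕ => (1 / K) ^ (1 / (n : ℝ)) * lam) atTop (𝓝 (1 * lam)) :=
        (tendsto_root (by positivity)).mul_const lam
      rw [one_mul] at h4
      filter_upwards [h4.eventually_const_lt h, eventually_ge_atTop (max m 1)] with n hn hn'
      have hn0 : n ≠ 0 := by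
        have := le_of_max_le_right hn'
        omega
      have h5 := hm n (le_of_max_le_left hn')
      have h6 : 1 / K * lam ^ n ≤ wv n := by
        rw [div_mul_eq_mul_div, one_mul, div_le_iff₀ hK]
        linarith
      have h7 : 1 / K * lam ^ n ≤ max 1 (yv n + wv n) := by
        refine h6.trans (le_trans ?_ (le_max_right _ _))
        have := hy n
        linarith
      calc a' < (1 / K) ^ (1 / (n : ℝ)) * lam := hn
        _ = (1 / K * lam ^ n) ^ (1 / (n : ℝ)) := (root_mul_pow (by positivity) hlam0 hn0).symm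
        _ ≤ _ := Real.rpow_le_rpow (by positivity) h7 (hexp n)
    · filter_upwards [h3.eventually_const_lt h] with n hn
      refine hn.trans_le (Real.rpow_le_rpow (by positivity) ?_ (hexp n))
      apply max_le_max le_rfl
      have := hw n
      linarith
  · obtain ⟨R, hR1, hR2⟩ := exists_between hb
    have hRlam : lam < R := lt_of_le_of_lt (le_max_left _ _) hR1
    have hRα : α < R := lt_of_le_of_lt (le_max_right _ _) hR1
    have hR0 : 0 < R := by linarith
    have hR1' : 1 ≤ R := by linarith
    obtain ⟨N, hN⟩ := eventually_atTop.mp (h3.eventually_lt_const hRα)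
    have e1 : ∃ C0 : ℝ, 0 ≤ C0 ∧ ∀ n, yv n ≤ C0 * R ^ n := by
      refine ⟨1 + ∑ i ∈ Finset.range (N + 1), yv i, ?_, fun n => ?_⟩
      · have := Finset.sum_nonneg (s := Finset.range (N + 1)) (f := yv) fun i _ => hy i
        linarith
      · have hRn : 1 ≤ R ^ n := one_le_pow₀ hR1'
        have hs0 := Finset.sum_nonneg (s := Finset.range (N + 1)) (f := yv) fun i _ => hy i
        by_cases hn : n < N + 1
        · have h4 : yv n ≤ ∑ i ∈ Finset.range (N + 1), yv i :=
            Finset.single_le_sum (f := yv) (fun i _ => hy i) (Finset.mem_range.mpr hn)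
          nlinarith
        · have h4 := hN n (by omega)
          have hn0 : n ≠ 0 := by omega
          have h5 : max 1 (yv n) < R ^ n := by
            by_contra hcon
            push Not at hcon
            have h6 := Real.rpow_le_rpow (by positivity) hcon (hexp n)
            rw [one_div, Real.pow_rpow_inv_natCast hR0.le hn0, ← one_div] at h6
            linarith
          have h6 := (le_max_right 1 (yv n)).trans h5.le
          nlinarith
    obtain ⟨C0, hC0, e2⟩ := e1
    have e3 : ∃ K' : ℝ, 0 ≤ K' ∧ ∀ n, wv n ≤ K' * R ^ n := by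
      have hRl : 0 < R - lam := by linarith
      refine ⟨wv 0 + (a * C0 + C) / (R - lam), by
        have := hw 0
        positivity, fun n => ?_⟩
      set q := (a * C0 + C) / (R - lam) with hq
      have hq0 : 0 ≤ q := by positivity
      have hq1 : q * (R - lam) = a * C0 + C := by
        rw [hq]
        field_simp
      induction n with
      | zero =>
        simp only [pow_zero, mul_one]
        linarith
      | succ n ih =>
        have hRn : 1 ≤ R ^ n := one_le_pow₀ hR1'
        have h4 := h1 n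
        have h5 := e2 n
        have h6 : lam * wv n ≤ lam * ((wv 0 + q) * R ^ n) := mul_le_mul_of_nonneg_left ih hlam0
        have h7 : a * yv n ≤ a * (C0 * R ^ n) := mul_le_mul_of_nonneg_left h5 ha
        have h8 : C ≤ C * R ^ n := by nlinarith
        have h9 : (wv 0 + q) * R ^ (n + 1) = lam * ((wv 0 + q) * R ^ n) +
            (a * (C0 * R ^ n) + C * R ^ n) + wv 0 * (R - lam) * R ^ n := by
          rw [pow_succ]
          linear_combination (R ^ n) * hq1
        have h10 : 0 ≤ wv 0 * (R - lam) * R ^ n := by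
          have := hw 0
          positivity
        linarith
    obtain ⟨K', hK', e4⟩ := e3
    have h4 : Tendsto (fun n : ℕ => (C0 + K' + 1) ^ (1 / (n : ℝ)) * R) atTop (𝓝 (1 * R)) :=
      (tendsto_root (by positivity)).mul_const R
    rw [one_mul] at h4
    filter_upwards [h4.eventually_lt_const hR2, eventually_ge_atTop 1] with n hn hn'
    have hn0 : n ≠ 0 := by omega
    refine lt_of_le_of_lt ?_ hn
    rw [← root_mul_pow (by positivity) hR0.le hn0]
    apply Real.rpow_le_rpow (by positivity) ?_ (hexp n)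
    have hRn : 1 ≤ R ^ n := one_le_pow₀ hR1'
    apply max_le
    · nlinarith
    · have h5 := e2 n
      have h6 := e4 n
      nlinarith

end Pool.Agent.H913
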