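import Pool.Agent.H913.Bridge2
import Pool.Agent.H913.Lim

/-!
# The theorem for points of projective spaces
-/

set_option autoImplicit false
set_option linter.unusedSectionVars false

namespace Pool.Agent.H913.KS

open Pool.Agent.V11286.AbsHeight Module MvPolynomial Pool.Agent.H913 Filter Topology

variable {κ ι : Type} [Fintype κ] [Fintype ι] [DecidableEq κ] [DecidableEq ι]

lemma ht_nonneg (p : PS κ) : 0 ≤ ht p := hv_nonneg _

namespace Endo

variable {X : Bundle κ ι} (F : Endo X)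

/-- the quantitative statement -/
theorem quant (hlam : 2 ≤ F.lam) {k : ℕ} (hk : 1 ≤ k) {y₀ : PS κ} (hy₀ : y₀ ∈ X.Y)
    (hnm : ¬ ∃ x₁ ∈ X.pts, ∃ x₂ ∈ X.pts, x₁.1 = y₀ ∧ x₂.1 = y₀ ∧ x₁ ≠ x₂ ∧ F.TotRam k x₁ ∧
      F.TotRam k x₂) (D : ℕ) (B : ℝ) :
    ∃ (P : MvPolynomial (κ ⊕ ι) Qb) (a b : ℕ), Bihom P a b ∧ (∃ x ∈ X.pts, bival P x ≠ 0) ∧
      ∀ x ∈ X.pts, DegLE D x → bival P x ≠ 0 → ∀ n, k ≤ n →
        B * (F.lam : ℝ) ^ n ≤ ht (F.map^[n] x).2 := by
  obtain ⟨k', rfl⟩ : ∃ k', k = k' + 1 := ⟨k - 1, by omega⟩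
  have hlam1 : 1 ≤ F.lam := by omega
  have h1 := F.nonMon hlam1 hy₀ hnm
  obtain ⟨P, ⟨a, b, hP⟩, hNV, hmain⟩ := (F.toPMap hlam1).main_vec hlam X.irr_toBdl
    (X.rep_mem_Y hy₀) h1 D B
  refine ⟨P, a, b, bihom_iff.mpr hP, ?_, ?_⟩
  · obtain ⟨y, hy, w, hw, hw0, hne⟩ := hNV
    have hy0 : y ≠ 0 := hy.1
    refine ⟨mkx hy0 hw0, mkx_mem hy hw hw0, ?_⟩
    obtain ⟨s, hs, h1⟩ := rep_mk hy0
    obtain ⟨t, ht, h2⟩ := rep_mk hw0
    have h3 : bival P (mkx hy0 hw0) = eval (zz1 (s • y) (t • w)) P := by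
      rw [← h1, ← h2]
      rfl
    rw [h3, zz1_smul s t y w hP]
    exact mul_ne_zero (mul_ne_zero (pow_ne_zero _ hs) (pow_ne_zero _ ht)) hne
  · rintro x hx ⟨L, hL, hLD, s, t, hs, ht0, hsL, htL⟩ hne n hn
    have ho := F.isOrb hlam1 hx hs ht0
    have h2 := hmain ho ⟨L, hL, hLD, hsL, htL⟩ (by
      show eval (zz1 (s • x.1.rep) (t • x.2.rep)) P ≠ 0
      rw [zz1_smul s t _ _ hP]
      exact mul_ne_zero (mul_ne_zero (pow_ne_zero _ hs) (pow_ne_zero _ ht0)) hne) n hn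
    obtain ⟨n', rfl⟩ : ∃ n', n = n' + 1 := ⟨n - 1, by omega⟩
    exact h2

/-- the points of an orbit are defined over a fixed number field -/
lemma exists_deg {x : PS κ × PS ι} (hx : x ∈ X.pts) : ∃ D, ∀ n, DegLE D (F.map^[n] x) := by
  have hJf : Finite F.Jf := @Finite.of_fintype _ F.finJf
  have hJg : Finite F.Jg := @Finite.of_fintype _ F.finJg
  obtain ⟨K1, hK1, h1⟩ := exists_field (fun q : F.Jg × κ => F.Q q.1 q.2)
  obtain ⟨K2, hK2, h2⟩ := exists_field (fun q : F.Jf × ι => F.G q.1 q.2)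
  have hK3 : FiniteDimensional ℚ (fld (Sum.elim x.1.rep x.2.rep)) := inferInstance
  let L := K1 ⊔ K2 ⊔ fld (Sum.elim x.1.rep x.2.rep)
  have hL : FiniteDimensional ℚ L := inferInstance
  have l1 : K1 ≤ L := le_sup_left.trans le_sup_left
  have l2 : K2 ≤ L := le_sup_right.trans le_sup_left
  have l3 : fld (Sum.elim x.1.rep x.2.rep) ≤ L := le_sup_right
  refine ⟨finrank ℚ L, fun n => ⟨L, hL, le_rfl, ?_⟩⟩
  induction n with
  | zero =>
    refine ⟨1, 1, one_ne_zero, one_ne_zero, fun k => ?_, fun i => ?_⟩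
    · rw [one_mul]
      exact l3 (IntermediateField.subset_adjoin ℚ _ ⟨Sum.inl k, rfl⟩)
    · rw [one_mul]
      exact l3 (IntermediateField.subset_adjoin ℚ _ ⟨Sum.inr i, rfl⟩)
  | succ n ih =>
    obtain ⟨s, t, hs, ht0, hsL, htL⟩ := ih
    have hm := F.iter_mem hx n
    set x' := F.map^[n] x with hx'
    have e1 : F.map^[n + 1] x = F.map x' := Function.iterate_succ_apply' _ _ _
    rw [e1]
    obtain ⟨i, hi⟩ := F.Q_good _ hm.1
    obtain ⟨c, hc⟩ := F.Q_rep _ hm.1 i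
    obtain ⟨j, hj⟩ := F.G_good _ hm.1
    have hj' := hj x' hm rfl
    obtain ⟨d, hd⟩ := F.G_rep _ hm j
    have hc0 : c ≠ 0 := by
      rintro rfl
      apply hi
      rw [hc, zero_smul]
    have hd0 : d ≠ 0 := by
      rintro rfl
      apply hj'
      rw [hd, zero_smul]
    refine ⟨s ^ F.e * c, s ^ F.a * t ^ F.lam * d, mul_ne_zero (pow_ne_zero _ hs) hc0,
      mul_ne_zero (mul_ne_zero (pow_ne_zero _ hs) (pow_ne_zero _ ht0)) hd0, fun k => ?_,
      fun l => ?_⟩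
    · have e2 : s ^ F.e * c * (F.map x').1.rep k = eval (s • x'.1.rep) (F.Q i k) := by
        rw [eval_smul_hom' (F.Q_hom i k), mul_assoc]
        congr 1
        have := congrFun hc k
        simp only [Pi.smul_apply, smul_eq_mul] at this
        exact this.symm
      rw [e2]
      exact eval_mem (fun m => l1 (h1 (i, k) m)) hsL
    · have e2 : s ^ F.a * t ^ F.lam * d * (F.map x').2.rep l =
          eval (zz1 (s • x'.1.rep) (t • x'.2.rep)) (F.G j l) := by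
        rw [zz1_smul s t _ _ (bihom_iff.mp (F.G_hom j l)), mul_assoc]
        congr 1
        have := congrFun hd l
        simp only [Pi.smul_apply, smul_eq_mul] at this
        exact this.symm
      rw [e2]
      apply eval_mem (fun m => l2 (h2 (j, l) m))
      rintro (k | i)
      · exact hsL k
      · exact htL i

/-- the arithmetic degree of a point with a dense orbit -/
theorem arith (hlam : 2 ≤ F.lam) {k : ℕ} (hk : 1 ≤ k) {y₀ : PS κ} (hy₀ : y₀ ∈ X.Y)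
    (hnm : ¬ ∃ x₁ ∈ X.pts, ∃ x₂ ∈ X.pts, x₁.1 = y₀ ∧ x₂.1 = y₀ ∧ x₁ ≠ x₂ ∧ F.TotRam k x₁ ∧
      F.TotRam k x₂) {x : PS κ × PS ι} (hx : x ∈ X.pts)
    (hdense : Dense X (Set.range fun n => F.map^[n] x)) {α : ℝ}
    (hα : Tendsto (fun n : ℕ => (max 1 (ht (F.map^[n] x).1)) ^ (1 / (n : ℝ))) atTop (𝓝 α)) :
    Tendsto (fun n : ℕ => (max 1 (ht (F.map^[n] x).1 + ht (F.map^[n] x).2)) ^ (1 / (n : ℝ)))
      atTop (𝓝 (max (F.lam : ℝ) α)) := by
  have hlam1 : 1 ≤ F.lam := by omega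
  have hlam' : (1 : ℝ) ≤ F.lam := by exact_mod_cast hlam1
  obtain ⟨D, hD⟩ := F.exists_deg hx
  obtain ⟨P, a, b, hP, ⟨x1, hx1, hx1'⟩, hmain⟩ := F.quant hlam hk hy₀ hnm D 1
  obtain ⟨m, hm⟩ : ∃ m, bival P (F.map^[m] x) ≠ 0 := by
    by_contra hcon
    push Not at hcon
    apply hx1'
    apply hdense P a b hP
    · rintro _ ⟨n, rfl⟩
      exact hcon n
    · exact hx1
  obtain ⟨C, hC⟩ := (F.toPMap hlam1).upper
  have ho := F.isOrb hlam1 hx one_ne_zero one_ne_zero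
  have ey : ∀ n, hv (F.orbY 1 x n) = ht (F.map^[n] x).1 := by
    intro n
    obtain ⟨c, hc, h⟩ := F.orbY_eq one_ne_zero x n
    rw [h]
    exact hv_smul c hc _
  have ew : ∀ n, hv (F.orbW 1 x n) = ht (F.map^[n] x).2 := by
    intro n
    obtain ⟨c, hc, h⟩ := F.orbW_eq one_ne_zero x n
    rw [h]
    exact hv_smul c hc _
  refine growth_limit (a := F.a) (C := |C|) (fun n => ht_nonneg _) (fun n => ht_nonneg _) hlam'
    (Nat.cast_nonneg _) (abs_nonneg _) (fun n => ?_) ⟨(F.lam : ℝ) ^ m, by positivity, m + k,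
      fun n hn => ?_⟩ hα
  · have h1 := hC ho n
    rw [ey, ew, ew] at h1
    exact h1.trans (by
      have := le_abs_self C
      show (F.lam : ℝ) * _ + (F.a : ℝ) * _ + C ≤ _
      linarith)
  · obtain ⟨n', rfl⟩ : ∃ n', n = n' + m := ⟨n - m, by omega⟩
    have h1 := hmain _ (F.iter_mem hx m) (hD m) hm n' (by omega)
    rw [← Function.iterate_add_apply, one_mul] at h1
    rw [pow_add, mul_comm]
    exact mul_le_mul_of_nonneg_left h1 (by positivity)

end Endo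

end Pool.Agent.H913.KS
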