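import Mathlib
import Pool.Graph.R_pool_sql_team_seeded_843ab51a.V11286.AbsHeight

/-!
# Absolute heights of tuples of algebraic numbers and multihomogeneous polynomial maps
-/

set_option autoImplicit false
set_option linter.unusedSectionVars false

namespace Pool.Agent.H913

open Pool.Agent.V11286.AbsHeight Height NumberField Module MvPolynomial

lemma hv_zero {ι : Type*} [Finite ι] : hv (0 : ι → Qb) = 0 := by
  obtain ⟨E, _, x, hx⟩ := exists_lift (0 : ι → Qb)
  have hx0 : x = 0 := by
    funext i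
    apply Subtype.ext
    have := congrFun hx i
    simpa using this.symm
  rw [hx, hv_eq E x, hx0, logHeight_zero, zero_div]

lemma hv_prod {α : Type*} [Fintype α] {ι : α → Type*} [∀ a, Fintype (ι a)]
    {x : (a : α) → ι a → Qb} (hx : ∀ a, x a ≠ 0) :
    hv (fun I : (a : α) → ι a => ∏ a, x a (I a)) = ∑ a, hv (x a) := by
  classical
  obtain ⟨E, _, y, hy⟩ := exists_lift (fun p : (a : α) × ι a => x p.1 p.2)
  have hxy : ∀ a i, x a i = (y ⟨a, i⟩ : Qb) := fun a i => congrFun hy ⟨a, i⟩
  have h1 : (fun I : (a : α) → ι a => ∏ a, x a (I a)) =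
      fun I => ((∏ a, y ⟨a, I a⟩ : E) : Qb) := by
    funext I
    push_cast
    exact Finset.prod_congr rfl fun a _ => hxy a (I a)
  have h2 : ∀ a, hv (x a) = logHeight (fun i => y ⟨a, i⟩) / finrank ℚ E := by
    intro a
    rw [← hv_eq E]
    congr 1
    funext i
    exact hxy a i
  have h3 : ∀ a, (fun i => y ⟨a, i⟩) ≠ 0 := by
    intro a h
    apply hx a
    funext i
    rw [hxy, congrFun h i]
    simp
  rw [h1, hv_eq E]
  have h4 := logHeight_fun_prod_eq (K := E) (x := fun a i => y ⟨a, i⟩) h3
  rw [h4, Finset.sum_div]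
  exact Finset.sum_congr rfl fun a _ => (h2 a).symm

lemma hv_comp_le {ι ι' : Type*} [Finite ι] [Finite ι'] (f : ι → ι') (v : ι' → Qb) :
    hv (fun i => v (f i)) ≤ hv v := by
  obtain ⟨E, _, x, rfl⟩ := exists_lift v
  rw [hv_eq E x, hv_eq E (fun i => x (f i))]
  exact div_le_div_of_nonneg_right (logHeight_comp_le f x) (finrank_pos' E).le

lemma hv_equiv {ι ι' : Type*} [Finite ι] [Finite ι'] (e : ι ≃ ι') (v : ι' → Qb) :
    hv (fun i => v (e i)) = hv v := by
  apply le_antisymm (hv_comp_le e v)
  have := hv_comp_le e.symm (fun i => v (e i))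
  simpa using this

lemma hv_tensor {ι ι' : Type*} [Finite ι] [Finite ι'] {v : ι → Qb} {w : ι' → Qb}
    (hv0 : v ≠ 0) (hw0 : w ≠ 0) :
    hv (fun p : ι × ι' => v p.1 * w p.2) = hv v + hv w := by
  obtain ⟨E, _, y, hy⟩ := exists_lift (fun p : ι ⊕ ι' => Sum.elim v w p)
  have hvy : ∀ i, v i = (y (Sum.inl i) : Qb) := fun i => congrFun hy (Sum.inl i)
  have hwy : ∀ i, w i = (y (Sum.inr i) : Qb) := fun i => congrFun hy (Sum.inr i)
  have h1 : (fun p : ι × ι' => v p.1 * w p.2) =
      fun p => ((y (Sum.inl p.1) * y (Sum.inr p.2) : E) : Qb) := by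
    funext p
    push_cast
    rw [hvy, hwy]
  have h2 : v = fun i => ((fun i => y (Sum.inl i)) i : Qb) := funext hvy
  have h3 : w = fun i => ((fun i => y (Sum.inr i)) i : Qb) := funext hwy
  have h4 : (fun i => y (Sum.inl i)) ≠ 0 := by
    intro h
    apply hv0
    rw [h2, h]
    funext i
    simp
  have h5 : (fun i => y (Sum.inr i)) ≠ 0 := by
    intro h
    apply hw0
    rw [h3, h]
    funext i
    simp
  have e2 : hv v = logHeight (fun i => y (Sum.inl i)) / finrank ℚ E := by
    rw [h2]; exact hv_eq E _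
  have e3 : hv w = logHeight (fun i => y (Sum.inr i)) / finrank ℚ E := by
    rw [h3]; exact hv_eq E _
  rw [h1, hv_eq E (fun p : ι × ι' => y (Sum.inl p.1) * y (Sum.inr p.2)), e2, e3, ← add_div]
  congr 1
  exact logHeight_fun_mul_eq h4 h5

lemma hv_linear {ι ι' : Type*} [Fintype ι] [Finite ι'] [Nonempty ι] (A : ι' × ι → Qb)
    (v : ι → Qb) :
    hv (fun j => ∑ i, A (j, i) * v i) ≤ Real.log (Nat.card ι) + hv A + hv v := by
  obtain ⟨E, _, y, hy⟩ := exists_lift (fun p : (ι' × ι) ⊕ ι => Sum.elim A v p)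
  have hAy : ∀ i, A i = (y (Sum.inl i) : Qb) := fun i => congrFun hy (Sum.inl i)
  have hvy : ∀ i, v i = (y (Sum.inr i) : Qb) := fun i => congrFun hy (Sum.inr i)
  have h1 : (fun j => ∑ i, A (j, i) * v i) =
      fun j => ((∑ i, y (Sum.inl (j, i)) * y (Sum.inr i) : E) : Qb) := by
    funext j
    push_cast
    exact Finset.sum_congr rfl fun i _ => by rw [hAy, hvy]
  have h2 : A = fun i => ((fun i => y (Sum.inl i)) i : Qb) := funext hAy
  have h3 : v = fun i => ((fun i => y (Sum.inr i)) i : Qb) := funext hvy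
  have e2 : hv A = logHeight (fun i => y (Sum.inl i)) / finrank ℚ E := by
    rw [h2]; exact hv_eq E _
  have e3 : hv v = logHeight (fun i => y (Sum.inr i)) / finrank ℚ E := by
    rw [h3]; exact hv_eq E _
  rw [h1, hv_eq E (fun j => ∑ i, y (Sum.inl (j, i)) * y (Sum.inr i)), e2, e3]
  have h4 := logHeight_linearMap_apply_le (K := E) (fun i => y (Sum.inl i))
    (fun i => y (Sum.inr i))
  rw [totalWeight_eq_finrank] at h4
  have hp := finrank_pos' E
  rw [div_le_iff₀ hp, add_mul, add_mul, div_mul_cancel₀ _ hp.ne', div_mul_cancel₀ _ hp.ne']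
  linarith

lemma hv_pow {ι : Type*} [Finite ι] (v : ι → Qb) (n : ℕ) :
    hv (fun i => v i ^ n) = n * hv v := by
  obtain ⟨E, _, x, rfl⟩ := exists_lift v
  have h1 : (fun i => (x i : Qb) ^ n) = fun i => (((x ^ n) i : E) : Qb) := by
    funext i
    simp
  rw [h1, hv_eq E (x ^ n), hv_eq E x, logHeight_pow, mul_div_assoc]

/-! ### Groups of variables -/

section groups

variable {σ Γ : Type} [Fintype σ] [Fintype Γ] [DecidableEq σ] [DecidableEq Γ]

/-- the weight which records the degrees in the groups of variables -/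
def wt (grp : σ → Γ) (x : σ) : Γ → ℕ := Pi.single (grp x) 1

/-- the height of the group `γ` of coordinates of `z` -/
noncomputable def hg (grp : σ → Γ) (γ : Γ) (z : σ → Qb) : ℝ :=
  hv (fun x : {x // grp x = γ} => z x)

/-- the indices of a tensor of multidegree `d` -/
abbrev TIdx (grp : σ → Γ) (d : Γ → ℕ) : Type :=
  (a : (γ : Γ) × Fin (d γ)) → {x // grp x = a.1}

/-- all groups of coordinates of `z` are nonzero -/
def AllNe (grp : σ → Γ) (z : σ → Qb) : Prop := ∀ γ, ∃ x, grp x = γ ∧ z x ≠ 0

lemma hg_nonneg (grp : σ → Γ) (γ : Γ) (z : σ → Qb) : 0 ≤ hg grp γ z := hv_nonneg _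

lemma hv_TIdx (grp : σ → Γ) (d : Γ → ℕ) {z : σ → Qb} (hz : AllNe grp z) :
    hv (fun t : TIdx grp d => ∏ a, z (t a)) = ∑ γ, d γ * hg grp γ z := by
  have h := hv_prod (α := (γ : Γ) × Fin (d γ)) (ι := fun a => {x // grp x = a.1})
    (x := fun a x => z x) (fun a => by
      obtain ⟨x, hx, hzx⟩ := hz a.1
      intro h0
      exact hzx (congrFun h0 ⟨x, hx⟩))
  rw [h, Fintype.sum_sigma]
  apply Finset.sum_congr rfl
  intro γ _
  change (∑ _y : Fin (d γ), hg grp γ z) = _
  rw [Finset.sum_const, Finset.card_univ, Fintype.card_fin, nsmul_eq_mul]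

lemma wt_sum (grp : σ → Γ) (m : σ →₀ ℕ) (γ : Γ) :
    (Finsupp.weight (wt grp) m) γ = ∑ x : {x // grp x = γ}, m x := by
  rw [Finsupp.weight_apply, Finsupp.sum_fintype _ _ (by simp)]
  rw [Finset.sum_apply]
  have h1 : ∀ x : σ, (m x • wt grp x) γ = if grp x = γ then m x else 0 := by
    intro x
    simp only [wt, Pi.smul_apply, smul_eq_mul, Pi.single_apply]
    by_cases h : grp x = γ
    · simp [h]
    · rw [if_neg (fun h' => h h'.symm), if_neg h, mul_zero]
  simp only [h1]
  rw [← Finset.sum_filter]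
  exact (Finset.sum_subtype (Finset.univ.filter fun x => grp x = γ) (by simp) (fun x => m x))

/-- a monomial of multidegree `d` is an entry of the tensor -/
lemma exists_TIdx (grp : σ → Γ) (d : Γ → ℕ) (m : σ →₀ ℕ)
    (hm : Finsupp.weight (wt grp) m = d) :
    ∃ t : TIdx grp d, ∀ z : σ → Qb, ∏ a, z (t a) = m.prod fun x n => z x ^ n := by
  classical
  have h1 : ∀ γ, ∃ t : Fin (d γ) → {x // grp x = γ}, ∀ z : σ → Qb,
      ∏ a, z (t a) = ∏ x : {x // grp x = γ}, z x ^ m x := by
    intro γ
    let s : Multiset {x // grp x = γ} := ∑ x : {x // grp x = γ}, Multiset.replicate (m x) x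
    have hs : Multiset.card s = d γ := by
      rw [show Multiset.card s = ∑ x : {x // grp x = γ}, Multiset.card (Multiset.replicate (m x) x)
        from Multiset.card_sum _ _]
      simp only [Multiset.card_replicate]
      rw [← wt_sum, hm]
    have hl : s.toList.length = d γ := by rw [Multiset.length_toList, hs]
    refine ⟨fun i => s.toList.get (i.cast hl.symm), fun z => ?_⟩
    have h2 : ∏ a : Fin (d γ), z (s.toList.get (a.cast hl.symm)) =
        ∏ a : Fin s.toList.length, z (s.toList.get a) := by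
      apply Fintype.prod_equiv (finCongr hl.symm)
      intro a
      rfl
    rw [h2]
    have h3 : ∏ a : Fin s.toList.length, z (s.toList.get a) =
        (s.map fun x : {x // grp x = γ} => z x).prod := by
      rw [← Multiset.coe_toList s, Multiset.map_coe, Multiset.prod_coe]
      have : (s.toList.map fun x : {x // grp x = γ} => z x) =
          List.ofFn fun a : Fin s.toList.length => z (s.toList.get a) := by
        apply List.ext_get
        · simp
        · intro n h1 h2
          simp
      rw [Multiset.coe_toList] 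
      rw [this, List.prod_ofFn]
    rw [h3]
    have h4 : ∀ (S : Finset {x // grp x = γ}),
        ((∑ x ∈ S, Multiset.replicate (m x) x).map fun x : {x // grp x = γ} => z x).prod =
        ∏ x ∈ S, z x ^ m x := by
      intro S
      induction S using Finset.induction_on with
      | empty => simp
      | insert a S ha ih =>
        rw [Finset.sum_insert ha, Multiset.map_add, Multiset.prod_add, ih, Finset.prod_insert ha]
        simp
    exact h4 Finset.univ
  choose t ht using h1
  refine ⟨fun a => t a.1 a.2, fun z => ?_⟩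
  rw [Fintype.prod_sigma]
  simp only [ht]
  rw [Finsupp.prod_fintype _ _ (by simp)]
  exact (Fintype.prod_fiberwise grp (fun x => z x ^ m x))

end groups

end Pool.Agent.H913
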