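import Pool.Agent.H913.Map

/-!
# Height inequalities for a fibrewise map
-/

set_option autoImplicit false
set_option linter.unusedSectionVars false

namespace Pool.Agent.H913

open Pool.Agent.V11286.AbsHeight Height NumberField Module MvPolynomial

variable {κ ι : Type} [Fintype κ] [Fintype ι] [DecidableEq κ] [DecidableEq ι]

/-- (D): the Plücker height is at most the sum of the heights -/
lemma hv_Pl_le : ∃ C : ℝ, ∀ w w' : ι → Qb, Pl w w' ≠ 0 → hv (Pl w w') ≤ hv w + hv w' + C := by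
  obtain ⟨C, hC⟩ := UB (g1 (κ := ι) (ι := ι)) (fun p : ι × ι =>
    (X (Sum.inl p.1) * X (Sum.inr p.2) - X (Sum.inl p.2) * X (Sum.inr p.1) :
      MvPolynomial (ι ⊕ ι) Qb)) ![1, 1] (by
    rintro ⟨k, l⟩
    exact (((WH1_y k).mul (WH1_w l)).cast rfl rfl).sub (((WH1_y l).mul (WH1_w k)).cast rfl rfl))
  refine ⟨C, fun w w' h => ?_⟩
  have hw : w ≠ 0 := by
    rintro rfl
    apply h
    funext p
    simp [Pl]
  have hw' : w' ≠ 0 := by
    rintro rfl
    apply h
    funext p
    simp [Pl]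
  have h1 := hC (zz1 w w') (allNe1 hw hw')
  rw [Fin.sum_univ_two, hg1_0, hg1_1] at h1
  have h2 : (fun p : ι × ι => eval (zz1 w w')
      (X (Sum.inl p.1) * X (Sum.inr p.2) - X (Sum.inl p.2) * X (Sum.inr p.1) :
      MvPolynomial (ι ⊕ ι) Qb)) = Pl w w' := by
    funext p
    simp [zz1, Pl]
  rw [h2] at h1
  simpa using h1

/-- linear forms which detect products -/
lemma exists_forms (n : ℕ) : ∃ (M : ℕ) (s : Fin M → ι → Qb), ∀ w : Fin n → ι → Qb,
    (∀ i, w i ≠ 0) → ∃ m, ∏ i, ∑ l, s m l * w i l ≠ 0 := by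
  classical
  let e : ι ≃ Fin (Fintype.card ι) := Fintype.equivFin ι
  refine ⟨n * Fintype.card ι + 1, fun m l => (m : Qb) ^ (e l : ℕ), fun w hw => ?_⟩
  by_contra hcon
  push Not at hcon
  let q : Fin n → Polynomial Qb := fun i => ∑ l, Polynomial.C (w i l) * Polynomial.X ^ (e l : ℕ)
  have hq0 : ∀ i, q i ≠ 0 := by
    intro i hi
    apply hw i
    funext l
    have h1 := congrArg (fun p => Polynomial.coeff p (e l : ℕ)) hi
    simp only [q, Polynomial.finsetSum_coeff, Polynomial.coeff_C_mul, Polynomial.coeff_X_pow,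
      Polynomial.coeff_zero] at h1
    rw [Finset.sum_eq_single l] at h1
    · simpa using h1
    · intro l' _ hl'
      rw [if_neg, mul_zero]
      intro h
      exact hl' (e.injective (Fin.ext h.symm))
    · simp
  have hQ0 : ∏ i, q i ≠ 0 := Finset.prod_ne_zero_iff.mpr fun i _ => hq0 i
  have hqdeg : ∀ i, (q i).natDegree ≤ Fintype.card ι := by
    intro i
    apply Polynomial.natDegree_sum_le_of_forall_le
    intro l _
    exact le_trans (Polynomial.natDegree_C_mul_X_pow_le _ _) (e l).2.le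
  have hQdeg : (∏ i, q i).natDegree ≤ n * Fintype.card ι := by
    refine le_trans (Polynomial.natDegree_prod_le _ _) ?_
    refine le_trans (Finset.sum_le_sum fun i _ => hqdeg i) ?_
    simp
  apply hQ0
  apply Polynomial.eq_zero_of_natDegree_lt_card_of_eval_eq_zero (∏ i, q i)
    (f := fun m : Fin (n * Fintype.card ι + 1) => ((m : ℕ) : Qb))
  · intro a b hab
    simp only at hab
    exact Fin.ext (by exact_mod_cast hab)
  · intro m
    have h1 := hcon m
    rw [Polynomial.eval_prod, ← h1]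
    apply Finset.prod_congr rfl
    intro i _
    simp only [q, Polynomial.eval_finsetSum, Polynomial.eval_mul, Polynomial.eval_C,
      Polynomial.eval_pow, Polynomial.eval_X]
    apply Finset.sum_congr rfl
    intro l _
    ring
  · rw [Fintype.card_fin]
    omega

/-- (Gelfond) -/
lemma gelfond (n : ℕ) : ∃ (M : ℕ) (s : Fin M → ι → Qb) (C : ℝ), ∀ w : Fin n → ι → Qb,
    (∀ i, w i ≠ 0) → (fun m => ∏ i, ∑ l, s m l * w i l) ≠ 0 ∧
    ∑ i, hv (w i) ≤ hv (fun m => ∏ i, ∑ l, s m l * w i l) + C := by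
  obtain ⟨M, s, hs⟩ := exists_forms (ι := ι) n
  have hgrp : ∀ i l, IsWeightedHomogeneous (wt (fun p : Fin n × ι => p.1))
      (X (i, l) : MvPolynomial (Fin n × ι) Qb) (Pi.single i 1) := fun i l => by
    have := isWeightedHomogeneous_X Qb (wt (fun p : Fin n × ι => p.1)) (i, l)
    exact this
  obtain ⟨C, hC⟩ := LB (fun p : Fin n × ι => p.1) ∅ (by simp)
    (fun m : Fin M => ∏ i : Fin n, ∑ l, C (s m l) * X (i, l)) (∑ i : Fin n, Pi.single i 1) (by
      intro m
      apply IsWeightedHomogeneous.prod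
      intro i _
      apply IsWeightedHomogeneous.sum
      intro l _
      exact (hgrp i l).C_mul _) (by
      intro z hz _
      obtain ⟨m, hm⟩ := hs (fun i l => z (i, l)) (fun i => by
        obtain ⟨⟨i', l⟩, hi, hzi⟩ := hz i
        intro h0
        apply hzi
        have := congrFun h0 l
        simp only at hi
        subst hi
        exact this)
      refine ⟨m, ?_⟩
      simpa [map_prod, map_sum] using hm)
  refine ⟨M, s, C, fun w hw => ?_⟩
  constructor
  · obtain ⟨m, hm⟩ := hs w hw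
    intro h
    exact hm (congrFun h m)
  have hall : AllNe (fun p : Fin n × ι => p.1) (fun p => w p.1 p.2) := by
    intro i
    obtain ⟨l, hl⟩ := Function.ne_iff.mp (hw i)
    exact ⟨(i, l), rfl, hl⟩
  have h1 := hC (fun p => w p.1 p.2) hall (by simp)
  have h2 : ∀ i, hg (fun p : Fin n × ι => p.1) i (fun p => w p.1 p.2) = hv (w i) := by
    intro i
    rw [hg_eq (ι := ι) (fun l => (i, l)) (fun l => rfl) (fun l l' h => (Prod.mk.inj h).2)]
    rintro ⟨i', l⟩ h
    simp only at h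
    subst h
    exact ⟨l, rfl⟩
  have h3 : ∀ i, (∑ i : Fin n, Pi.single i 1 : Fin n → ℕ) i = 1 := by
    intro i
    simp [Finset.sum_apply, Pi.single_apply]
  have h4 : (fun m : Fin M => eval (fun p : Fin n × ι => w p.1 p.2)
      (∏ i : Fin n, ∑ l, MvPolynomial.C (s m l) * X (i, l))) =
      fun m => ∏ i, ∑ l, s m l * w i l := by
    funext m
    simp [map_prod, map_sum]
  rw [h4] at h1
  simp only [h2, h3] at h1
  simpa using h1

namespace FMap

variable {X : Bdl κ ι} (F : FMap X)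

/-- all coordinates of all charts -/
noncomputable def Gvec (y : κ → Qb) (w : ι → Qb) : F.Jx × ι → Qb :=
  fun q => eval (zz1 y w) (F.G q.1 q.2)

/-- (A) -/
lemma bound_G : ∃ C : ℝ, ∀ y ∈ X.Y, ∀ w ∈ X.E y, w ≠ 0 →
    |hv (F.Gvec y w) - (F.a * hv y + F.lam * hv w)| ≤ C := by
  obtain ⟨C1, hC1⟩ := UB g1 (fun q : F.Jx × ι => F.G q.1 q.2) ![F.a, F.lam] (fun q => F.hG q.1 q.2)
  obtain ⟨C2, hC2⟩ := LB g1 X.SX X.SX_hom (fun q : F.Jx × ι => F.G q.1 q.2) ![F.a, F.lam]
    (fun q => F.hG q.1 q.2) (by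
      intro z hz hzS
      obtain ⟨k, hk, hzk⟩ := hz 0
      obtain ⟨l, hl, hzl⟩ := hz 1
      obtain ⟨y, w, rfl⟩ : ∃ y w, z = zz1 y w := ⟨fun k => z (Sum.inl k), fun l => z (Sum.inr l), by
        funext x
        rcases x with x | x <;> rfl⟩
      have hy0 : y ≠ 0 := by
        rcases k with k | k
        · intro h
          exact hzk (congrFun h k)
        · simp [g1] at hk
      have hw0 : w ≠ 0 := by
        rcases l with l | l
        · simp [g1] at hl
        · intro h
          exact hzl (congrFun h l)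
      obtain ⟨hy, hw⟩ := (X.mem_SX hy0).mp hzS
      obtain ⟨j, hj⟩ := F.good y hy
      obtain ⟨i, hi⟩ := Function.ne_iff.mp (hj w hw hw0)
      exact ⟨(j, i), hi⟩)
  refine ⟨max C1 C2, fun y hy w hw hw0 => ?_⟩
  have h1 := hC1 (zz1 y w) (allNe1 hy.1 hw0)
  have h2 := hC2 (zz1 y w) (allNe1 hy.1 hw0) ((X.mem_SX hy.1).mpr ⟨hy, hw⟩)
  rw [Fin.sum_univ_two, hg1_0, hg1_1] at h1 h2
  simp only [Matrix.cons_val_zero, Matrix.cons_val_one] at h1 h2
  have e : F.Gvec y w = fun q : F.Jx × ι => eval (zz1 y w) (F.G q.1 q.2) := rfl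
  rw [abs_le, e]
  constructor
  · have := le_max_right C1 C2
    linarith
  · have := le_max_left C1 C2
    linarith

/-- the image of the point with coordinates `z` -/
noncomputable def img (α' β' : ι → Qb) (A B : S2) (z : Fin 2 → Qb) : ι → Qb :=
  pt α' β' ![eval z A, eval z B]

variable {F}

lemma Fib.Gvec_eq {y : κ → Qb} {α β α' β' : ι → Qb} {τ : F.Jx → Qb} {A B : S2}
    (h : F.Fib y α β α' β' τ A B) (z : Fin 2 → Qb) :
    F.Gvec y (pt α β z) = fun q => τ q.1 * img α' β' A B z q.2 := by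
  funext q
  rw [Gvec, ← F.rho_G_eval, h.val]
  simp only [img, pt, map_mul, map_add, eval_C, Matrix.cons_val_zero, Matrix.cons_val_one]
  ring

lemma Fib.img_ne {y : κ → Qb} {α β α' β' : ι → Qb} {τ : F.Jx → Qb} {A B : S2}
    (h : F.Fib y α β α' β' τ A B) {z : Fin 2 → Qb} (hz : z ≠ 0) : img α' β' A B z ≠ 0 := by
  rw [img, Bdl.pt_ne h.bas'.1]
  intro h0
  apply h.noz z hz
  constructor
  · have := congrFun h0 0
    simpa using this
  · have := congrFun h0 1
    simpa using this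

variable (F)

/-- (A') -/
lemma bound_img : ∃ C : ℝ, ∀ {y : κ → Qb} {α β α' β' : ι → Qb} {τ : F.Jx → Qb} {A B : S2},
    F.Fib y α β α' β' τ A B → ∀ z : Fin 2 → Qb, z ≠ 0 →
    |hv τ + hv (img α' β' A B z) - (F.a * hv y + F.lam * hv (pt α β z))| ≤ C := by
  obtain ⟨C, hC⟩ := F.bound_G
  refine ⟨C, fun {y α β α' β' τ A B} h z hz => ?_⟩
  have h1 := hC y h.hy (pt α β z) (X.bas_mem h.bas z) ((Bdl.pt_ne h.bas.1).mpr hz)
  rw [h.Gvec_eq, hv_tensor h.tau (h.img_ne hz)] at h1
  exact h1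

end FMap

end Pool.Agent.H913
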