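import Pool.Agent.H913.Hts

/-!
# The height inequalities (C), (E), the growth of the relative height
-/

set_option autoImplicit false
set_option linter.unusedSectionVars false

namespace Pool.Agent.H913

open Pool.Agent.V11286.AbsHeight Height NumberField Module MvPolynomial

variable {κ ι : Type} [Fintype κ] [Fintype ι] [DecidableEq κ] [DecidableEq ι]

/-- the form `A B(z₀) - B A(z₀)` is not zero -/
lemma P_ne {A B : S2} {n : ℕ} (hA : A.IsHomogeneous (n + 1)) (hB : B.IsHomogeneous (n + 1))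
    (hAB : NoZ A B) {z₀ : Fin 2 → Qb} (hz₀ : z₀ ≠ 0) :
    (C (eval z₀ B) * A - C (eval z₀ A) * B : S2) ≠ 0 := by
  intro h
  have h1 : ∀ z, eval z₀ B * eval z A = eval z₀ A * eval z B := by
    intro z
    have := congrArg (eval z) h
    simp only [map_sub, map_mul, eval_C, map_zero] at this
    exact sub_eq_zero.mp this
  by_cases hB0 : eval z₀ B = 0
  · have hA0 : eval z₀ A ≠ 0 := fun h => hAB z₀ hz₀ ⟨h, hB0⟩
    obtain ⟨z, hz, hz2⟩ := exists_zero hA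
    have h2 := h1 z
    rw [hz2, mul_zero] at h2
    exact hAB z hz ⟨hz2, (mul_eq_zero.mp h2.symm).resolve_left hA0⟩
  · obtain ⟨z, hz, hz2⟩ := exists_zero hB
    have h2 := h1 z
    rw [hz2, mul_zero] at h2
    exact hAB z hz ⟨(mul_eq_zero.mp h2).resolve_left hB0, hz2⟩

namespace FMap

variable {X : Bdl κ ι} (F : FMap X)

lemma hv_img_eq {α' β' : ι → Qb} {A B : S2} (hAB : NoZ A B) {z z₀ : Fin 2 → Qb}
    (hz : z ≠ 0) (hz₀ : z₀ ≠ 0) (h : eval z A * eval z₀ B - eval z B * eval z₀ A = 0) :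
    hv (img α' β' A B z) = hv (img α' β' A B z₀) := by
  have h1 : eval z A * eval z₀ B = eval z B * eval z₀ A := sub_eq_zero.mp h
  obtain ⟨c, hc, hc1, hc2⟩ : ∃ c : Qb, c ≠ 0 ∧ eval z A = c * eval z₀ A ∧
      eval z B = c * eval z₀ B := by
    by_cases hB0 : eval z₀ B = 0
    · have hA0 : eval z₀ A ≠ 0 := fun h => hAB z₀ hz₀ ⟨h, hB0⟩
      have hBz : eval z B = 0 := by
        rw [hB0, mul_zero] at h1
        exact (mul_eq_zero.mp h1.symm).resolve_right hA0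
      have hAz : eval z A ≠ 0 := fun h => hAB z hz ⟨h, hBz⟩
      refine ⟨eval z A / eval z₀ A, div_ne_zero hAz hA0, ?_, ?_⟩
      · field_simp
      · rw [hBz, hB0, mul_zero]
    · have hBz : eval z B ≠ 0 := by
        intro h2
        rw [h2, zero_mul] at h1
        exact hAB z hz ⟨(mul_eq_zero.mp h1).resolve_right hB0, h2⟩
      refine ⟨eval z B / eval z₀ B, div_ne_zero hBz hB0, ?_, ?_⟩
      · field_simp
        linear_combination h1
      · field_simp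
  have h2 : img α' β' A B z = fun i => c * img α' β' A B z₀ i := by
    funext i
    simp only [img, pt, Matrix.cons_val_zero, Matrix.cons_val_one]
    rw [hc1, hc2]
    ring
  rw [h2, Bdl.hv_smul' hc]

lemma Us_Pl (s : ι → Qb) (α β : ι → Qb) :
    Us s (Pl α β) = pt α β ![-(∑ k, s k * β k), ∑ k, s k * α k] := by
  funext l
  simp only [Us, Pl, pt, Matrix.cons_val_zero, Matrix.cons_val_one]
  rw [neg_mul, Finset.sum_mul, Finset.sum_mul, ← Finset.sum_neg_distrib, ← Finset.sum_add_distrib]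
  apply Finset.sum_congr rfl
  intro k _
  ring

/-- (C) -/
lemma bound_disc {l : ℕ} (hl : F.lam = l + 1) : ∃ C : ℝ, ∀ {y : κ → Qb} {α β α' β' : ι → Qb}
    {τ : F.Jx → Qb} {A B : S2}, F.Fib y α β α' β' τ A B →
    hv (Pl α' β') + 2 * hv τ ≤ 2 * F.a * hv y + F.lam * hv (Pl α β) + C := by
  obtain ⟨M, s, Cg, hCg⟩ := gelfond (ι := ι) F.lam
  obtain ⟨Ci, hCi⟩ := F.bound_img
  obtain ⟨Cu, hCu⟩ := UB (g2 (κ := κ) (ι := ι))
    (fun q : (F.Jx × F.Jx) × ((ι × ι) × Fin M) =>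
      embU (s q.2.2) (F.G q.1.1 q.2.1.1) * emb (F.G q.1.2 q.2.1.2) -
      embU (s q.2.2) (F.G q.1.1 q.2.1.2) * emb (F.G q.1.2 q.2.1.1))
    ![2 * F.a, F.lam, F.lam] (by
      intro q
      exact (((WH2_embU _ (F.hG _ _)).mul (WH2_emb (F.hG _ _))).cast (by ring) (by ring)
        (by ring)).sub (((WH2_embU _ (F.hG _ _)).mul (WH2_emb (F.hG _ _))).cast (by ring) (by ring)
        (by ring)))
  refine ⟨2 * Ci + Cg + Cu, fun {y α β α' β' τ A B} h => ?_⟩
  have hA := h.hA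
  have hB := h.hB
  rw [hl] at hA hB
  set z₀ : Fin 2 → Qb := ![1, 0] with hz₀def
  have hz₀ : z₀ ≠ 0 := by
    intro h
    have := congrFun h 0
    simp [hz₀def] at this
  set P : S2 := C (eval z₀ B) * A - C (eval z₀ A) * B with hP
  have hPne : P ≠ 0 := P_ne hA hB h.noz hz₀
  have hPhom : P.IsHomogeneous F.lam := by
    have hC : ∀ (c : Qb) (Q : S2), Q.IsHomogeneous F.lam → (C c * Q).IsHomogeneous F.lam := by
      intro c Q hQ
      have := (isHomogeneous_C (Fin 2) c).mul hQ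
      simpa using this
    exact (hC _ _ h.hA).sub (hC _ _ h.hB)
  obtain ⟨v, c, hc, hv0, hev⟩ := factor hPhom hPne
  have hpv : ∀ i, pt α β (v i) ≠ 0 := fun i => (Bdl.pt_ne h.bas.1).mpr (hv0 i)
  obtain ⟨hq0, hq⟩ := hCg (fun i => pt α β (v i)) hpv
  set q : Fin M → Qb := fun m => ∏ i, ∑ l, s m l * pt α β (v i) l with hqdef
  -- heights of the roots
  have hroot : ∀ i, F.lam * hv (pt α β z₀) - 2 * Ci ≤ F.lam * hv (pt α β (v i)) := by
    intro i
    have h1 : eval (v i) P = 0 := by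
      rw [hev, Finset.prod_eq_zero (Finset.mem_univ i), mul_zero]
      simp only [br]
      ring
    have h2 : eval (v i) A * eval z₀ B - eval (v i) B * eval z₀ A = 0 := by
      rw [hP] at h1
      simp only [map_sub, map_mul, eval_C] at h1
      linear_combination h1
    have h3 := hv_img_eq (α' := α') (β' := β') h.noz (hv0 i) hz₀ h2
    have h4 := abs_le.mp (hCi h (v i) (hv0 i))
    have h5 := abs_le.mp (hCi h z₀ hz₀)
    rw [h3] at h4
    linarith [h4.1, h4.2, h5.1, h5.2]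
  have hlam : (0 : ℝ) < F.lam := by
    rw [hl]
    positivity
  have hsum : F.lam * hv (pt α β z₀) - 2 * Ci ≤ ∑ i, hv (pt α β (v i)) := by
    have h1 : ∑ i : Fin F.lam, (F.lam * hv (pt α β z₀) - 2 * Ci) ≤
        ∑ i, F.lam * hv (pt α β (v i)) := Finset.sum_le_sum fun i _ => hroot i
    rw [Finset.sum_const, Finset.card_univ, Fintype.card_fin, nsmul_eq_mul, ← Finset.mul_sum] at h1
    exact le_of_mul_le_mul_left h1 hlam
  -- the vector
  have hu := hCu (zz2 y (Pl α β) (pt α β z₀)) (allNe2 h.hy.1 h.bas.1 ((Bdl.pt_ne h.bas.1).mpr hz₀))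
  rw [Fin.sum_univ_three, hg2_0, hg2_1, hg2_2] at hu
  have hG : ∀ (j : F.Jx) (i : ι) (z : Fin 2 → Qb), eval (zz1 y (pt α β z)) (F.G j i) =
      τ j * (α' i * eval z A + β' i * eval z B) := by
    intro j i z
    rw [← F.rho_G_eval, h.val]
    simp only [map_mul, map_add, eval_C]
  have e1 : (fun q : (F.Jx × F.Jx) × ((ι × ι) × Fin M) => eval (zz2 y (Pl α β) (pt α β z₀))
      (embU (s q.2.2) (F.G q.1.1 q.2.1.1) * emb (F.G q.1.2 q.2.1.2) -
      embU (s q.2.2) (F.G q.1.1 q.2.1.2) * emb (F.G q.1.2 q.2.1.1))) =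
      fun x => (c * (-1) ^ F.lam) * ((τ x.1.1 * τ x.1.2) * (Pl α' β' x.2.1 * q x.2.2)) := by
    funext x
    rw [map_sub, map_mul, map_mul, embU_eval, embU_eval, emb_eval, emb_eval, Us_Pl, hG, hG, hG, hG]
    set zs : Fin 2 → Qb := ![-(∑ k, s x.2.2 k * β k), ∑ k, s x.2.2 k * α k] with hzs
    have h1 : eval zs A * eval z₀ B - eval zs B * eval z₀ A = c * ∏ i, br zs (v i) := by
      rw [← hev, hP]
      simp only [map_sub, map_mul, eval_C]
      ring
    have h2 : ∏ i, br zs (v i) = (-1) ^ F.lam * q x.2.2 := by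
      have h3 : ∀ i, br zs (v i) = -1 * ∑ l, s x.2.2 l * pt α β (v i) l := by
        intro i
        simp only [br, hzs, pt, Matrix.cons_val_zero, Matrix.cons_val_one]
        rw [neg_mul, Finset.sum_mul, Finset.sum_mul, Finset.mul_sum, ← Finset.sum_neg_distrib,
          ← Finset.sum_sub_distrib]
        apply Finset.sum_congr rfl
        intro l _
        ring
      simp_rw [h3]
      rw [Finset.prod_mul_distrib, Finset.prod_const, Finset.card_univ, Fintype.card_fin]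
    rw [h2] at h1
    simp only [Pl]
    linear_combination (τ x.1.1 * τ x.1.2 * (α' x.2.1.1 * β' x.2.1.2 - α' x.2.1.2 * β' x.2.1.1)) * h1
  have hcne : c * (-1) ^ F.lam ≠ 0 := mul_ne_zero hc (pow_ne_zero _ (by norm_num))
  have hττ : (fun x : F.Jx × F.Jx => τ x.1 * τ x.2) ≠ 0 := by
    obtain ⟨j, hj⟩ := Function.ne_iff.mp h.tau
    intro h0
    have := congrFun h0 (j, j)
    simp only [Pi.zero_apply, mul_eq_zero, or_self] at this
    exact hj this
  have hPq : (fun x : (ι × ι) × Fin M => Pl α' β' x.1 * q x.2) ≠ 0 := by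
    obtain ⟨p, hp⟩ := Function.ne_iff.mp h.bas'.1
    obtain ⟨m, hm⟩ := Function.ne_iff.mp hq0
    intro h0
    have := congrFun h0 (p, m)
    exact mul_ne_zero hp hm this
  have e2 : hv (fun x : (F.Jx × F.Jx) × ((ι × ι) × Fin M) =>
      (c * (-1) ^ F.lam) * ((τ x.1.1 * τ x.1.2) * (Pl α' β' x.2.1 * q x.2.2))) =
      2 * hv τ + (hv (Pl α' β') + hv q) := by
    rw [Bdl.hv_smul' hcne]
    rw [hv_tensor (v := fun x : F.Jx × F.Jx => τ x.1 * τ x.2)
      (w := fun x : (ι × ι) × Fin M => Pl α' β' x.1 * q x.2) hττ hPq,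
      hv_tensor h.tau h.tau, hv_tensor h.bas'.1 hq0]
    ring
  rw [e1, e2] at hu
  simp only [Matrix.cons_val_zero, Matrix.cons_val_one, Matrix.cons_val] at hu
  push_cast at hu
  have hfin : ∑ i, hv (pt α β (v i)) ≤ hv q + Cg := hq
  linarith

/-- growth of the relative height -/
lemma growth {l : ℕ} (hl : F.lam = l + 1) : ∃ C : ℝ, ∀ {y : κ → Qb} {α β α' β' : ι → Qb}
    {τ : F.Jx → Qb} {A B : S2}, F.Fib y α β α' β' τ A B → ∀ z : Fin 2 → Qb, z ≠ 0 →
    F.lam * (2 * hv (pt α β z) - hv (Pl α β)) - C ≤ 2 * hv (img α' β' A B z) - hv (Pl α' β') := by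
  obtain ⟨C1, h1⟩ := F.bound_disc hl
  obtain ⟨C2, h2⟩ := F.bound_img
  refine ⟨C1 + 2 * C2, fun {y α β α' β' τ A B} h z hz => ?_⟩
  have e1 := h1 h
  have e2 := (abs_le.mp (h2 h z hz)).1
  linarith

/-- (D) -/
lemma T_lower {l : ℕ} (hl : F.lam = l + 1) : ∃ C : ℝ, ∀ {y : κ → Qb} {α β α' β' : ι → Qb}
    {τ : F.Jx → Qb} {A B : S2}, F.Fib y α β α' β' τ A B → ∀ z : Fin 2 → Qb, z ≠ 0 →
    ¬ Alone A B z → hv (Pl α β) ≤ 2 * hv (pt α β z) + C := by
  obtain ⟨C1, h1⟩ := hv_Pl_le (ι := ι)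
  obtain ⟨C2, h2⟩ := F.bound_img
  refine ⟨C1 + |2 * C2|, fun {y α β α' β' τ A B} h z hz hal => ?_⟩
  rw [Alone] at hal
  push Not at hal
  obtain ⟨w, hw, hbr⟩ := hal
  have hw0 : w ≠ 0 := by
    rintro rfl
    apply hbr
    simp [br]
  have e0 := hv_img_eq (α' := α') (β' := β') h.noz hw0 hz hw
  have e1 := abs_le.mp (h2 h z hz)
  have e2 := abs_le.mp (h2 h w hw0)
  rw [e0] at e2
  have hPlne : Pl (pt α β w) (pt α β z) ≠ 0 := by
    rw [Bdl.Pl_pt]
    obtain ⟨p, hp⟩ := Function.ne_iff.mp h.bas.1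
    intro h0
    exact mul_ne_zero hbr hp (congrFun h0 p)
  have e3 := h1 _ _ hPlne
  rw [Bdl.Pl_pt, Bdl.hv_smul' hbr] at e3
  have hlam : (1 : ℝ) ≤ F.lam := by
    rw [hl]
    push_cast
    have : (0 : ℝ) ≤ l := Nat.cast_nonneg l
    linarith
  have e4 : F.lam * hv (pt α β w) ≤ F.lam * hv (pt α β z) + 2 * C2 := by linarith [e1.2, e2.1]
  have e5 : hv (pt α β w) ≤ hv (pt α β z) + |2 * C2| := by
    by_contra hcon
    push Not at hcon
    have e6 : F.lam * (hv (pt α β z) + |2 * C2|) < F.lam * hv (pt α β w) :=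
      mul_lt_mul_of_pos_left hcon (by linarith)
    have e7 : |2 * C2| ≤ F.lam * |2 * C2| := by
      nlinarith [abs_nonneg (2 * C2)]
    have e8 := le_abs_self (2 * C2)
    linarith
  linarith

/-- the absolute covariant: a vector with two entries -/
noncomputable def cv (l : ℕ) (A B : S2) (z : Fin 2 → Qb) : Bool → Qb := fun b =>
  if b then (eval z (Jac (Jac A B) (Hes (Jac A B))) /
    (((2 * (l + 1) + 1 : ℕ) : Qb) * ((l + 3 : ℕ) : Qb) ^ 3)) ^ 2
  else (eval z (Hes (Jac A B)) / (((2 * (l + 1) + 1 : ℕ) : Qb) * ((l + 3 : ℕ) : Qb) ^ 2)) ^ 3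

/-- the polynomials whose ratio is the absolute covariant -/
noncomputable def CVp (l : ℕ) (k : ι) (P Q : MvPolynomial (κ ⊕ ι) Qb) (b : Bool) :
    MvPolynomial (κ ⊕ ((ι × ι) ⊕ ι)) Qb :=
  if b then TT (l + 1) k P Q ^ 2 else HH (l + 1) k P Q ^ 3

lemma WH2_CVp {P Q : MvPolynomial (κ ⊕ ι) Qb} {a l : ℕ} (hP : WH1 P a (l + 3))
    (hQ : WH1 Q a (l + 3)) (k : ι) (b : Bool) :
    WH2 (CVp l k P Q b) (12 * a) 12 (12 * l + 24) := by
  rw [CVp]
  split_ifs
  · exact ((WH2_TT hP hQ _ k).pow 2).cast (by ring) (by ring) (by ring)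
  · exact ((WH2_HH hP hQ _ k).pow 3).cast (by ring) (by ring) (by ring)

variable {F}

/-- the values of the covariant polynomials on a fibre -/
lemma Fib.cov_eval {l : ℕ} (hl : F.lam = l + 3) {y : κ → Qb} {α β α' β' : ι → Qb} {τ : F.Jx → Qb}
    {A B : S2} (h : F.Fib y α β α' β' τ A B) (j : F.Jx) (a b : ι) (k : ι) (z : Fin 2 → Qb)
    (c : Bool) :
    eval (zz2 y (Pl α β) (pt α β z)) (CVp l k (F.G j a) (F.G j b) c) =
      (τ j ^ 2 * Pl α' β' (a, b)) ^ 6 * (pt α β z k) ^ 12 * cv l A B z c := by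
  obtain ⟨-, e2, e3⟩ := rho_cov (n := l + 1) (lam := l + 3) rfl (hl ▸ h.hA) (hl ▸ h.hB)
    (h.val j a) (h.val j b) k
  have hm0 : (((2 * (l + 1) + 1 : ℕ) : Qb) * ((l + 3 : ℕ) : Qb) ^ 2) ≠ 0 := by
    refine mul_ne_zero (by exact_mod_cast (by omega : 2 * (l + 1) + 1 ≠ 0)) (pow_ne_zero _ ?_)
    exact_mod_cast (by omega : l + 3 ≠ 0)
  have hm1 : (((2 * (l + 1) + 1 : ℕ) : Qb) * ((l + 3 : ℕ) : Qb) ^ 3) ≠ 0 := by
    refine mul_ne_zero (by exact_mod_cast (by omega : 2 * (l + 1) + 1 ≠ 0)) (pow_ne_zero _ ?_)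
    exact_mod_cast (by omega : l + 3 ≠ 0)
  have hPl : τ j ^ 2 * Pl α' β' (a, b) = τ j ^ 2 * (α' a * β' b - α' b * β' a) := rfl
  rw [hPl]
  generalize τ j ^ 2 * (α' a * β' b - α' b * β' a) = c0 at e2 e3 ⊢
  have e2' := congrArg (eval z) e2
  have e3' := congrArg (eval z) e3
  rw [map_mul, rho_eval, eval_C] at e2' e3'
  have hW : eval z (W2 (α k) (β k)) = pt α β z k := by
    simp only [W2, pt, map_add, map_mul, eval_C, eval_X]
    ring
  rw [map_mul, map_mul, map_pow, map_pow, hW, eval_C] at e2'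
  rw [map_neg, map_mul, map_mul, map_pow, map_pow, hW, eval_C] at e3'
  have e2'' := eq_div_of_mul_eq hm0 ((mul_comm _ _).trans e2')
  have e3'' := eq_div_of_mul_eq hm1 ((mul_comm _ _).trans e3')
  rw [CVp, cv]
  cases c
  · simp only [Bool.false_eq_true, if_false]
    rw [map_pow, e2'']
    ring
  · simp only [if_true]
    rw [map_pow, e3'']
    ring

variable (F)

/-- (E) and (M): the height of the absolute covariant -/
lemma bound_cv {l : ℕ} (hl : F.lam = l + 3) : ∃ C : ℝ, ∀ {y : κ → Qb} {α β α' β' : ι → Qb}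
    {τ : F.Jx → Qb} {A B : S2}, F.Fib y α β α' β' τ A B → ∀ z : Fin 2 → Qb, z ≠ 0 →
    ¬ Alone A B z → cv l A B z ≠ 0 →
    hv (cv l A B z) ≤ 6 * (2 * hv (img α' β' A B z) - hv (Pl α' β')) + C := by
  obtain ⟨C1, hC1⟩ := F.T_lower (l := l + 2) (by rw [hl])
  obtain ⟨C2, hC2⟩ := F.bound_img
  obtain ⟨C3, hC3⟩ := UB (g2 (κ := κ) (ι := ι))
    (fun q : ((F.Jx × (ι × ι)) × ι) × Bool => CVp l q.1.2 (F.G q.1.1.1 q.1.1.2.1)
      (F.G q.1.1.1 q.1.1.2.2) q.2) ![12 * F.a, 12, 12 * l + 24] (by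
      intro q
      exact WH2_CVp (hl ▸ F.hG _ _) (hl ▸ F.hG _ _) _ _)
  refine ⟨12 * C1 + 12 * C2 + C3, fun {y α β α' β' τ A B} h z hz hal hcv => ?_⟩
  have e1 := hC1 h z hz hal
  have e2 := (abs_le.mp (hC2 h z hz)).1
  have hpt : pt α β z ≠ 0 := (Bdl.pt_ne h.bas.1).mpr hz
  have e3 := hC3 (zz2 y (Pl α β) (pt α β z)) (allNe2 h.hy.1 h.bas.1 hpt)
  rw [Fin.sum_univ_three, hg2_0, hg2_1, hg2_2] at e3
  have e4 : (fun q : ((F.Jx × (ι × ι)) × ι) × Bool => eval (zz2 y (Pl α β) (pt α β z))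
      (CVp l q.1.2 (F.G q.1.1.1 q.1.1.2.1) (F.G q.1.1.1 q.1.1.2.2) q.2)) =
      fun q => ((((τ q.1.1.1 ^ 12) * (Pl α' β' q.1.1.2 ^ 6)) * (pt α β z q.1.2 ^ 12)) *
        cv l A B z q.2) := by
    funext q
    rw [h.cov_eval hl]
    ring
  rw [e4] at e3
  have n1 : (fun j => τ j ^ 12) ≠ 0 := by
    obtain ⟨j, hj⟩ := Function.ne_iff.mp h.tau
    intro h0
    exact pow_ne_zero 12 hj (congrFun h0 j)
  have n2 : (fun p => Pl α' β' p ^ 6) ≠ 0 := by
    obtain ⟨j, hj⟩ := Function.ne_iff.mp h.bas'.1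
    intro h0
    exact pow_ne_zero 6 hj (congrFun h0 j)
  have n3 : (fun k => pt α β z k ^ 12) ≠ 0 := by
    obtain ⟨j, hj⟩ := Function.ne_iff.mp hpt
    intro h0
    exact pow_ne_zero 12 hj (congrFun h0 j)
  have n12 : (fun q : F.Jx × (ι × ι) => τ q.1 ^ 12 * Pl α' β' q.2 ^ 6) ≠ 0 := by
    obtain ⟨j, hj⟩ := Function.ne_iff.mp n1
    obtain ⟨p, hp⟩ := Function.ne_iff.mp n2
    intro h0
    exact mul_ne_zero hj hp (congrFun h0 (j, p))
  have n123 : (fun q : (F.Jx × (ι × ι)) × ι => (τ q.1.1 ^ 12 * Pl α' β' q.1.2 ^ 6) *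
      pt α β z q.2 ^ 12) ≠ 0 := by
    obtain ⟨j, hj⟩ := Function.ne_iff.mp n12
    obtain ⟨p, hp⟩ := Function.ne_iff.mp n3
    intro h0
    exact mul_ne_zero hj hp (congrFun h0 (j, p))
  have e5 : hv (fun q : ((F.Jx × (ι × ι)) × ι) × Bool =>
      ((((τ q.1.1.1 ^ 12) * (Pl α' β' q.1.1.2 ^ 6)) * (pt α β z q.1.2 ^ 12)) *
        cv l A B z q.2)) = ((12 * hv τ + 6 * hv (Pl α' β')) + 12 * hv (pt α β z)) +
        hv (cv l A B z) := by
    rw [hv_tensor (v := fun q : (F.Jx × (ι × ι)) × ι => (τ q.1.1 ^ 12 * Pl α' β' q.1.2 ^ 6) *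
      pt α β z q.2 ^ 12) n123 hcv]
    rw [hv_tensor (v := fun q : F.Jx × (ι × ι) => τ q.1 ^ 12 * Pl α' β' q.2 ^ 6)
      (w := fun k => pt α β z k ^ 12) n12 n3]
    rw [hv_tensor (v := fun j => τ j ^ 12) (w := fun p => Pl α' β' p ^ 6) n1 n2]
    rw [hv_pow, hv_pow, hv_pow]
    norm_num
  rw [e5] at e3
  simp only [Matrix.cons_val_zero, Matrix.cons_val_one, Matrix.cons_val] at e3
  push_cast at e3
  rw [hl] at e2
  push_cast at e2
  linarith

end FMap

end Pool.Agent.H913
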