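import Pool.Agent.H913.Orb

/-!
# Irreducibility of the bundle, the upper bound for heights, and the field of definition
-/

set_option autoImplicit false
set_option linter.unusedSectionVars false

namespace Pool.Agent.H913

open Pool.Agent.V11286.AbsHeight Height NumberField Module MvPolynomial

variable {κ ι : Type} [Fintype κ] [Fintype ι] [DecidableEq κ] [DecidableEq ι]

/-- substitution of a combination of two tuples for the second group of variables -/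
noncomputable def fiberSub (u v : ι → MvPolynomial κ Qb) (z : Fin 2 → Qb) :
    MvPolynomial (κ ⊕ ι) Qb →ₐ[Qb] MvPolynomial κ Qb :=
  bind₁ (Sum.elim (fun k => X k) (fun i => C (z 0) * u i + C (z 1) * v i))

lemma fiberSub_eval (u v : ι → MvPolynomial κ Qb) (z : Fin 2 → Qb) (y : κ → Qb)
    (P : MvPolynomial (κ ⊕ ι) Qb) :
    eval y (fiberSub u v z P) = eval (zz1 y (pt (vev u y) (vev v y) z)) P := by
  have h : (eval y).comp (fiberSub u v z).toRingHom =
      eval (zz1 y (pt (vev u y) (vev v y) z)) := by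
    apply MvPolynomial.ringHom_ext
    · intro r
      simp [fiberSub]
    · rintro (k | i)
      · simp [fiberSub, zz1]
      · simp [fiberSub, zz1, pt, vev]
  exact congrArg (fun f => f P) h

lemma fiberSub_hom {u v : ι → MvPolynomial κ Qb} {e : ℕ} (hu : ∀ i, (u i).IsHomogeneous e)
    (hv : ∀ i, (v i).IsHomogeneous e) (z : Fin 2 → Qb) {P : MvPolynomial (κ ⊕ ι) Qb} {a b : ℕ}
    (h : WH1 P a b) : ∃ d, (fiberSub u v z P).IsHomogeneous d := by
  have h3 := WH_bindM (w' := (1 : κ → ℕ)) h (Sum.elim (fun k => X k)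
      (fun i => C (z 0) * u i + C (z 1) * v i)) ![1, e] (by
      rintro (k | i)
      · exact isHomogeneous_X _ _
      · have e0 : IsHomogeneous (C (z 0) * u i) (0 + e) :=
          (isHomogeneous_C _ _).mul (hu i)
        have e1 : IsHomogeneous (C (z 1) * v i) (0 + e) :=
          (isHomogeneous_C _ _).mul (hv i)
        rw [zero_add] at e0 e1
        exact e0.add e1)
  exact ⟨_, h3⟩

/-- a bundle over an irreducible base is irreducible -/
theorem irr_of (X : Bdl κ ι)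
    (h : ∀ p q : MvPolynomial κ Qb, (∃ d, p.IsHomogeneous d) → (∃ d, q.IsHomogeneous d) →
      (∃ y ∈ X.Y, eval y p ≠ 0) → (∃ y ∈ X.Y, eval y q ≠ 0) →
      ∃ y ∈ X.Y, eval y p ≠ 0 ∧ eval y q ≠ 0) : FMap.Irr X := by
  rintro P Q ⟨a, b, hP⟩ ⟨a', b', hQ⟩ ⟨y1, hy1, w1, hw1, hw10, h1⟩ ⟨y2, hy2, w2, hw2, hw20, h2⟩
  obtain ⟨c1, hc1⟩ := X.exists_bas hy1
  obtain ⟨c2, hc2⟩ := X.exists_bas hy2
  obtain ⟨z1, rfl⟩ := (hc1.2 _).mp hw1
  obtain ⟨z2, rfl⟩ := (hc2.2 _).mp hw2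
  obtain ⟨y, hy, e1, e2⟩ := h (fiberSub (X.u c1) (X.v c1) z1 P) (fiberSub (X.u c2) (X.v c2) z2 Q)
    (fiberSub_hom (X.hu c1) (X.hvv c1) z1 hP) (fiberSub_hom (X.hu c2) (X.hvv c2) z2 hQ)
    ⟨y1, hy1, by rw [fiberSub_eval]; exact h1⟩ ⟨y2, hy2, by rw [fiberSub_eval]; exact h2⟩
  rw [fiberSub_eval] at e1 e2
  obtain ⟨c, hc⟩ := X.exists_bas hy
  have key : ∀ c' (z : Fin 2 → Qb), ∃ x : Fin 2 → Qb,
      pt (vev (X.u c') y) (vev (X.v c') y) z = pt (vev (X.u c) y) (vev (X.v c) y) x := by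
    intro c' z
    obtain ⟨m1, m2⟩ := X.memU y hy.1 hy.2 c'
    obtain ⟨x1, hx1⟩ := (hc.2 _).mp m1
    obtain ⟨x2, hx2⟩ := (hc.2 _).mp m2
    refine ⟨fun i => z 0 * x1 i + z 1 * x2 i, ?_⟩
    rw [hx1, hx2]
    funext i
    simp only [pt]
    ring
  obtain ⟨x1, hx1⟩ := key c1 z1
  obtain ⟨x2, hx2⟩ := key c2 z2
  rw [hx1] at e1
  rw [hx2] at e2
  set α := vev (X.u c) y
  set β := vev (X.v c) y
  have f1 : rho y α β (emb P) ≠ 0 := by
    intro h0
    apply e1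
    rw [← emb_eval, ← rho_eval, h0, map_zero]
  have f2 : rho y α β (emb Q) ≠ 0 := by
    intro h0
    apply e2
    rw [← emb_eval, ← rho_eval, h0, map_zero]
  have f3 : rho y α β (emb P) * rho y α β (emb Q) ≠ 0 := mul_ne_zero f1 f2
  obtain ⟨z, hz0, hz⟩ := FMap.exists_ne' f3
  rw [map_mul, rho_eval, rho_eval, emb_eval, emb_eval] at hz
  refine ⟨y, hy, pt α β z, X.bas_mem hc z, ?_, ?_⟩
  · rw [Bdl.pt_ne hc.1]
    exact hz0
  · rw [map_mul]
    exact hz

namespace PMap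

variable {X : Bdl κ ι} (F : PMap X)

/-- the upper bound for the heights along an orbit -/
lemma upper : ∃ C : ℝ, ∀ {y : ℕ → κ → Qb} {w : ℕ → ι → Qb}, F.IsOrb y w → ∀ n,
    hv (w (n + 1)) ≤ F.lam * hv (w n) + F.a * hv (y n) + C := by
  obtain ⟨C, hC⟩ := F.toFMap.bound_G
  refine ⟨C, fun {y w} h n => ?_⟩
  obtain ⟨j, hj⟩ := F.good (y n) (h.hy n)
  have h1 := hj (w n) (h.hw n) (h.hw0 n)
  obtain ⟨e, he⟩ := Pl_zero_prop (h.hw0 (n + 1)) (Pl_symm_zero (h.step_w n j))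
  have he0 : e ≠ 0 := by
    rintro rfl
    apply h1
    have h2 : (fun i => eval (zz1 (y n) (w n)) (F.G j i)) = F.Gv j (y n) (w n) := rfl
    rw [h2, he]
    funext i
    simp
  have h3 : hv (F.Gv j (y n) (w n)) = hv (w (n + 1)) := by
    rw [he]
    exact Bdl.hv_smul' he0 _
  have h4 : hv (F.Gv j (y n) (w n)) ≤ hv (F.Gvec (y n) (w n)) :=
    hv_comp_le (fun i => (j, i)) (F.Gvec (y n) (w n))
  have h5 := (abs_le.mp (hC (y n) (h.hy n) (w n) (h.hw n) (h.hw0 n))).2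
  rw [← h3]
  linarith

end PMap

end Pool.Agent.H913
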