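import Pool.Agent.H913.Core2

/-!
# Composition of fibrewise maps, and the growth of the relative height along orbits
-/

set_option autoImplicit false
set_option linter.unusedSectionVars false

namespace Pool.Agent.H913

open Pool.Agent.V11286.AbsHeight Height NumberField Module MvPolynomial

variable {κ ι : Type} [Fintype κ] [Fintype ι] [DecidableEq κ] [DecidableEq ι]

namespace Bdl

variable (X : Bdl κ ι)

lemma smul_mem {y : κ → Qb} (hy : y ∈ X.Y) {w : ι → Qb} (hw : w ∈ X.E y) (c : Qb) :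
    (fun i => c * w i) ∈ X.E y := by
  obtain ⟨c', hc'⟩ := X.exists_bas hy
  obtain ⟨z, rfl⟩ := (hc'.2 _).mp hw
  rw [hc'.2]
  refine ⟨fun i => c * z i, ?_⟩
  funext i
  simp only [pt]
  ring

end Bdl

/-- A fibrewise map over a polynomial map of the base. -/
structure PMap (X : Bdl κ ι) extends FMap X where
  Jg : Type
  fJg : Fintype Jg
  e : ℕ
  Q : Jg → κ → MvPolynomial κ Qb
  hQ : ∀ i k, (Q i k).IsHomogeneous e
  hQg : ∀ y ∈ X.Y, ∀ i, ∃ c : Qb, vev (Q i) y = fun k => c * g y k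
  goodQ : ∀ y ∈ X.Y, ∃ i, vev (Q i) y ≠ 0
  hlam : 1 ≤ lam

namespace PMap

variable {X : Bdl κ ι}

/-- substitution: `G(Q(y), G'(y, w))` -/
noncomputable def sub (q : κ → MvPolynomial κ Qb) (G' : ι → MvPolynomial (κ ⊕ ι) Qb) :
    MvPolynomial (κ ⊕ ι) Qb →ₐ[Qb] MvPolynomial (κ ⊕ ι) Qb :=
  bind₁ (Sum.elim (fun k => bind₁ (fun k' => X' (Sum.inl k')) (q k)) G')
where X' (x : κ ⊕ ι) : MvPolynomial (κ ⊕ ι) Qb := MvPolynomial.X x

lemma sub_eval (q : κ → MvPolynomial κ Qb) (G' : ι → MvPolynomial (κ ⊕ ι) Qb) (y : κ → Qb)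
    (w : ι → Qb) (Φ : MvPolynomial (κ ⊕ ι) Qb) :
    eval (zz1 y w) (sub q G' Φ) =
      eval (zz1 (vev q y) (fun i => eval (zz1 y w) (G' i))) Φ := by
  have h : (eval (zz1 y w)).comp (sub q G').toRingHom =
      eval (zz1 (vev q y) (fun i => eval (zz1 y w) (G' i))) := by
    apply MvPolynomial.ringHom_ext
    · intro r
      simp [sub]
    · rintro (k | i)
      · have h1 : sub q G' (MvPolynomial.X (Sum.inl k)) =
            bind₁ (fun k' => MvPolynomial.X (Sum.inl k')) (q k) := by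
          simp only [sub, bind₁_X_right, Sum.elim_inl]
          rfl
        show eval (zz1 y w) (sub q G' (MvPolynomial.X (Sum.inl k))) = _
        rw [h1, inl_eval, eval_X]
        rfl
      · have h1 : sub q G' (MvPolynomial.X (Sum.inr i)) = G' i := by
          simp only [sub, bind₁_X_right, Sum.elim_inr]
        show eval (zz1 y w) (sub q G' (MvPolynomial.X (Sum.inr i))) = _
        rw [h1, eval_X]
        rfl
  exact congrArg (fun f => f Φ) h

lemma sub_hom {q : κ → MvPolynomial κ Qb} {e : ℕ} (hq : ∀ k, (q k).IsHomogeneous e)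
    {G' : ι → MvPolynomial (κ ⊕ ι) Qb} {a' l' : ℕ} (hG' : ∀ i, WH1 (G' i) a' l')
    {Φ : MvPolynomial (κ ⊕ ι) Qb} {a l : ℕ} (h : WH1 Φ a l) :
    WH1 (sub q G' Φ) (a * e + l * a') (l * l') := by
  have h1 := WH_bind (grp' := g1 (κ := κ) (ι := ι)) h
    (Sum.elim (fun k => bind₁ (fun k' => sub.X' (Sum.inl k')) (q k)) G')
    ![![e, 0], ![a', l']] (by
      rintro (k | i)
      · exact WH1_inl (hq k)
      · exact hG' i)
  have h2 : (∑ γ, ![a, l] γ • (![![e, 0], ![a', l']] : Fin 2 → (Fin 2 → ℕ)) γ) =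
      ![a * e + l * a', l * l'] := by
    funext i
    fin_cases i <;> simp [Fin.sum_univ_two]
  rw [h2] at h1
  exact h1

lemma Pl_zero_prop {v w : ι → Qb} (hv : v ≠ 0) (h : Pl v w = 0) : ∃ c : Qb, w = fun i => c * v i := by
  obtain ⟨k, hk⟩ := Function.ne_iff.mp hv
  simp only [Pi.zero_apply] at hk
  refine ⟨w k / v k, ?_⟩
  funext i
  have h1 := congrFun h (i, k)
  simp only [Pl, Pi.zero_apply] at h1
  field_simp
  linear_combination (-1 : Qb) * h1

lemma Pl_smul_left (c d : Qb) (v w : ι → Qb) :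
    Pl (fun i => c * v i) (fun i => d * w i) = fun p => c * d * Pl v w p := by
  funext p
  simp only [Pl]
  ring

lemma Pl_zero_left (w : ι → Qb) : Pl 0 w = 0 := by
  funext p
  simp [Pl]

lemma Pl_zero_right (w : ι → Qb) : Pl w 0 = 0 := by
  funext p
  simp [Pl]

lemma Gv_smul (F : FMap X) (j : F.Jx) (y : κ → Qb) (w : ι → Qb) (c d : Qb) :
    F.Gv j (fun k => c * y k) (fun i => d * w i) = fun i => c ^ F.a * d ^ F.lam * F.Gv j y w i := by
  funext i
  simp only [FMap.Gv]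
  exact eval_scale1 (F.hG j i) c d y w

lemma Gv_zero (F : PMap X) (j : F.Jx) (y : κ → Qb) : F.Gv j y 0 = 0 := by
  have h := Gv_smul F.toFMap j y 0 1 0
  have h1 : (fun i : ι => (0 : Qb) * (0 : ι → Qb) i) = 0 := by
    funext i
    simp
  have h2 : (fun k => 1 * y k) = y := by
    funext k
    simp
  rw [h1, h2] at h
  rw [h]
  funext i
  rw [zero_pow (by have := F.hlam; omega)]
  simp

lemma hom_bind {q : κ → MvPolynomial κ Qb} {e : ℕ} (hq : ∀ k, (q k).IsHomogeneous e)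
    {Φ : MvPolynomial κ Qb} {a : ℕ} (h : Φ.IsHomogeneous a) :
    (bind₁ q Φ).IsHomogeneous (a * e) := by
  have h1 : bind₁ q Φ = ∑ m ∈ Φ.support, C (coeff m Φ) * ∏ x, q x ^ m x := by
    rw [bind₁, aeval_def, eval₂_eq']
    rfl
  rw [h1]
  apply IsHomogeneous.sum
  intro m hm
  have h2 : ∑ x, m x = a := by
    have := h (mem_support_iff.mp hm)
    rw [Finsupp.weight_apply, Finsupp.sum_fintype _ _ (by simp)] at this
    simpa using this
  have h3 := IsHomogeneous.prod Finset.univ (fun x => q x ^ m x)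
    (fun x => e * m x) (fun x _ => (hq x).pow (m x))
  have h4 : (∑ x, e * m x) = a * e := by
    rw [← Finset.mul_sum, h2]
    ring
  rw [h4] at h3
  have h5 := (isHomogeneous_C κ (coeff m Φ)).mul h3
  rwa [zero_add] at h5

/-- composition -/
noncomputable def comp (F' F : PMap X) : PMap X where
  Jx := F.Jg × κ × F.Jx × F'.Jx
  fJ := by
    have := F.fJg
    have := F.fJ
    have := F'.fJ
    exact inferInstance
  a := F.e + (F'.a * F.e + F'.lam * F.a)
  lam := F'.lam * F.lam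
  G := fun x t => bind₁ (fun k' => MvPolynomial.X (Sum.inl k')) (F.Q x.1 x.2.1) *
    sub (F.Q x.1) (F.G x.2.2.1) (F'.G x.2.2.2 t)
  hG := fun x t => by
    exact ((WH1_inl (F.hQ x.1 x.2.1)).mul
      (sub_hom (F.hQ x.1) (F.hG x.2.2.1) (F'.hG x.2.2.2 t))).cast (by ring) (by ring)
  g := fun y => F'.g (F.g y)
  hg := fun y hy => F'.hg _ (F.hg y hy)
  hE := fun y hy w hw x => by
    obtain ⟨c, hc⟩ := F.hQg y hy x.1
    have h1 : (fun t => eval (zz1 y w) (bind₁ (fun k' => MvPolynomial.X (Sum.inl k'))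
        (F.Q x.1 x.2.1) * sub (F.Q x.1) (F.G x.2.2.1) (F'.G x.2.2.2 t))) =
        fun t => (eval y (F.Q x.1 x.2.1) * c ^ F'.a) *
          F'.Gv x.2.2.2 (F.g y) (F.Gv x.2.2.1 y w) t := by
      funext t
      rw [map_mul, inl_eval, sub_eval, hc]
      have h2 := congrFun (Gv_smul F'.toFMap x.2.2.2 (F.g y) (F.Gv x.2.2.1 y w) c 1) t
      simp only [FMap.Gv, one_mul, one_pow, mul_one] at h2 ⊢
      rw [h2]
      ring
    rw [h1]
    exact X.smul_mem (F'.hg _ (F.hg y hy)) (F'.hE _ (F.hg y hy) _ (F.hE y hy w hw _) _) _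
  hprop := fun y hy w hw x x' => by
    have key : ∀ x : F.Jg × κ × F.Jx × F'.Jx, ∃ d : Qb,
        (fun t => eval (zz1 y w) (bind₁ (fun k' => MvPolynomial.X (Sum.inl k'))
        (F.Q x.1 x.2.1) * sub (F.Q x.1) (F.G x.2.2.1) (F'.G x.2.2.2 t))) =
        fun t => d * F'.Gv x.2.2.2 (F.g y) (F.Gv x.2.2.1 y w) t := by
      intro x
      obtain ⟨c, hc⟩ := F.hQg y hy x.1
      refine ⟨eval y (F.Q x.1 x.2.1) * c ^ F'.a, ?_⟩
      funext t
      rw [map_mul, inl_eval, sub_eval, hc]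
      have h2 := congrFun (Gv_smul F'.toFMap x.2.2.2 (F.g y) (F.Gv x.2.2.1 y w) c 1) t
      simp only [FMap.Gv, one_mul, one_pow, mul_one] at h2 ⊢
      rw [h2]
      ring
    obtain ⟨d, hd⟩ := key x
    obtain ⟨d', hd'⟩ := key x'
    rw [hd, hd', Pl_smul_left]
    by_cases h0 : F.Gv x.2.2.1 y w = 0
    · rw [h0, Gv_zero, Pl_zero_left]
      funext p
      simp
    · obtain ⟨c, hc⟩ := Pl_zero_prop h0 (F.hprop y hy w hw x.2.2.1 x'.2.2.1)
      have hc' : F.Gv x'.2.2.1 y w = fun i => c * F.Gv x.2.2.1 y w i := hc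
      have h3 := Gv_smul F'.toFMap x'.2.2.2 (F.g y) (F.Gv x.2.2.1 y w) 1 c
      have h4 : (fun k => 1 * F.g y k) = F.g y := by
        funext k
        simp
      rw [h4] at h3
      rw [hc', h3]
      have h5 := F'.hprop (F.g y) (F.hg y hy) (F.Gv x.2.2.1 y w) (F.hE y hy w hw _)
        x.2.2.2 x'.2.2.2
      have h6 := Pl_smul_left 1 (1 ^ F'.a * c ^ F'.lam) (F'.Gv x.2.2.2 (F.g y) (F.Gv x.2.2.1 y w))
        (F'.Gv x'.2.2.2 (F.g y) (F.Gv x.2.2.1 y w))
      have h7 : (fun i => 1 * F'.Gv x.2.2.2 (F.g y) (F.Gv x.2.2.1 y w) i) =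
          F'.Gv x.2.2.2 (F.g y) (F.Gv x.2.2.1 y w) := by
        funext i
        simp
      rw [h7] at h6
      rw [h6]
      have h8 : Pl (F'.Gv x.2.2.2 (F.g y) (F.Gv x.2.2.1 y w))
        (F'.Gv x'.2.2.2 (F.g y) (F.Gv x.2.2.1 y w)) = 0 := h5
      rw [h8]
      funext p
      simp
  good := fun y hy => by
    obtain ⟨i, hi⟩ := F.goodQ y hy
    obtain ⟨m, hm⟩ := Function.ne_iff.mp hi
    obtain ⟨j, hj⟩ := F.good y hy
    obtain ⟨l, hl⟩ := F'.good (F.g y) (F.hg y hy)
    obtain ⟨c, hc⟩ := F.hQg y hy i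
    have hc0 : c ≠ 0 := by
      rintro rfl
      apply hi
      rw [hc]
      funext k
      simp
    refine ⟨(i, m, j, l), fun w hw hw0 => ?_⟩
    have h1 : (fun t => eval (zz1 y w) (bind₁ (fun k' => MvPolynomial.X (Sum.inl k'))
        (F.Q i m) * sub (F.Q i) (F.G j) (F'.G l t))) =
        fun t => (eval y (F.Q i m) * c ^ F'.a) * F'.Gv l (F.g y) (F.Gv j y w) t := by
      funext t
      rw [map_mul, inl_eval, sub_eval, hc]
      have h2 := congrFun (Gv_smul F'.toFMap l (F.g y) (F.Gv j y w) c 1) t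
      simp only [FMap.Gv, one_mul, one_pow, mul_one] at h2 ⊢
      rw [h2]
      ring
    simp only
    rw [h1]
    intro h0
    obtain ⟨t, ht⟩ := Function.ne_iff.mp (hl _ (F.hE y hy w hw j) (hj w hw hw0))
    exact mul_ne_zero (mul_ne_zero hm (pow_ne_zero _ hc0)) ht (congrFun h0 t)
  Jg := F.Jg × F'.Jg
  fJg := by
    have := F.fJg
    have := F'.fJg
    exact inferInstance
  e := F'.e * F.e
  Q := fun x k => bind₁ (F.Q x.1) (F'.Q x.2 k)
  hQ := fun x k => hom_bind (F.hQ x.1) (F'.hQ x.2 k)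
  hQg := fun y hy x => by
    obtain ⟨c, hc⟩ := F.hQg y hy x.1
    obtain ⟨c', hc'⟩ := F'.hQg (F.g y) (F.hg y hy) x.2
    refine ⟨c ^ F'.e * c', ?_⟩
    funext k
    have h1 : vev (fun k => bind₁ (F.Q x.1) (F'.Q x.2 k)) y k = eval (vev (F.Q x.1) y) (F'.Q x.2 k) := by
      simp only [vev]
      have h : (eval y).comp (bind₁ (F.Q x.1)).toRingHom = eval (vev (F.Q x.1) y) := by
        apply MvPolynomial.ringHom_ext
        · intro r
          simp
        · intro k
          simp [vev]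
      exact congrArg (fun f => f (F'.Q x.2 k)) h
    rw [h1, hc, eval_smul_hom (F'.hQ x.2 k)]
    have h2 := congrFun hc' k
    simp only [vev] at h2
    rw [h2]
    ring
  goodQ := fun y hy => by
    obtain ⟨i, hi⟩ := F.goodQ y hy
    obtain ⟨i', hi'⟩ := F'.goodQ (F.g y) (F.hg y hy)
    obtain ⟨c, hc⟩ := F.hQg y hy i
    have hc0 : c ≠ 0 := by
      rintro rfl
      apply hi
      rw [hc]
      funext k
      simp
    refine ⟨(i, i'), ?_⟩
    have h1 : vev (fun k => bind₁ (F.Q i) (F'.Q i' k)) y =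
        fun k => c ^ F'.e * vev (F'.Q i') (F.g y) k := by
      funext k
      have h : (eval y).comp (bind₁ (F.Q i)).toRingHom = eval (vev (F.Q i) y) := by
        apply MvPolynomial.ringHom_ext
        · intro r
          simp
        · intro k
          simp [vev]
      have h2 : vev (fun k => bind₁ (F.Q i) (F'.Q i' k)) y k = eval (vev (F.Q i) y) (F'.Q i' k) :=
        congrArg (fun f => f (F'.Q i' k)) h
      rw [h2, hc, eval_smul_hom (F'.hQ i' k)]
      rfl
    simp only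
    rw [h1]
    obtain ⟨k, hk⟩ := Function.ne_iff.mp hi'
    intro h0
    exact mul_ne_zero (pow_ne_zero _ hc0) hk (congrFun h0 k)
  hlam := Nat.mul_le_mul F'.hlam F.hlam

lemma comp_Gv (F' F : PMap X) {y : κ → Qb} (hy : y ∈ X.Y) (w : ι → Qb)
    (x : F.Jg × κ × F.Jx × F'.Jx) : ∃ d : Qb, (comp F' F).Gv x y w =
      fun t => d * F'.Gv x.2.2.2 (F.g y) (F.Gv x.2.2.1 y w) t := by
  obtain ⟨c, hc⟩ := F.hQg y hy x.1
  refine ⟨eval y (F.Q x.1 x.2.1) * c ^ F'.a, ?_⟩
  funext t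
  show eval (zz1 y w) (bind₁ (fun k' => MvPolynomial.X (Sum.inl k'))
        (F.Q x.1 x.2.1) * sub (F.Q x.1) (F.G x.2.2.1) (F'.G x.2.2.2 t)) = _
  rw [map_mul, inl_eval, sub_eval, hc]
  have h2 := congrFun (Gv_smul F'.toFMap x.2.2.2 (F.g y) (F.Gv x.2.2.1 y w) c 1) t
  simp only [FMap.Gv, one_mul, one_pow, mul_one] at h2 ⊢
  rw [h2]
  ring

/-- the iterates -/
noncomputable def it (F : PMap X) : ℕ → PMap X
  | 0 => F
  | k + 1 => comp F (it F k)

lemma it_lam (F : PMap X) (k : ℕ) : (it F k).lam = F.lam ^ (k + 1) := by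
  induction k with
  | zero => simp [it]
  | succ k ih =>
    show F.lam * (it F k).lam = _
    rw [ih]
    ring

lemma it_g (F : PMap X) (k : ℕ) (y : κ → Qb) : (it F k).g y = F.g^[k + 1] y := by
  induction k with
  | zero => rfl
  | succ k ih =>
    show F.g ((it F k).g y) = _
    rw [ih]
    exact (Function.iterate_succ_apply' F.g (k + 1) y).symm

end PMap

end Pool.Agent.H913
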