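import Pool.Agent.H913.Ht

/-!
# Two-sided height bounds for multihomogeneous polynomial maps
-/

set_option autoImplicit false
set_option linter.unusedSectionVars false

namespace Pool.Agent.H913

open Pool.Agent.V11286.AbsHeight Height NumberField Module MvPolynomial

variable {σ Γ : Type} [Fintype σ] [Fintype Γ] [DecidableEq σ] [DecidableEq Γ]

/-- The upper bound: a polynomial map of multidegree `d` multiplies heights by at most `d`. -/
theorem UB (grp : σ → Γ) {L : Type} [Finite L] (Φ : L → MvPolynomial σ Qb) (d : Γ → ℕ)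
    (hΦ : ∀ l, IsWeightedHomogeneous (wt grp) (Φ l) d) :
    ∃ C : ℝ, ∀ z, AllNe grp z →
      hv (fun l => eval z (Φ l)) ≤ (∑ γ, d γ * hg grp γ z) + C := by
  classical
  rcases isEmpty_or_nonempty (TIdx grp d) with hem | hnem
  · exact ⟨0, fun z hz =>
      (hem.false fun a => ⟨(hz a.1).choose, (hz a.1).choose_spec.1⟩).elim⟩
  choose! t ht using exists_TIdx grp d
  let A : L × TIdx grp d → Qb := fun p =>
    ∑ m ∈ (Φ p.1).support with t m = p.2, coeff m (Φ p.1)
  refine ⟨Real.log (Nat.card (TIdx grp d)) + hv A, fun z hz => ?_⟩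
  have hne : Nonempty (TIdx grp d) :=
    ⟨fun a => ⟨(hz a.1).choose, (hz a.1).choose_spec.1⟩⟩
  have h1 : ∀ l, eval z (Φ l) = ∑ s : TIdx grp d, A (l, s) * ∏ a, z (s a) := by
    intro l
    rw [eval_eq]
    simp only [A]
    simp_rw [Finset.sum_mul]
    rw [Finset.sum_comm' (t' := (Φ l).support) (s' := fun m => {t m})]
    · apply Finset.sum_congr rfl
      intro m hm
      rw [Finset.sum_singleton]
      have h2 : Finsupp.weight (wt grp) m = d := hΦ l (mem_support_iff.mp hm)
      rw [ht m h2 z, Finsupp.prod]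
    · intro s m
      simp only [Finset.mem_univ, Finset.mem_filter, true_and, Finset.mem_singleton]
      tauto
  have h2 : (fun l => eval z (Φ l)) = fun l => ∑ s : TIdx grp d, A (l, s) * ∏ a, z (s a) :=
    funext h1
  rw [h2]
  have h3 := hv_linear A (fun s : TIdx grp d => ∏ a, z (s a))
  rw [hv_TIdx grp d hz] at h3
  linarith

/-- multiplication by a homogeneous element and components -/
lemma comp_mul {w : σ → (Γ → ℕ)} {Φ : MvPolynomial σ Qb} {d : Γ → ℕ}
    (hΦ : IsWeightedHomogeneous w Φ d) (n : Γ → ℕ) (D : MvPolynomial σ Qb) :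
    ∃ D', IsWeightedHomogeneous w D' (n - d) ∧
      weightedHomogeneousComponent w n (D * Φ) = D' * Φ := by
  classical
  induction D using MvPolynomial.induction_on' with
  | monomial m c =>
    by_cases h : Finsupp.weight w m + d = n
    · refine ⟨monomial m c, ?_, ?_⟩
      · have : n - d = Finsupp.weight w m := by rw [← h, add_tsub_cancel_right]
        rw [this]
        exact isWeightedHomogeneous_monomial w m c rfl
      · have h2 : IsWeightedHomogeneous w (monomial m c * Φ) n := by
          rw [← h]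
          exact (isWeightedHomogeneous_monomial w m c rfl).mul hΦ
        exact h2.weightedHomogeneousComponent_same
    · refine ⟨0, isWeightedHomogeneous_zero _ _ _, ?_⟩
      rw [zero_mul]
      have h2 : IsWeightedHomogeneous w (monomial m c * Φ) (Finsupp.weight w m + d) :=
        (isWeightedHomogeneous_monomial w m c rfl).mul hΦ
      exact h2.weightedHomogeneousComponent_ne n (Ne.symm h)
  | add p q hp hq =>
    obtain ⟨p', h1, h2⟩ := hp
    obtain ⟨q', h3, h4⟩ := hq
    refine ⟨p' + q', h1.add h3, ?_⟩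
    rw [add_mul, map_add, h2, h4, add_mul]

/-- The lower bound: if the forms `Φ` of multidegree `d` have no common zero on the closed set
cut out by `S`, then the heights are multiplied by at least `d`. -/
theorem LB (grp : σ → Γ) (S : Set (MvPolynomial σ Qb))
    (hS : ∀ P ∈ S, ∃ e, IsWeightedHomogeneous (wt grp) P e)
    {L : Type} [Fintype L] (Φ : L → MvPolynomial σ Qb) (d : Γ → ℕ)
    (hΦ : ∀ l, IsWeightedHomogeneous (wt grp) (Φ l) d)
    (h0 : ∀ z : σ → Qb, AllNe grp z → (∀ P ∈ S, eval z P = 0) → ∃ l, eval z (Φ l) ≠ 0) :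
    ∃ C : ℝ, ∀ z, AllNe grp z → (∀ P ∈ S, eval z P = 0) →
      ∑ γ, d γ * hg grp γ z ≤ hv (fun l => eval z (Φ l)) + C := by
  classical
  let I : Ideal (MvPolynomial σ Qb) := Ideal.span (S ∪ Set.range Φ)
  -- the monomials
  let mon : ((γ : Γ) → {x // grp x = γ}) → MvPolynomial σ Qb := fun s => ∏ γ, X (s γ : σ)
  have hmon : ∀ s, IsWeightedHomogeneous (wt grp) (mon s) 1 := by
    intro s
    have h := IsWeightedHomogeneous.prod (w := wt grp) Finset.univ
      (fun γ => (X (s γ : σ) : MvPolynomial σ Qb)) (fun γ => Pi.single γ 1) (fun γ _ => by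
        have h2 := isWeightedHomogeneous_X Qb (wt grp) (s γ : σ)
        rw [wt, (s γ).2] at h2
        exact h2)
    have h3 : (∑ γ : Γ, Pi.single γ 1 : Γ → ℕ) = 1 := by
      funext γ
      simp [Finset.sum_apply, Pi.single_apply]
    rw [h3] at h
    exact h
  have hrad : ∀ s, ∃ N : ℕ, mon s ^ N ∈ I := by
    intro s
    have h1 : mon s ∈ I.radical := by
      rw [← vanishingIdeal_zeroLocus_eq_radical (K := Qb) I, mem_vanishingIdeal_iff]
      intro z hz
      have hz' : ∀ p ∈ S ∪ Set.range Φ, eval z p = 0 := by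
        intro p hp
        have := hz p (Ideal.subset_span hp)
        simpa [aeval_eq_eval] using this
      by_contra hne
      have hne' : ∏ γ, z (s γ : σ) ≠ 0 := by
        simpa [mon, aeval_eq_eval, map_prod] using hne
      have hall : AllNe grp z := fun γ =>
        ⟨s γ, (s γ).2, fun h => hne' (Finset.prod_eq_zero (Finset.mem_univ γ) h)⟩
      obtain ⟨l, hl⟩ := h0 z hall (fun P hP => hz' P (Or.inl hP))
      exact hl (hz' _ (Or.inr ⟨l, rfl⟩))
    exact h1
  choose N0 hN0 using hrad
  let N : ℕ := (∑ s, N0 s) + ∑ γ, d γ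
  have hN : ∀ s, mon s ^ N ∈ I := by
    intro s
    have h1 : N0 s ≤ N := le_trans (Finset.single_le_sum (fun _ _ => Nat.zero_le _)
      (Finset.mem_univ s)) (Nat.le_add_right _ _)
    rw [← Nat.sub_add_cancel h1, pow_add]
    exact I.mul_mem_left _ (hN0 s)
  have hdN : ∀ γ, d γ ≤ N := fun γ => le_trans (Finset.single_le_sum (fun _ _ => Nat.zero_le _)
    (Finset.mem_univ γ)) (Nat.le_add_left _ _)
  let n : Γ → ℕ := fun _ => N
  -- the coefficients
  have hcoef : ∀ s : ((γ : Γ) → {x // grp x = γ}), ∃ D : L → MvPolynomial σ Qb,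
      (∀ l, IsWeightedHomogeneous (wt grp) (D l) (n - d)) ∧
      ∀ z, (∀ P ∈ S, eval z P = 0) →
        (∏ γ, z (s γ : σ)) ^ N = ∑ l, eval z (D l) * eval z (Φ l) := by
    intro s
    have h1 := hN s
    simp only [I] at h1
    rw [Ideal.span_union, Submodule.mem_sup] at h1
    obtain ⟨a, ha, b, hb, hab⟩ := h1
    rw [Ideal.mem_span_range_iff_exists_fun] at hb
    obtain ⟨c, hc⟩ := hb
    rw [Ideal.span, Submodule.mem_span_set] at ha
    obtain ⟨e, he, hea⟩ := ha
    choose D hD1 hD2 using fun l => comp_mul (hΦ l) n (c l)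
    refine ⟨D, hD1, fun z hz => ?_⟩
    have h2 : weightedHomogeneousComponent (wt grp) n (mon s ^ N) = mon s ^ N := by
      apply IsWeightedHomogeneous.weightedHomogeneousComponent_same
      have h3 := (hmon s).pow N
      have h4 : N • (1 : Γ → ℕ) = n := by
        funext γ
        simp [n]
      rw [h4] at h3
      exact h3
    have h3 : eval z (weightedHomogeneousComponent (wt grp) n a) = 0 := by
      rw [← hea, Finsupp.sum, map_sum, map_sum]
      apply Finset.sum_eq_zero
      intro P hP
      have hPS : P ∈ S := he (Finset.mem_coe.mpr hP)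
      obtain ⟨eP, heP⟩ := hS P hPS
      obtain ⟨D', _, hD'⟩ := comp_mul heP n (e P)
      rw [smul_eq_mul, hD', map_mul, hz P hPS, mul_zero]
    have h4 : weightedHomogeneousComponent (wt grp) n b = ∑ l, D l * Φ l := by
      rw [← hc, map_sum]
      exact Finset.sum_congr rfl fun l _ => hD2 l
    have h5 : eval z (mon s ^ N) = eval z (weightedHomogeneousComponent (wt grp) n (a + b)) := by
      rw [hab, h2]
    rw [map_add, map_add, h3, zero_add, h4] at h5
    simpa [mon, map_sum] using h5
  choose D hD1 hD2 using hcoef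
  obtain ⟨C, hC⟩ := UB grp (fun p : ((γ : Γ) → {x // grp x = γ}) × L => D p.1 p.2) (n - d)
    (fun p => hD1 p.1 p.2)
  refine ⟨Real.log (Nat.card L) + C, fun z hz hzS => ?_⟩
  have hLne : Nonempty L := ⟨(h0 z hz hzS).choose⟩
  have e1 : hv (fun s : (γ : Γ) → {x // grp x = γ} => (∏ γ, z (s γ : σ)) ^ N) =
      N * ∑ γ, hg grp γ z := by
    rw [hv_pow]
    congr 1
    exact hv_prod (α := Γ) (ι := fun γ => {x // grp x = γ}) (x := fun γ x => z x) (fun γ => by
      obtain ⟨x, hx, hzx⟩ := hz γ
      intro h0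
      exact hzx (congrFun h0 ⟨x, hx⟩))
  have e2 : (fun s : (γ : Γ) → {x // grp x = γ} => (∏ γ, z (s γ : σ)) ^ N) =
      fun s => ∑ l, eval z (D s l) * eval z (Φ l) := by
    funext s
    exact hD2 s z hzS
  have e3 := hv_linear (fun p : ((γ : Γ) → {x // grp x = γ}) × L => eval z (D p.1 p.2))
    (fun l => eval z (Φ l))
  have e4 := hC z hz
  rw [e2] at e1
  rw [e1] at e3
  have e5 : (∑ γ, (((n - d) γ : ℕ) : ℝ) * hg grp γ z) =
      N * ∑ γ, hg grp γ z - ∑ γ, d γ * hg grp γ z := by
    rw [Finset.mul_sum, ← Finset.sum_sub_distrib]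
    apply Finset.sum_congr rfl
    intro γ _
    have : (((n - d) γ : ℕ) : ℝ) = N - d γ := by
      have h6 : (n - d) γ = N - d γ := rfl
      rw [h6, Nat.cast_sub (hdN γ)]
    rw [this]
    ring
  rw [e5] at e4
  linarith

end Pool.Agent.H913
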