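import Pool.Agent.H913.Bin

/-!
# Restriction of binary forms to an affine line
-/

set_option autoImplicit false
set_option linter.unusedSectionVars false

namespace Pool.Agent.H913

open Pool.Agent.V11286.AbsHeight Height NumberField Module MvPolynomial

/-- restriction of a binary form to the line `x ↦ x • α + β` -/
noncomputable def ln (α β : Fin 2 → Qb) : S2 →ₐ[Qb] Polynomial Qb :=
  aeval (fun i => Polynomial.C (α i) * Polynomial.X + Polynomial.C (β i))

lemma ln_eval (α β : Fin 2 → Qb) (P : S2) (x : Qb) :
    (ln α β P).eval x = eval (fun i => x * α i + β i) P := by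
  have h : (Polynomial.evalRingHom x).comp (ln α β : S2 →+* Polynomial Qb) =
      eval (fun i => x * α i + β i) := by
    apply MvPolynomial.ringHom_ext
    · intro r
      simp [ln]
    · intro i
      simp [ln]
      ring
  exact congrArg (fun f => f P) h

lemma ln_deriv (α β : Fin 2 → Qb) (P : S2) :
    Polynomial.derivative (ln α β P) = ln α β (D2 (α 1) (-(α 0)) P) := by
  induction P using MvPolynomial.induction_on with
  | C a =>
    rw [D2_apply]
    simp [ln]
  | add p q hp hq => simp only [map_add, hp, hq]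
  | mul_X p i hp =>
    rw [map_mul, Polynomial.derivative_mul, hp, Derivation.leibniz]
    simp only [smul_eq_mul, map_add, map_mul]
    have h1 : Polynomial.derivative (ln α β (X i)) = ln α β (D2 (α 1) (-(α 0)) (X i)) := by
      rw [D2_apply]
      fin_cases i <;> simp [ln, pderiv_X]
    rw [h1]
    ring

lemma ln_term (α β : Fin 2 → Qb) (m : Fin 2 →₀ ℕ) {n : ℕ} (hm : m 0 + m 1 = n) :
    (ln α β (monomial m 1)).natDegree ≤ n ∧
    (ln α β (monomial m 1)).coeff n = eval α (monomial m (1 : Qb)) := by
  have h1 : ln α β (monomial m 1) =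
      (Polynomial.C (α 0) * Polynomial.X + Polynomial.C (β 0)) ^ (m 0) *
      (Polynomial.C (α 1) * Polynomial.X + Polynomial.C (β 1)) ^ (m 1) := by
    rw [ln, aeval_monomial, Finsupp.prod_fintype _ _ (by simp), Fin.prod_univ_two]
    simp
  have hd : ∀ i, (Polynomial.C (α i) * Polynomial.X + Polynomial.C (β i)).natDegree ≤ 1 :=
    fun i => Polynomial.natDegree_linear_le
  have hd2 : ∀ i, ((Polynomial.C (α i) * Polynomial.X + Polynomial.C (β i)) ^ (m i)).natDegree
      ≤ m i := fun i => by
    have := Polynomial.natDegree_pow_le_of_le (m i) (hd i)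
    simpa using this
  have hc : ∀ i, ((Polynomial.C (α i) * Polynomial.X + Polynomial.C (β i)) ^ (m i)).coeff (m i)
      = α i ^ m i := fun i => by
    have := Polynomial.coeff_pow_of_natDegree_le (m := m i) (hd i)
    simpa using this
  rw [h1, ← hm]
  refine ⟨Polynomial.natDegree_mul_le_of_le (hd2 0) (hd2 1), ?_⟩
  rw [Polynomial.coeff_mul_add_eq_of_natDegree_le (hd2 0) (hd2 1), hc, hc, eval_monomial,
    Finsupp.prod_fintype _ _ (by simp), Fin.prod_univ_two, one_mul]

lemma ln_hom {P : S2} {n : ℕ} (hP : P.IsHomogeneous n) (α β : Fin 2 → Qb) :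
    (ln α β P).natDegree ≤ n ∧ (ln α β P).coeff n = eval α P := by
  have h0 : P = ∑ m ∈ P.support, C (coeff m P) * monomial m 1 := by
    conv_lhs => rw [P.as_sum]
    apply Finset.sum_congr rfl
    intro m _
    rw [C_mul_monomial, mul_one]
  have hdeg : ∀ m ∈ P.support, m 0 + m 1 = n := by
    intro m hm
    have := hP (mem_support_iff.mp hm)
    rw [Finsupp.weight_apply, Finsupp.sum_fintype _ _ (by simp), Fin.sum_univ_two] at this
    simpa using this
  have hC : ∀ c : Qb, ln α β (C c) = Polynomial.C c := fun c => by simp [ln]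
  constructor
  · rw [h0, map_sum]
    apply Polynomial.natDegree_sum_le_of_forall_le
    intro m hm
    rw [map_mul, hC]
    exact le_trans (Polynomial.natDegree_C_mul_le _ _) (ln_term α β m (hdeg m hm)).1
  · conv_lhs => rw [h0]
    conv_rhs => rw [h0]
    rw [map_sum, map_sum, Polynomial.finsetSum_coeff]
    apply Finset.sum_congr rfl
    intro m hm
    rw [map_mul, map_mul, hC, Polynomial.coeff_C_mul, (ln_term α β m (hdeg m hm)).2, eval_C]

lemma eval_smul_hom {σ : Type} [Fintype σ] {P : MvPolynomial σ Qb} {n : ℕ}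
    (hP : P.IsHomogeneous n) (μ : Qb) (z : σ → Qb) :
    eval (fun i => μ * z i) P = μ ^ n * eval z P := by
  rw [eval_eq', eval_eq', Finset.mul_sum]
  apply Finset.sum_congr rfl
  intro m hm
  have h : ∑ i, m i = n := by
    have := hP (mem_support_iff.mp hm)
    rw [Finsupp.weight_apply, Finsupp.sum_fintype _ _ (by simp)] at this
    simpa using this
  simp_rw [mul_pow]
  rw [Finset.prod_mul_distrib, Finset.prod_pow_eq_pow_sum, h]
  ring

/-- the determinant of two vectors -/
noncomputable def br (v w : Fin 2 → Qb) : Qb := v 0 * w 1 - v 1 * w 0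

lemma dich {α β : Fin 2 → Qb} (h : br α β ≠ 0) (z : Fin 2 → Qb) :
    (∃ μ x : Qb, μ ≠ 0 ∧ z = fun i => μ * (x * α i + β i)) ∨ ∃ μ : Qb, z = fun i => μ * α i := by
  by_cases hz : br α z = 0
  · right
    have h2 : z 1 * α 0 = z 0 * α 1 := by
      rw [br] at hz
      linear_combination hz
    refine ⟨br z β / br α β, ?_⟩
    funext i
    rw [div_mul_eq_mul_div, eq_div_iff h]
    fin_cases i
    · simp only [br, Fin.zero_eta]
      linear_combination (β 0) * h2
    · simp only [br, Fin.mk_one]
      linear_combination (β 1) * h2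
  · left
    refine ⟨br α z / br α β, br z β / br α z, div_ne_zero hz h, ?_⟩
    funext i
    field_simp
    fin_cases i
    · simp only [br, Fin.zero_eta]
      ring
    · simp only [br, Fin.mk_one]
      ring

lemma line_zero {P : S2} {n : ℕ} (hP : P.IsHomogeneous n) {α β : Fin 2 → Qb} (h : br α β ≠ 0)
    (h0 : ln α β P = 0) : P = 0 := by
  apply MvPolynomial.funext
  intro z
  rw [map_zero]
  obtain ⟨μ, x, hμ, rfl⟩ | ⟨μ, rfl⟩ := dich h z
  · rw [eval_smul_hom hP μ (fun i => x * α i + β i), ← ln_eval, h0]
    simp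
  · rw [eval_smul_hom hP, ← (ln_hom hP α β).2, h0]
    simp

lemma exists_ne {P : S2} (hP : P ≠ 0) : ∃ z, eval z P ≠ 0 := by
  by_contra h
  push Not at h
  apply hP
  apply MvPolynomial.funext
  intro z
  rw [h z, map_zero]

lemma exists_compl {α : Fin 2 → Qb} (h : α ≠ 0) : ∃ β, br α β ≠ 0 := by
  by_cases h0 : α 0 = 0
  · refine ⟨![1, 0], ?_⟩
    intro h1
    apply h
    funext i
    fin_cases i
    · exact h0
    · simpa [br, h0] using h1
  · exact ⟨![0, 1], by simpa [br] using h0⟩

lemma eval_zero_hom {σ : Type} [Fintype σ] {P : MvPolynomial σ Qb} {n : ℕ} (hn : n ≠ 0)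
    (hP : P.IsHomogeneous n) : eval (0 : σ → Qb) P = 0 := by
  have := eval_smul_hom hP 0 0
  rw [zero_pow hn, zero_mul] at this
  rw [← this]
  congr 1

/-- factorisation of a binary form -/
lemma factor {P : S2} {n : ℕ} (hP : P.IsHomogeneous n) (h0 : P ≠ 0) :
    ∃ (v : Fin n → Fin 2 → Qb) (c : Qb), c ≠ 0 ∧ (∀ i, v i ≠ 0) ∧
      ∀ z, eval z P = c * ∏ i, br z (v i) := by
  by_cases hn : n = 0
  · subst hn
    refine ⟨fun i => i.elim0, coeff 0 P, ?_, fun i => i.elim0, ?_⟩
    · intro h
      apply h0
      have h1 : P.totalDegree = 0 := by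
        apply Nat.le_zero.mp
        exact hP.totalDegree_le
      rw [totalDegree_eq_zero_iff_eq_C] at h1
      rw [h1, h, map_zero]
    · intro z
      have h1 : P.totalDegree = 0 := by
        apply Nat.le_zero.mp
        exact hP.totalDegree_le
      rw [totalDegree_eq_zero_iff_eq_C] at h1
      conv_lhs => rw [h1]
      simp
  obtain ⟨α, hα⟩ := exists_ne h0
  have hα0 : α ≠ 0 := by
    rintro rfl
    exact hα (eval_zero_hom hn hP)
  obtain ⟨β, hβ⟩ := exists_compl hα0
  obtain ⟨h1, h2⟩ := ln_hom hP α β
  set p := ln α β P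
  have hlc : p.coeff n ≠ 0 := by rw [h2]; exact hα
  have hdeg : p.natDegree = n := le_antisymm h1 (Polynomial.le_natDegree_of_ne_zero hlc)
  have hp0 : p ≠ 0 := by
    intro h
    rw [h] at hlc
    simp at hlc
  have hsplit : p.Splits := IsAlgClosed.splits p
  have hcard : p.roots.card = n := by
    rw [← hdeg]
    exact hsplit.natDegree_eq_card_roots.symm
  have hprod : p = Polynomial.C (p.leadingCoeff) * (p.roots.map (fun a => Polynomial.X - Polynomial.C a)).prod :=
    hsplit.eq_prod_roots
  have hlen : p.roots.toList.length = n := by rw [Multiset.length_toList, hcard]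
  let r : Fin n → Qb := fun i => p.roots.toList.get (i.cast hlen.symm)
  have hev : ∀ x, p.eval x = eval α P * ∏ i, (x - r i) := by
    intro x
    conv_lhs => rw [hprod]
    rw [Polynomial.eval_mul, Polynomial.eval_C, Polynomial.leadingCoeff, hdeg, h2]
    congr 1
    rw [Polynomial.eval_multiset_prod, Multiset.map_map]
    have h3 : ∏ i : Fin n, (x - r i) = ∏ i : Fin p.roots.toList.length,
        (x - p.roots.toList.get i) := by
      apply Fintype.prod_equiv (finCongr hlen.symm)
      intro i
      rfl
    rw [h3]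
    have h4 : (p.roots.toList.map fun a => x - a) =
        List.ofFn fun i : Fin p.roots.toList.length => x - p.roots.toList.get i := by
      apply List.ext_get
      · simp
      · intro n h1 h2
        simp
    rw [← List.prod_ofFn, ← h4]
    conv_lhs => rw [← Multiset.coe_toList p.roots]
    rw [Multiset.map_coe, Multiset.prod_coe]
    simp [Function.comp_def]
  refine ⟨fun i k => r i * α k + β k, eval α P * (br α β)⁻¹ ^ n, ?_, ?_, ?_⟩
  · exact mul_ne_zero hα (pow_ne_zero _ (inv_ne_zero hβ))
  · intro i hi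
    apply hβ
    have e0 := congrFun hi 0
    have e1 := congrFun hi 1
    simp only [Pi.zero_apply] at e0 e1
    rw [br]
    linear_combination (α 0) * e1 - (α 1) * e0
  · intro z
    have key : ∀ c : Qb, ∀ f : Fin n → Qb, (∀ i, c * br α β * f i = br z (fun k => r i * α k + β k)) →
        eval α P * (br α β)⁻¹ ^ n * ∏ i, br z (fun k => r i * α k + β k) =
        c ^ n * (eval α P * ∏ i, f i) := by
      intro c f hf
      simp_rw [← hf]
      rw [Finset.prod_mul_distrib, Finset.prod_const, Finset.card_univ, Fintype.card_fin, mul_pow]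
      have : (br α β)⁻¹ ^ n * (br α β) ^ n = 1 := by
        rw [← mul_pow, inv_mul_cancel₀ hβ, one_pow]
      linear_combination (eval α P * c ^ n * ∏ i, f i) * this
    obtain ⟨μ, x, hμ, rfl⟩ | ⟨μ, rfl⟩ := dich hβ z
    · rw [eval_smul_hom hP μ (fun i => x * α i + β i), ← ln_eval, hev]
      rw [key μ (fun i => x - r i)]
      intro i
      simp only [br]
      ring
    · rw [eval_smul_hom hP]
      rw [key μ (fun _ => 1)]
      · simp
      intro i
      simp only [br]
      ring

end Pool.Agent.H913
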