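import Pool.Agent.H913.Sys

/-!
# Fibrewise maps: the data on one fibre
-/

set_option autoImplicit false
set_option linter.unusedSectionVars false

namespace Pool.Agent.H913

open Pool.Agent.V11286.AbsHeight Height NumberField Module MvPolynomial

variable {κ ι : Type} [Fintype κ] [Fintype ι] [DecidableEq κ] [DecidableEq ι]

lemma WH_bindM {σ Γ σ' M : Type} [Fintype σ] [Fintype Γ] [DecidableEq σ] [DecidableEq Γ]
    [Fintype σ'] [DecidableEq σ'] [AddCommMonoid M] {grp : σ → Γ} {w' : σ' → M}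
    {Φ : MvPolynomial σ Qb} {d : Γ → ℕ}
    (h : IsWeightedHomogeneous (wt grp) Φ d) (ψ : σ → MvPolynomial σ' Qb) (δ : Γ → M)
    (hψ : ∀ x, IsWeightedHomogeneous w' (ψ x) (δ (grp x))) :
    IsWeightedHomogeneous w' (bind₁ ψ Φ) (∑ γ, d γ • δ γ) := by
  classical
  have h1 : bind₁ ψ Φ = ∑ m ∈ Φ.support, C (coeff m Φ) * ∏ x, ψ x ^ m x := by
    rw [bind₁, aeval_def, eval₂_eq']
    rfl
  rw [h1]
  apply IsWeightedHomogeneous.sum
  intro m hm
  have h2 : Finsupp.weight (wt grp) m = d := h (mem_support_iff.mp hm)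
  have h3 := IsWeightedHomogeneous.prod (w := w') Finset.univ (fun x => ψ x ^ m x)
    (fun x => m x • δ (grp x)) (fun x _ => (hψ x).pow (m x))
  have h4 : (∑ x, m x • δ (grp x)) = ∑ γ, d γ • δ γ := by
    rw [← h2]
    simp only [wt_sum]
    simp_rw [Finset.sum_smul]
    rw [← Fintype.sum_fiberwise grp (fun x => m x • δ (grp x))]
    apply Finset.sum_congr rfl
    intro γ _
    apply Finset.sum_congr rfl
    intro x _
    rw [x.2]
  rw [h4] at h3
  exact h3.C_mul _

lemma rho_emb_hom {Φ : MvPolynomial (κ ⊕ ι) Qb} {a b : ℕ} (h : WH1 Φ a b) (y : κ → Qb)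
    (α β : ι → Qb) : (rho y α β (emb Φ)).IsHomogeneous b := by
  have h1 : rho y α β (emb Φ) = bind₁ (Sum.elim (fun k => C (y k))
      (fun l => C (α l) * X 0 + C (β l) * X 1)) Φ := by
    have h2 : (rho y α β).comp emb = (bind₁ (Sum.elim (fun k => C (y k))
      (fun l => C (α l) * X 0 + C (β l) * X 1)) : MvPolynomial (κ ⊕ ι) Qb →ₐ[Qb] S2) := by
      apply MvPolynomial.algHom_ext
      rintro (k | l)
      · simp [emb, rho]
      · simp [emb, rho]
    exact congrArg (fun f => f Φ) h2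
  rw [h1]
  have h3 := WH_bindM (w' := (1 : Fin 2 → ℕ)) h (Sum.elim (fun k => C (y k))
      (fun l => C (α l) * X 0 + C (β l) * X 1)) ![0, 1] (by
      rintro (k | l)
      · exact isHomogeneous_C _ _
      · have e0 : IsHomogeneous (C (α l) * X 0 : S2) (0 + 1) :=
          (isHomogeneous_C _ _).mul (isHomogeneous_X _ _)
        have e1 : IsHomogeneous (C (β l) * X 1 : S2) (0 + 1) :=
          (isHomogeneous_C _ _).mul (isHomogeneous_X _ _)
        exact e0.add e1)
  have h4 : (∑ γ, ![a, b] γ • (![0, 1] : Fin 2 → ℕ) γ) = b := by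
    simp [Fin.sum_univ_two]
  rw [h4] at h3
  exact h3

lemma eval_wh_scale {σ Γ : Type} [Fintype σ] [Fintype Γ] [DecidableEq σ] [DecidableEq Γ]
    {grp : σ → Γ} {Φ : MvPolynomial σ Qb} {d : Γ → ℕ} (h : IsWeightedHomogeneous (wt grp) Φ d)
    (c : Γ → Qb) (z : σ → Qb) :
    eval (fun x => c (grp x) * z x) Φ = (∏ γ, c γ ^ d γ) * eval z Φ := by
  rw [eval_eq', eval_eq', Finset.mul_sum]
  apply Finset.sum_congr rfl
  intro m hm
  have h2 : Finsupp.weight (wt grp) m = d := h (mem_support_iff.mp hm)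
  simp_rw [mul_pow]
  rw [Finset.prod_mul_distrib, ← h2]
  have h3 : ∏ i, c (grp i) ^ m i = ∏ γ, c γ ^ (Finsupp.weight (wt grp) m) γ := by
    simp only [wt_sum]
    simp_rw [← Finset.prod_pow_eq_pow_sum]
    rw [← Fintype.prod_fiberwise grp (fun x => c (grp x) ^ m x)]
    apply Finset.prod_congr rfl
    intro γ _
    apply Finset.prod_congr rfl
    intro x _
    rw [x.2]
  rw [h3]
  ring

lemma eval_scale1 {Φ : MvPolynomial (κ ⊕ ι) Qb} {a b : ℕ} (h : WH1 Φ a b) (s t : Qb)
    (y : κ → Qb) (w : ι → Qb) :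
    eval (zz1 (fun k => s * y k) (fun l => t * w l)) Φ = s ^ a * t ^ b * eval (zz1 y w) Φ := by
  have h1 := eval_wh_scale h ![s, t] (zz1 y w)
  rw [Fin.prod_univ_two] at h1
  have h2 : (fun x => ![s, t] (g1 x) * zz1 y w x) =
      zz1 (fun k => s * y k) (fun l => t * w l) := by
    funext x
    rcases x with k | l
    · rfl
    · rfl
  rw [h2] at h1
  exact h1

lemma eval_scale2 {Φ : MvPolynomial (κ ⊕ ((ι × ι) ⊕ ι)) Qb} {a b c : ℕ} (h : WH2 Φ a b c) (t : Qb)
    (y : κ → Qb) (p : ι × ι → Qb) (w : ι → Qb) :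
    eval (zz2 y (fun q => t * p q) w) Φ = t ^ b * eval (zz2 y p w) Φ := by
  have h1 := eval_wh_scale h ![1, t, 1] (zz2 y p w)
  rw [Fin.prod_univ_three] at h1
  have h2 : (fun x => ![1, t, 1] (g2 x) * zz2 y p w x) = zz2 y (fun q => t * p q) w := by
    funext x
    rcases x with k | q | l
    · exact one_mul _
    · rfl
    · exact one_mul _
  rw [h2] at h1
  rw [h1]
  simp

/-- A fibrewise polynomial map over `g`. -/
structure FMap (X : Bdl κ ι) where
  Jx : Type
  fJ : Fintype Jx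
  a : ℕ
  lam : ℕ
  G : Jx → ι → MvPolynomial (κ ⊕ ι) Qb
  hG : ∀ j i, WH1 (G j i) a lam
  g : (κ → Qb) → (κ → Qb)
  hg : ∀ y ∈ X.Y, g y ∈ X.Y
  hE : ∀ y ∈ X.Y, ∀ w ∈ X.E y, ∀ j, (fun i => eval (zz1 y w) (G j i)) ∈ X.E (g y)
  hprop : ∀ y ∈ X.Y, ∀ w ∈ X.E y, ∀ j j', Pl (fun i => eval (zz1 y w) (G j i))
    (fun i => eval (zz1 y w) (G j' i)) = 0
  good : ∀ y ∈ X.Y, ∃ j, ∀ w ∈ X.E y, w ≠ 0 → (fun i => eval (zz1 y w) (G j i)) ≠ 0

namespace FMap

variable {X : Bdl κ ι} (F : FMap X)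

instance : Fintype F.Jx := F.fJ

/-- The data on the fibre over `y`. -/
structure Fib (y : κ → Qb) (α β α' β' : ι → Qb) (τ : F.Jx → Qb) (A B : S2) : Prop where
  hy : y ∈ X.Y
  bas : X.Bas y α β
  bas' : X.Bas (F.g y) α' β'
  hA : A.IsHomogeneous F.lam
  hB : B.IsHomogeneous F.lam
  noz : NoZ A B
  tau : τ ≠ 0
  val : ∀ j i, rho y α β (emb (F.G j i)) = C (τ j) * (C (α' i) * A + C (β' i) * B)

lemma rho_G_eval (y : κ → Qb) (α β : ι → Qb) (j : F.Jx) (i : ι) (z : Fin 2 → Qb) :
    eval z (rho y α β (emb (F.G j i))) = eval (zz1 y (pt α β z)) (F.G j i) := by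
  rw [rho_eval, emb_eval]

lemma exists_fib {l : ℕ} (hl : F.lam = l + 1) {y : κ → Qb} (hy : y ∈ X.Y) {α β α' β' : ι → Qb}
    (h : X.Bas y α β) (h' : X.Bas (F.g y) α' β') : ∃ τ A B, F.Fib y α β α' β' τ A B := by
  obtain ⟨⟨k, m⟩, hkm⟩ := Function.ne_iff.mp h'.1
  simp only [Pl, Pi.zero_apply] at hkm
  set d := α' k * β' m - α' m * β' k with hd
  let P : F.Jx → ι → S2 := fun j i => rho y α β (emb (F.G j i))
  have hPhom : ∀ j i, (P j i).IsHomogeneous F.lam := fun j i => rho_emb_hom (F.hG j i) y α β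
  let A : F.Jx → S2 := fun j => C (β' m / d) * P j k - C (β' k / d) * P j m
  let B : F.Jx → S2 := fun j => C (α' k / d) * P j m - C (α' m / d) * P j k
  have hC : ∀ (c : Qb) (Q : S2), Q.IsHomogeneous F.lam → (C c * Q).IsHomogeneous F.lam := by
    intro c Q hQ
    have := (isHomogeneous_C (Fin 2) c).mul hQ
    simpa using this
  have hA : ∀ j, (A j).IsHomogeneous F.lam := fun j =>
    (hC _ _ (hPhom j k)).sub (hC _ _ (hPhom j m))
  have hB : ∀ j, (B j).IsHomogeneous F.lam := fun j =>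
    (hC _ _ (hPhom j m)).sub (hC _ _ (hPhom j k))
  -- values
  have hval : ∀ j z, (fun i => eval z (P j i)) = pt α' β' ![eval z (A j), eval z (B j)] := by
    intro j z
    have h1 := F.hE y hy (pt α β z) (X.bas_mem h z) j
    obtain ⟨x, hx⟩ := (h'.2 _).mp h1
    have h2 : ∀ i, eval z (P j i) = x 0 * α' i + x 1 * β' i := by
      intro i
      simp only [P]
      rw [rho_G_eval]
      exact congrFun hx i
    have hAz : eval z (A j) = x 0 := by
      simp only [A, map_sub, map_mul, eval_C]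
      rw [h2, h2]
      field_simp
      rw [hd]
      ring
    have hBz : eval z (B j) = x 1 := by
      simp only [B, map_sub, map_mul, eval_C]
      rw [h2, h2]
      field_simp
      rw [hd]
      ring
    funext i
    rw [hAz, hBz, h2]
    simp [pt]
  have hval' : ∀ j i, P j i = C (α' i) * A j + C (β' i) * B j := by
    intro j i
    apply MvPolynomial.funext
    intro z
    have := congrFun (hval j z) i
    rw [this]
    simp [pt]
    ring
  obtain ⟨j0, hj0⟩ := F.good y hy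
  have hnoz : NoZ (A j0) (B j0) := by
    intro z hz ⟨e1, e2⟩
    have h1 := hj0 (pt α β z) (X.bas_mem h z) ((Bdl.pt_ne h.1).mpr hz)
    apply h1
    have h2 := hval j0 z
    funext i
    have h3 := congrFun h2 i
    simp only [P] at h3
    rw [rho_G_eval] at h3
    rw [h3, e1, e2]
    simp [pt]
  have hcross : ∀ j, A j * B j0 = B j * A j0 := by
    intro j
    apply MvPolynomial.funext
    intro z
    have h1 := F.hprop y hy (pt α β z) (X.bas_mem h z) j j0
    have h2 : ∀ j, (fun i => eval (zz1 y (pt α β z)) (F.G j i)) =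
        pt α' β' ![eval z (A j), eval z (B j)] := by
      intro j
      rw [← hval j z]
      funext i
      simp only [P]
      rw [rho_G_eval]
    rw [h2, h2, Bdl.Pl_pt] at h1
    have h3 := congrFun h1 (k, m)
    simp only [Pl, Pi.zero_apply, mul_eq_zero] at h3
    have h4 := h3.resolve_right hkm
    simp only [br, Matrix.cons_val_zero, Matrix.cons_val_one] at h4
    rw [map_mul, map_mul]
    linear_combination h4
  have hA' := hA
  have hB' := hB
  rw [hl] at hA' hB'
  choose τ hτ using fun j => cop (hA' j0) (hB' j0) (hA' j) (hB' j) hnoz (hcross j)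
  refine ⟨τ, A j0, B j0, hy, h, h', hA j0, hB j0, hnoz, ?_, ?_⟩
  · intro h0
    have h1 := (hτ j0).1
    have h2 := (hτ j0).2
    have h3 : τ j0 = 0 := congrFun h0 j0
    rw [h3, map_zero, zero_mul] at h1 h2
    exact hnoz ![1, 0] (by
      intro h
      have := congrFun h 0
      simp at this) ⟨by rw [h1, map_zero], by rw [h2, map_zero]⟩
  · intro j i
    have h1 := hval' j i
    simp only [P] at h1
    rw [h1, (hτ j).1, (hτ j).2]
    ring

end FMap

end Pool.Agent.H913
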