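import Pool.Agent.H913.Hts2

/-!
# Northcott's theorem for algebraic numbers of bounded degree
-/

set_option autoImplicit false
set_option linter.unusedSectionVars false

namespace Pool.Agent.H913

open Pool.Agent.V11286.AbsHeight Height NumberField Module

/-- The algebraic integers of bounded degree whose conjugates are bounded. -/
lemma int_finite (D : ℕ) (H : ℝ) :
    {t : Qb | ∃ L : IntermediateField ℚ Qb, ∃ _ : FiniteDimensional ℚ L, finrank ℚ L ≤ D ∧
      ∃ y : L, IsIntegral ℤ y ∧ (∀ φ : L →+* ℂ, ‖φ y‖ ≤ H) ∧ t = y}.Finite := by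
  classical
  let C : ℕ := ∑ D ∈ Finset.range (D + 1), Nat.ceil (max H 1 ^ D * D.choose (D / 2))
  have := Polynomial.bUnion_roots_finite (algebraMap ℤ Qb) D (Set.finite_Icc (-C : ℤ) C)
  refine this.subset ?_
  rintro t ⟨L, _, hL, y, hint, hy, rfl⟩
  have : NumberField L := ⟨⟩
  simp_rw [Set.mem_iUnion]
  have h_map_ℚ_minpoly := minpoly.isIntegrallyClosed_eq_field_fractions' ℚ hint
  refine ⟨minpoly ℤ y, ⟨?_, fun i => ?_⟩, ?_⟩
  · rw [← (minpoly.monic hint).natDegree_map (algebraMap ℤ ℚ), ← h_map_ℚ_minpoly]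
    exact (minpoly.natDegree_le y).trans hL
  · rw [Set.mem_Icc, ← abs_le, ← @Int.cast_le ℝ]
    have h1 := Embeddings.coeff_bdd_of_norm_le (K := L) (A := ℂ) (B := H)
      (x := y) (fun φ => hy φ) i
    have h2 : ‖(minpoly ℚ y).coeff i‖ = ((|(minpoly ℤ y).coeff i| : ℤ) : ℝ) := by
      rw [h_map_ℚ_minpoly, Polynomial.coeff_map, eq_intCast, Int.norm_cast_rat, Int.norm_eq_abs,
        Int.cast_abs]
    rw [h2] at h1
    refine h1.trans ?_
    refine (Nat.le_ceil _).trans ?_
    have h3 : Nat.ceil (max H 1 ^ Module.finrank ℚ L *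
        (Module.finrank ℚ L).choose (Module.finrank ℚ L / 2)) ≤ C :=
      Finset.single_le_sum (f := fun D => Nat.ceil (max H 1 ^ D * D.choose (D / 2)))
        (fun _ _ => Nat.zero_le _) (Finset.mem_range.2 (by omega))
    exact_mod_cast h3
  · rw [Finset.mem_coe, Multiset.mem_toFinset, Polynomial.mem_roots_map_of_injective]
    · rw [← Polynomial.aeval_def]
      have h4 : Polynomial.aeval (y : Qb) (minpoly ℤ y) =
          ((Polynomial.aeval y (minpoly ℤ y) : L) : Qb) := by
        rw [Polynomial.aeval_def, Polynomial.aeval_def]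
        have := Polynomial.hom_eval₂ (minpoly ℤ y) (algebraMap ℤ L) (algebraMap L Qb) y
        rw [show ((algebraMap L Qb) y) = (y : Qb) from rfl] at this
        rw [show ((Polynomial.eval₂ (algebraMap ℤ L) y (minpoly ℤ y) : L) : Qb) =
          (algebraMap L Qb) (Polynomial.eval₂ (algebraMap ℤ L) y (minpoly ℤ y)) from rfl, this]
        congr 1
      rw [h4, minpoly.aeval]
      rfl
    · exact (algebraMap ℤ Qb).injective_int
    · exact minpoly.ne_zero hint

/-- **Northcott's theorem** for algebraic numbers of bounded degree. -/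
theorem northcott_deg (D : ℕ) (B : ℝ) :
    {t : Qb | h1 t ≤ B ∧ ∃ L : IntermediateField ℚ Qb, ∃ _ : FiniteDimensional ℚ L,
      finrank ℚ L ≤ D ∧ t ∈ L}.Finite := by
  set M : ℝ := Real.exp (|B| * D) with hM
  have hM1 : 1 ≤ M := Real.one_le_exp (by positivity)
  have hfin : (⋃ n ∈ Finset.range (⌊M⌋₊ + 1), (fun y : Qb => y / (n : Qb)) ''
      {t : Qb | ∃ L : IntermediateField ℚ Qb, ∃ _ : FiniteDimensional ℚ L, finrank ℚ L ≤ D ∧
      ∃ y : L, IsIntegral ℤ y ∧ (∀ φ : L →+* ℂ, ‖φ y‖ ≤ M * M) ∧ t = y}).Finite :=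
    (Finset.finite_toSet _).biUnion fun n _ => (int_finite D (M * M)).image _
  refine hfin.subset ?_
  rintro t ⟨ht, L, hfd, hL, htL⟩
  have : NumberField L := ⟨⟩
  let x : L := ⟨t, htL⟩
  have h0 := h1_eq L x
  have hpos := finrank_pos' L
  have hlog : logHeight₁ x ≤ |B| * D := by
    have h2 : logHeight₁ x = h1 t * finrank ℚ L := by
      have : h1 t = logHeight₁ x / finrank ℚ L := h0
      rw [this, div_mul_cancel₀ _ hpos.ne']
    rw [h2]
    calc h1 t * finrank ℚ L ≤ |B| * finrank ℚ L :=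
          mul_le_mul_of_nonneg_right (ht.trans (le_abs_self B)) hpos.le
      _ ≤ |B| * D := mul_le_mul_of_nonneg_left (by exact_mod_cast hL) (abs_nonneg _)
  have hmul : mulHeight₁ x ≤ M := by
    have h3 : 0 < mulHeight₁ x := mulHeight₁_pos x
    rw [hM, ← Real.log_le_iff_le_exp h3]
    exact hlog
  obtain ⟨n, hn0, hn1, hn2⟩ := exists_nat_le_mulHeight₁ x
  have hnM : (n : ℝ) ≤ M := hn1.trans hmul
  simp only [Set.mem_iUnion]
  refine ⟨n, Finset.mem_range.mpr (Nat.lt_succ_of_le (Nat.le_floor hnM)), ?_⟩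
  refine ⟨((n * x : L) : Qb), ⟨L, hfd, hL, n * x, hn2, ?_, rfl⟩, ?_⟩
  · intro φ
    rw [map_mul, norm_mul, map_natCast, Complex.norm_natCast]
    have h4 : ‖φ x‖ ≤ mulHeight₁ x := by
      rw [NumberField.mulHeight₁_eq]
      have h5 : ‖φ x‖ = InfinitePlace.mk φ x := (InfinitePlace.apply φ x).symm
      rw [h5]
      have h6 : (1 : ℝ) ≤ ∏ᶠ v : FinitePlace L, max (v x) 1 :=
        finprod_induction (p := fun r : ℝ => 1 ≤ r) le_rfl
          (fun a b ha hb => one_le_mul_of_one_le_of_one_le ha hb) (fun v => le_max_right _ _)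
      have h7 : InfinitePlace.mk φ x ≤ ∏ v : InfinitePlace L, max (v x) 1 ^ v.mult := by
        classical
        have h8 : max ((InfinitePlace.mk φ) x) 1 ^ (InfinitePlace.mk φ).mult ≤
            ∏ v : InfinitePlace L, max (v x) 1 ^ v.mult := by
          rw [← Finset.mul_prod_erase Finset.univ _ (Finset.mem_univ (InfinitePlace.mk φ))]
          apply le_mul_of_one_le_right (by positivity)
          exact Finset.prod_induction _ (fun r : ℝ => 1 ≤ r)
            (fun a b ha hb => one_le_mul_of_one_le_of_one_le ha hb) le_rfl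
            (fun v _ => one_le_pow₀ (le_max_right _ _))
        refine le_trans ?_ h8
        refine le_trans (le_max_left _ 1) ?_
        exact le_self_pow₀ (le_max_right _ _) (InfinitePlace.mult_ne_zero)
      calc InfinitePlace.mk φ x ≤ ∏ v : InfinitePlace L, max (v x) 1 ^ v.mult := h7
        _ ≤ (∏ v : InfinitePlace L, max (v x) 1 ^ v.mult) *
            ∏ᶠ v : FinitePlace L, max (v x) 1 :=
          le_mul_of_one_le_right (Finset.prod_nonneg fun v _ => by positivity) h6
    exact mul_le_mul hnM (h4.trans hmul) (norm_nonneg _) (by linarith)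
  · have hn' : (n : Qb) ≠ 0 := by exact_mod_cast hn0
    show ((n * x : L) : Qb) / (n : Qb) = t
    push_cast
    rw [mul_div_cancel_left₀ _ hn']

end Pool.Agent.H913
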