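import Pool.Agent.H913.Iter

/-!
# Orbits
-/

set_option autoImplicit false
set_option linter.unusedSectionVars false

namespace Pool.Agent.H913

open Pool.Agent.V11286.AbsHeight Height NumberField Module MvPolynomial

variable {κ ι : Type} [Fintype κ] [Fintype ι] [DecidableEq κ] [DecidableEq ι]

namespace PMap

variable {X : Bdl κ ι} (F : PMap X)

/-- a sequence of points which represents an orbit -/
structure IsOrb (y : ℕ → κ → Qb) (w : ℕ → ι → Qb) : Prop where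
  hy : ∀ n, y n ∈ X.Y
  hw : ∀ n, w n ∈ X.E (y n)
  hw0 : ∀ n, w n ≠ 0
  step_y : ∀ n, y (n + 1) = F.g (y n)
  step_w : ∀ n j, Pl (F.Gv j (y n) (w n)) (w (n + 1)) = 0

variable {F}

lemma IsOrb.y_iter {y : ℕ → κ → Qb} {w : ℕ → ι → Qb} (h : F.IsOrb y w) (n : ℕ) :
    y n = F.g^[n] (y 0) := by
  induction n with
  | zero => rfl
  | succ n ih =>
    rw [h.step_y, ih, Function.iterate_succ_apply']

lemma Pl_symm_zero {v w : ι → Qb} (h : Pl v w = 0) : Pl w v = 0 := by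
  funext p
  have := congrFun h p
  simp only [Pl, Pi.zero_apply] at this ⊢
  linear_combination (-1 : Qb) * this

lemma IsOrb.it_Gv {y : ℕ → κ → Qb} {w : ℕ → ι → Qb} (h : F.IsOrb y w) (k : ℕ)
    (x : (it F k).Jx) : ∃ c : Qb, (it F k).Gv x (y 0) (w 0) = fun i => c * w (k + 1) i := by
  induction k with
  | zero =>
    exact Pl_zero_prop (h.hw0 1) (Pl_symm_zero (h.step_w 0 x))
  | succ k ih =>
    obtain ⟨d, hd⟩ := comp_Gv F (it F k) (h.hy 0) (w 0) x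
    obtain ⟨c, hc⟩ := ih x.2.2.1
    have h1 : (it F k).g (y 0) = y (k + 1) := by
      rw [it_g, h.y_iter (k + 1)]
    have h2 := Gv_smul F.toFMap x.2.2.2 (y (k + 1)) (w (k + 1)) 1 c
    have h3 : (fun i => 1 * y (k + 1) i) = y (k + 1) := by
      funext i
      simp
    rw [h3] at h2
    obtain ⟨e, he⟩ := Pl_zero_prop (h.hw0 (k + 2)) (Pl_symm_zero (h.step_w (k + 1) x.2.2.2))
    refine ⟨d * (1 ^ F.a * c ^ F.lam * e), ?_⟩
    have h4 : (it F (k + 1)).Gv x (y 0) (w 0) = (comp F (it F k)).Gv x (y 0) (w 0) := rfl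
    rw [h4, hd, h1, hc, h2, he]
    funext i
    ring

lemma IsOrb.shift {y : ℕ → κ → Qb} {w : ℕ → ι → Qb} (h : F.IsOrb y w) (m : ℕ) :
    F.IsOrb (fun n => y (m + n)) (fun n => w (m + n)) where
  hy := fun _ => h.hy _
  hw := fun _ => h.hw _
  hw0 := fun _ => h.hw0 _
  step_y := fun _ => h.step_y _
  step_w := fun _ j => h.step_w _ j

variable (F)

/-- growth of the relative height along orbits -/
lemma growth_orb : ∃ C : ℝ, ∀ {y : ℕ → κ → Qb} {w : ℕ → ι → Qb}, F.IsOrb y w → ∀ n,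
    F.lam * (2 * hv (w n) - X.hp (y n)) - C ≤ 2 * hv (w (n + 1)) - X.hp (y (n + 1)) := by
  obtain ⟨l, hl⟩ : ∃ l, F.lam = l + 1 := ⟨F.lam - 1, by have := F.hlam; omega⟩
  obtain ⟨C, hC⟩ := F.toFMap.growth hl
  refine ⟨C, fun {y w} h n => ?_⟩
  obtain ⟨c, α', β', τ, A, B, hf⟩ := F.toFMap.exists_fib_chart hl (h.hy n)
  obtain ⟨z, hz⟩ := (hf.bas.2 _).mp (h.hw n)
  have hz0 : z ≠ 0 := by
    apply (Bdl.pt_ne hf.bas.1).mp
    rw [← hz]
    exact h.hw0 n
  have h1 := hC hf z hz0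
  rw [← hz, ← X.hp_eq hf.bas, ← X.hp_eq hf.bas'] at h1
  -- the image
  obtain ⟨j, hj⟩ := Function.ne_iff.mp hf.tau
  have h2 := hf.Gv_eq j z
  rw [← hz] at h2
  obtain ⟨e, he⟩ := Pl_zero_prop (h.hw0 (n + 1)) (Pl_symm_zero (h.step_w n j))
  have h3 : hv (F.Gv j (y n) (w n)) = hv (FMap.img α' β' A B z) := by
    rw [h2]
    exact Bdl.hv_smul' hj _
  have hGne : F.Gv j (y n) (w n) ≠ 0 := by
    rw [h2]
    obtain ⟨i, hi⟩ := Function.ne_iff.mp (hf.img_ne hz0)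
    intro h0
    exact mul_ne_zero hj hi (congrFun h0 i)
  have he0 : e ≠ 0 := by
    rintro rfl
    apply hGne
    rw [he]
    funext i
    simp
  have h4 : hv (F.Gv j (y n) (w n)) = hv (w (n + 1)) := by
    rw [he]
    exact Bdl.hv_smul' he0 _
  rw [← h3, h4, ← h.step_y] at h1
  exact h1

/-- a map of degree two always has two totally ramified points -/
lemma not_nonmon_two (F : FMap X) (hl : F.lam = 2) {y : κ → Qb} (hy : y ∈ X.Y) :
    ¬ F.NonMon y := by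
  intro hnm
  apply hnm
  obtain ⟨c, α', β', τ, A, B, h⟩ := F.exists_fib_chart (l := 1) hl hy
  have hA : A.IsHomogeneous (0 + 2) := by
    have := h.hA
    rw [hl] at this
    exact this
  have hB : B.IsHomogeneous (0 + 2) := by
    have := h.hB
    rw [hl] at this
    exact this
  have hJ : (Jac A B).IsHomogeneous (0 + 2) := by
    have := Jac_hom (n := 1) hA hB
    exact this
  have hH : (Hes (Jac A B)).IsHomogeneous (0 + 0) := Hes_hom hJ
  obtain ⟨z1, z2, hbr, h1, h2⟩ := two_tot (l := 0) hA hB h.noz (by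
    right
    refine ⟨0, ?_⟩
    have hd : (Hes (Jac A B)).totalDegree = 0 := Nat.le_zero.mp hH.totalDegree_le
    rw [totalDegree_eq_zero_iff_eq_C] at hd
    rw [hd]
    simp [Jac])
  refine ⟨_, X.bas_mem h.bas z1, _, X.bas_mem h.bas z2, ?_, h.alone h1, h.alone h2⟩
  rw [Bdl.Pl_pt]
  obtain ⟨p, hp⟩ := Function.ne_iff.mp h.bas.1
  intro h0
  exact mul_ne_zero hbr hp (congrFun h0 p)

/-- **Main theorem, vector form.** -/
theorem main_vec (hlam : 2 ≤ F.lam) (hirr : FMap.Irr X) {k : ℕ} {y₀ : κ → Qb} (hy₀ : y₀ ∈ X.Y)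
    (hnm : (it F k).NonMon y₀) (D : ℕ) (B₀ : ℝ) :
    ∃ P : MvPolynomial (κ ⊕ ι) Qb, (∃ a b, WH1 P a b) ∧ FMap.NV X P ∧
      ∀ {y : ℕ → κ → Qb} {w : ℕ → ι → Qb}, F.IsOrb y w →
        (∃ L : IntermediateField ℚ Qb, ∃ _ : FiniteDimensional ℚ L, finrank ℚ L ≤ D ∧
          (∀ k, y 0 k ∈ L) ∧ ∀ i, w 0 i ∈ L) →
        eval (zz1 (y 0) (w 0)) P ≠ 0 → ∀ n, k + 1 ≤ n → B₀ * (F.lam : ℝ) ^ n ≤ hv (w n) := by
  have hlk : 2 ≤ (it F k).lam := by
    rw [it_lam]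
    calc 2 ≤ F.lam := hlam
      _ = F.lam ^ 1 := (pow_one _).symm
      _ ≤ F.lam ^ (k + 1) := Nat.pow_le_pow_right (by omega) (by omega)
  have hl3 : (it F k).lam ≠ 2 := fun h => not_nonmon_two (it F k).toFMap h hy₀ hnm
  obtain ⟨l, hl⟩ : ∃ l, (it F k).lam = l + 3 := ⟨(it F k).lam - 3, by omega⟩
  obtain ⟨C, hC⟩ := F.growth_orb
  set lam : ℝ := (F.lam : ℝ) with hlamdef
  have hlam1 : 2 ≤ lam := by
    rw [hlamdef]
    exact_mod_cast hlam
  set C1 : ℝ := |C| with hC1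
  have hC1' : 0 ≤ C1 := abs_nonneg _
  obtain ⟨P, hP1, hP2, hP3⟩ := (it F k).toFMap.core hl hirr hy₀ hnm D
    (2 * |B₀| * lam ^ (k + 1) + C1)
  refine ⟨P, hP1, hP2, fun {y w} h hL hPne n hn => ?_⟩
  obtain ⟨j, hj⟩ := (it F k).good (y 0) (h.hy 0)
  have hj0 := hj (w 0) (h.hw 0) (h.hw0 0)
  have h1 := hP3 (y 0) (h.hy 0) (w 0) (h.hw 0) (h.hw0 0) hL hPne j hj0
  obtain ⟨c, hc⟩ := h.it_Gv k j
  have hc0 : c ≠ 0 := by
    rintro rfl
    apply hj0
    have : (fun i => eval (zz1 (y 0) (w 0)) ((it F k).G j i)) = (it F k).Gv j (y 0) (w 0) := rfl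
    rw [this, hc]
    funext i
    simp
  have h2 : hv ((it F k).Gv j (y 0) (w 0)) = hv (w (k + 1)) := by
    rw [hc]
    exact Bdl.hv_smul' hc0 _
  have h3 : (it F k).g (y 0) = y (k + 1) := by
    rw [it_g, h.y_iter (k + 1)]
  rw [h3, h2] at h1
  -- growth
  have h4 : ∀ m, 2 * |B₀| * lam ^ (k + 1 + m) + C1 ≤
      2 * hv (w (k + 1 + m)) - X.hp (y (k + 1 + m)) := by
    intro m
    induction m with
    | zero => exact h1.le
    | succ m ih =>
      have h5 := hC h (k + 1 + m)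
      have h6 : lam * (2 * |B₀| * lam ^ (k + 1 + m) + C1) ≤
          lam * (2 * hv (w (k + 1 + m)) - X.hp (y (k + 1 + m))) :=
        mul_le_mul_of_nonneg_left ih (by linarith)
      have h7 : lam * (2 * |B₀| * lam ^ (k + 1 + m) + C1) =
          2 * |B₀| * lam ^ (k + 1 + (m + 1)) + lam * C1 := by ring
      have h8 : 2 * C1 ≤ lam * C1 := mul_le_mul_of_nonneg_right hlam1 hC1'
      have h9 : C ≤ C1 := le_abs_self C
      rw [h7] at h6
      have h10 : k + 1 + (m + 1) = k + 1 + m + 1 := by ring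
      rw [h10] at h6 ⊢
      linarith
  obtain ⟨m, rfl⟩ : ∃ m, n = k + 1 + m := ⟨n - (k + 1), by omega⟩
  have h5 := h4 m
  have h6 : 0 ≤ X.hp (y (k + 1 + m)) := by
    obtain ⟨c, hc⟩ := X.exists_bas (h.hy (k + 1 + m))
    rw [X.hp_eq hc]
    exact hv_nonneg _
  have h7 : B₀ * lam ^ (k + 1 + m) ≤ |B₀| * lam ^ (k + 1 + m) :=
    mul_le_mul_of_nonneg_right (le_abs_self _) (by positivity)
  linarith

end PMap

end Pool.Agent.H913
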