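import Pool.Agent.H913.LB

/-!
# Multihomogeneous polynomials: substitution, derivations, groups of variables
-/

set_option autoImplicit false
set_option linter.unusedSectionVars false

namespace Pool.Agent.H913

open Pool.Agent.V11286.AbsHeight Height NumberField Module MvPolynomial

section general

variable {σ Γ σ' Γ' : Type} [Fintype σ] [Fintype Γ] [DecidableEq σ] [DecidableEq Γ]
  [Fintype σ'] [Fintype Γ'] [DecidableEq σ'] [DecidableEq Γ']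

lemma WH_bind {grp : σ → Γ} {grp' : σ' → Γ'} {Φ : MvPolynomial σ Qb} {d : Γ → ℕ}
    (h : IsWeightedHomogeneous (wt grp) Φ d) (ψ : σ → MvPolynomial σ' Qb) (δ : Γ → (Γ' → ℕ))
    (hψ : ∀ x, IsWeightedHomogeneous (wt grp') (ψ x) (δ (grp x))) :
    IsWeightedHomogeneous (wt grp') (bind₁ ψ Φ) (∑ γ, d γ • δ γ) := by
  classical
  have h1 : bind₁ ψ Φ = ∑ m ∈ Φ.support, C (coeff m Φ) * ∏ x, ψ x ^ m x := by
    rw [bind₁, aeval_def, eval₂_eq']
    rfl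
  rw [h1]
  apply IsWeightedHomogeneous.sum
  intro m hm
  have h2 : Finsupp.weight (wt grp) m = d := h (mem_support_iff.mp hm)
  have h3 := IsWeightedHomogeneous.prod (w := wt grp') Finset.univ (fun x => ψ x ^ m x)
    (fun x => m x • δ (grp x)) (fun x _ => (hψ x).pow (m x))
  have h4 : (∑ x, m x • δ (grp x)) = ∑ γ, d γ • δ γ := by
    rw [← h2]
    simp only [wt_sum]
    simp_rw [Finset.sum_smul]
    rw [← Fintype.sum_fiberwise grp (fun x => m x • δ (grp x))]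
    apply Finset.sum_congr rfl
    intro γ _
    apply Finset.sum_congr rfl
    intro x _
    rw [x.2]
  rw [h4] at h3
  exact h3.C_mul _

lemma hg_eq {grp : σ → Γ} {γ : Γ} {ι : Type} [Finite ι] (e : ι → σ)
    (he : ∀ i, grp (e i) = γ) (hinj : Function.Injective e) (hsurj : ∀ x, grp x = γ → ∃ i, e i = x)
    (z : σ → Qb) : hg grp γ z = hv (fun i => z (e i)) := by
  have e' : ι ≃ {x // grp x = γ} := Equiv.ofBijective (fun i => ⟨e i, he i⟩)
    ⟨fun i j hij => hinj (congrArg Subtype.val hij), fun x => by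
      obtain ⟨i, hi⟩ := hsurj x.1 x.2
      exact ⟨i, Subtype.ext hi⟩⟩
  have h := hv_equiv (Equiv.ofBijective (fun i => (⟨e i, he i⟩ : {x // grp x = γ}))
    ⟨fun i j hij => hinj (congrArg Subtype.val hij), fun x => by
      obtain ⟨i, hi⟩ := hsurj x.1 x.2
      exact ⟨i, Subtype.ext hi⟩⟩) (fun x : {x // grp x = γ} => z x)
  rw [hg, ← h]
  rfl

end general

section two

variable {κ ι : Type} [Fintype κ] [Fintype ι] [DecidableEq κ] [DecidableEq ι]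

/-- two groups of variables -/
def g1 : κ ⊕ ι → Fin 2 := Sum.elim (fun _ => 0) (fun _ => 1)

/-- the evaluation point -/
def zz1 (y : κ → Qb) (w : ι → Qb) : κ ⊕ ι → Qb := Sum.elim y w

lemma hg1_0 (y : κ → Qb) (w : ι → Qb) : hg g1 0 (zz1 y w) = hv y := by
  rw [hg_eq (ι := κ) Sum.inl (fun i => rfl) Sum.inl_injective]
  · rfl
  · rintro (x | x) hx
    · exact ⟨x, rfl⟩
    · simp [g1] at hx

lemma hg1_1 (y : κ → Qb) (w : ι → Qb) : hg g1 1 (zz1 y w) = hv w := by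
  rw [hg_eq (ι := ι) Sum.inr (fun i => rfl) Sum.inr_injective]
  · rfl
  · rintro (x | x) hx
    · simp [g1] at hx
    · exact ⟨x, rfl⟩

lemma allNe1 {y : κ → Qb} {w : ι → Qb} (hy : y ≠ 0) (hw : w ≠ 0) : AllNe g1 (zz1 y w) := by
  intro γ
  fin_cases γ
  · obtain ⟨k, hk⟩ := Function.ne_iff.mp hy
    exact ⟨Sum.inl k, rfl, hk⟩
  · obtain ⟨k, hk⟩ := Function.ne_iff.mp hw
    exact ⟨Sum.inr k, rfl, hk⟩

/-- three groups of variables: the point `y`, the Plücker vector `p`, the point `w` -/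
def g2 : κ ⊕ ((ι × ι) ⊕ ι) → Fin 3 :=
  Sum.elim (fun _ => 0) (Sum.elim (fun _ => 1) (fun _ => 2))

/-- the evaluation point -/
def zz2 (y : κ → Qb) (p : ι × ι → Qb) (w : ι → Qb) : κ ⊕ ((ι × ι) ⊕ ι) → Qb :=
  Sum.elim y (Sum.elim p w)

lemma hg2_0 (y : κ → Qb) (p : ι × ι → Qb) (w : ι → Qb) : hg g2 0 (zz2 y p w) = hv y := by
  rw [hg_eq (ι := κ) Sum.inl (fun i => rfl) Sum.inl_injective]
  · rfl
  · rintro (x | x | x) hx
    · exact ⟨x, rfl⟩
    · simp [g2] at hx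
    · simp [g2] at hx

lemma hg2_1 (y : κ → Qb) (p : ι × ι → Qb) (w : ι → Qb) : hg g2 1 (zz2 y p w) = hv p := by
  rw [hg_eq (ι := ι × ι) (fun i => Sum.inr (Sum.inl i)) (fun i => rfl)
    (Sum.inr_injective.comp Sum.inl_injective)]
  · rfl
  · rintro (x | x | x) hx
    · simp [g2] at hx
    · exact ⟨x, rfl⟩
    · simp [g2] at hx

lemma hg2_2 (y : κ → Qb) (p : ι × ι → Qb) (w : ι → Qb) : hg g2 2 (zz2 y p w) = hv w := by
  rw [hg_eq (ι := ι) (fun i => Sum.inr (Sum.inr i)) (fun i => rfl)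
    (Sum.inr_injective.comp Sum.inr_injective)]
  · rfl
  · rintro (x | x | x) hx
    · simp [g2] at hx
    · simp [g2] at hx
    · exact ⟨x, rfl⟩

lemma allNe2 {y : κ → Qb} {p : ι × ι → Qb} {w : ι → Qb} (hy : y ≠ 0) (hp : p ≠ 0) (hw : w ≠ 0) :
    AllNe g2 (zz2 y p w) := by
  intro γ
  fin_cases γ
  · obtain ⟨k, hk⟩ := Function.ne_iff.mp hy
    exact ⟨Sum.inl k, rfl, hk⟩
  · obtain ⟨k, hk⟩ := Function.ne_iff.mp hp
    exact ⟨Sum.inr (Sum.inl k), rfl, hk⟩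
  · obtain ⟨k, hk⟩ := Function.ne_iff.mp hw
    exact ⟨Sum.inr (Sum.inr k), rfl, hk⟩

/-- abbreviation -/
abbrev WH1 (Φ : MvPolynomial (κ ⊕ ι) Qb) (a b : ℕ) : Prop :=
  IsWeightedHomogeneous (wt g1) Φ ![a, b]

/-- abbreviation -/
abbrev WH2 (Φ : MvPolynomial (κ ⊕ ((ι × ι) ⊕ ι)) Qb) (a b c : ℕ) : Prop :=
  IsWeightedHomogeneous (wt g2) Φ ![a, b, c]

lemma WH2.mul {Φ Ψ : MvPolynomial (κ ⊕ ((ι × ι) ⊕ ι)) Qb} {a b c a' b' c' : ℕ}
    (h : WH2 Φ a b c) (h' : WH2 Ψ a' b' c') : WH2 (Φ * Ψ) (a + a') (b + b') (c + c') := by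
  have := IsWeightedHomogeneous.mul h h'
  simpa using this

lemma WH2.pow {Φ : MvPolynomial (κ ⊕ ((ι × ι) ⊕ ι)) Qb} {a b c : ℕ}
    (h : WH2 Φ a b c) (n : ℕ) : WH2 (Φ ^ n) (n * a) (n * b) (n * c) := by
  have := IsWeightedHomogeneous.pow h n
  simpa using this

lemma WH2.cast {Φ : MvPolynomial (κ ⊕ ((ι × ι) ⊕ ι)) Qb} {a b c a' b' c' : ℕ}
    (h : WH2 Φ a b c) (ha : a = a') (hb : b = b') (hc : c = c') : WH2 Φ a' b' c' := by
  subst ha hb hc
  exact h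

lemma WH1.mul {Φ Ψ : MvPolynomial (κ ⊕ ι) Qb} {a b a' b' : ℕ}
    (h : WH1 Φ a b) (h' : WH1 Ψ a' b') : WH1 (Φ * Ψ) (a + a') (b + b') := by
  have := IsWeightedHomogeneous.mul h h'
  simpa using this

lemma WH1.cast {Φ : MvPolynomial (κ ⊕ ι) Qb} {a b a' b' : ℕ}
    (h : WH1 Φ a b) (ha : a = a') (hb : b = b') : WH1 Φ a' b' := by
  subst ha hb
  exact h

lemma WH2_y (k : κ) : WH2 (ι := ι) (X (Sum.inl k)) 1 0 0 := by
  have h := isWeightedHomogeneous_X Qb (wt (g2 (κ := κ) (ι := ι))) (Sum.inl k)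
  convert h using 1
  funext i
  fin_cases i <;> rfl

lemma WH2_p (p : ι × ι) : WH2 (κ := κ) (X (Sum.inr (Sum.inl p))) 0 1 0 := by
  have h := isWeightedHomogeneous_X Qb (wt (g2 (κ := κ) (ι := ι))) (Sum.inr (Sum.inl p))
  convert h using 1
  funext i
  fin_cases i <;> rfl

lemma WH2_w (l : ι) : WH2 (κ := κ) (X (Sum.inr (Sum.inr l))) 0 0 1 := by
  have h := isWeightedHomogeneous_X Qb (wt (g2 (κ := κ) (ι := ι))) (Sum.inr (Sum.inr l))
  convert h using 1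
  funext i
  fin_cases i <;> rfl

lemma WH1_y (k : κ) : WH1 (ι := ι) (X (Sum.inl k)) 1 0 := by
  have h := isWeightedHomogeneous_X Qb (wt (g1 (κ := κ) (ι := ι))) (Sum.inl k)
  convert h using 1
  funext i
  fin_cases i <;> rfl

lemma WH1_w (l : ι) : WH1 (κ := κ) (X (Sum.inr l)) 0 1 := by
  have h := isWeightedHomogeneous_X Qb (wt (g1 (κ := κ) (ι := ι))) (Sum.inr l)
  convert h using 1
  funext i
  fin_cases i <;> rfl

/-- the derivation in the direction `U_k = (p k l)_l` of the variable `w` -/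
noncomputable def DD (k : ι) : Derivation Qb (MvPolynomial (κ ⊕ ((ι × ι) ⊕ ι)) Qb)
    (MvPolynomial (κ ⊕ ((ι × ι) ⊕ ι)) Qb) :=
  ∑ l, (X (Sum.inr (Sum.inl (k, l))) : MvPolynomial (κ ⊕ ((ι × ι) ⊕ ι)) Qb) •
    pderiv (Sum.inr (Sum.inr l))

lemma DD_apply (k : ι) (Φ : MvPolynomial (κ ⊕ ((ι × ι) ⊕ ι)) Qb) :
    DD k Φ = ∑ l, X (Sum.inr (Sum.inl (k, l))) * pderiv (Sum.inr (Sum.inr l)) Φ := by
  have h := map_sum (Derivation.coeFnAddMonoidHom
    (R := Qb) (A := MvPolynomial (κ ⊕ ((ι × ι) ⊕ ι)) Qb) (M := MvPolynomial (κ ⊕ ((ι × ι) ⊕ ι)) Qb))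
    (fun l => (X (Sum.inr (Sum.inl (k, l))) : MvPolynomial (κ ⊕ ((ι × ι) ⊕ ι)) Qb) •
      pderiv (Sum.inr (Sum.inr l))) Finset.univ
  have h2 := congrFun h Φ
  rw [Finset.sum_apply] at h2
  exact h2

lemma WH2_DD (k : ι) {Φ : MvPolynomial (κ ⊕ ((ι × ι) ⊕ ι)) Qb} {a b c : ℕ}
    (h : WH2 Φ a b (c + 1)) : WH2 (DD k Φ) a (b + 1) c := by
  rw [DD_apply]
  apply IsWeightedHomogeneous.sum
  intro l _
  have h1 : WH2 (pderiv (Sum.inr (Sum.inr l)) Φ) a b c := by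
    apply IsWeightedHomogeneous.pderiv h
    funext i
    fin_cases i <;> rfl
  exact ((WH2_p (k, l)).mul h1).cast (by ring) (by ring) (by ring)

end two

end Pool.Agent.H913
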