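import Pool.Agent.H913.Cov

/-!
# Line bundles of planes and their fibrewise maps: vector level
-/

set_option autoImplicit false
set_option linter.unusedSectionVars false

namespace Pool.Agent.H913

open Pool.Agent.V11286.AbsHeight Height NumberField Module MvPolynomial

variable {κ ι : Type} [Fintype κ] [Fintype ι] [DecidableEq κ] [DecidableEq ι]

/-- A closed cone `Y` with a family of planes `E y`. -/
structure Bdl (κ ι : Type) [Fintype κ] [Fintype ι] [DecidableEq κ] [DecidableEq ι] where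
  SY : Set (MvPolynomial κ Qb)
  hSY : ∀ P ∈ SY, ∃ d, P.IsHomogeneous d
  Ch : Type
  fC : Fintype Ch
  e : Ch → ℕ
  u : Ch → ι → MvPolynomial κ Qb
  v : Ch → ι → MvPolynomial κ Qb
  hu : ∀ c i, (u c i).IsHomogeneous (e c)
  hvv : ∀ c i, (v c i).IsHomogeneous (e c)
  E : (κ → Qb) → Set (ι → Qb)
  memU : ∀ y, y ≠ 0 → (∀ P ∈ SY, eval y P = 0) → ∀ c, vev (u c) y ∈ E y ∧ vev (v c) y ∈ E y
  plane : ∀ y, y ≠ 0 → (∀ P ∈ SY, eval y P = 0) → ∃ c, Pl (vev (u c) y) (vev (v c) y) ≠ 0 ∧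
    ∀ w, w ∈ E y ↔ ∃ z : Fin 2 → Qb, w = pt (vev (u c) y) (vev (v c) y) z

namespace Bdl

variable (X : Bdl κ ι)

/-- the cone over `Y` -/
def Y : Set (κ → Qb) := {y | y ≠ 0 ∧ ∀ P ∈ X.SY, eval y P = 0}

/-- `(α, β)` is a basis of the plane over `y` -/
def Bas (y : κ → Qb) (α β : ι → Qb) : Prop :=
  Pl α β ≠ 0 ∧ ∀ w, w ∈ X.E y ↔ ∃ z : Fin 2 → Qb, w = pt α β z

lemma exists_bas {y : κ → Qb} (hy : y ∈ X.Y) :
    ∃ c, X.Bas y (vev (X.u c) y) (vev (X.v c) y) := X.plane y hy.1 hy.2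

lemma Pl_pt (α β : ι → Qb) (z z' : Fin 2 → Qb) :
    Pl (pt α β z) (pt α β z') = fun p => br z z' * Pl α β p := by
  funext p
  simp only [Pl, pt, br]
  ring

lemma Pl_smul_ne {c : Qb} {p : ι × ι → Qb} (h : (fun i => c * p i) ≠ 0) : c ≠ 0 := by
  rintro rfl
  apply h
  funext i
  simp

lemma hv_smul' {ι : Type} [Finite ι] {c : Qb} (hc : c ≠ 0) (v : ι → Qb) :
    hv (fun i => c * v i) = hv v := by
  have := hv_smul c hc v
  convert this using 1

/-- every pair of independent elements of the plane is a basis -/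
lemma bas_of {y : κ → Qb} {α β : ι → Qb} (h : X.Bas y α β) {α' β' : ι → Qb}
    (hα : α' ∈ X.E y) (hβ : β' ∈ X.E y) (hne : Pl α' β' ≠ 0) : X.Bas y α' β' := by
  obtain ⟨z, rfl⟩ := (h.2 _).mp hα
  obtain ⟨z', rfl⟩ := (h.2 _).mp hβ
  refine ⟨hne, fun w => ?_⟩
  rw [Pl_pt] at hne
  have hbr := Pl_smul_ne hne
  rw [h.2]
  constructor
  · rintro ⟨x, rfl⟩
    refine ⟨![br x z' / br z z', br z x / br z z'], ?_⟩
    funext i
    simp only [pt, Matrix.cons_val_zero, Matrix.cons_val_one]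
    field_simp
    simp only [br]
    ring
  · rintro ⟨x, rfl⟩
    refine ⟨fun i => x 0 * z i + x 1 * z' i, ?_⟩
    funext i
    simp only [pt]
    ring

lemma bas_mem {y : κ → Qb} {α β : ι → Qb} (h : X.Bas y α β) (z : Fin 2 → Qb) :
    pt α β z ∈ X.E y := (h.2 _).mpr ⟨z, rfl⟩

lemma bas_hv {y : κ → Qb} {α β α' β' : ι → Qb} (h : X.Bas y α β) (h' : X.Bas y α' β') :
    hv (Pl α β) = hv (Pl α' β') := by
  have h1 : α' ∈ X.E y := by
    have := X.bas_mem h' ![1, 0]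
    convert this using 1
    funext i
    simp [pt]
  have h2 : β' ∈ X.E y := by
    have := X.bas_mem h' ![0, 1]
    convert this using 1
    funext i
    simp [pt]
  obtain ⟨z, rfl⟩ := (h.2 _).mp h1
  obtain ⟨z', rfl⟩ := (h.2 _).mp h2
  have hne := h'.1
  rw [Pl_pt] at hne ⊢
  exact (hv_smul' (Pl_smul_ne hne) _).symm

lemma pt_ne {α β : ι → Qb} {z : Fin 2 → Qb} (h : Pl α β ≠ 0) : pt α β z ≠ 0 ↔ z ≠ 0 := by
  constructor
  · rintro h1 rfl
    apply h1
    funext i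
    simp [pt]
  · intro h1 h2
    apply h1
    obtain ⟨⟨k, l⟩, hkl⟩ := Function.ne_iff.mp h
    simp only [Pl, Pi.zero_apply] at hkl
    have e1 := congrFun h2 k
    have e2 := congrFun h2 l
    simp only [pt, Pi.zero_apply] at e1 e2
    funext i
    apply mul_right_cancel₀ hkl
    fin_cases i
    · simp only [Fin.zero_eta, Pi.zero_apply, zero_mul]
      linear_combination (β l) * e1 - (β k) * e2
    · simp only [Fin.mk_one, Pi.zero_apply, zero_mul]
      linear_combination (α k) * e2 - (α l) * e1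

/-- the height of the Plücker vector of the plane over `y` -/
noncomputable def hp (y : κ → Qb) : ℝ := by
  classical
  exact if h : ∃ q : (ι → Qb) × (ι → Qb), X.Bas y q.1 q.2 then hv (Pl h.choose.1 h.choose.2) else 0

lemma hp_eq {y : κ → Qb} {α β : ι → Qb} (h : X.Bas y α β) : X.hp y = hv (Pl α β) := by
  have hex : ∃ q : (ι → Qb) × (ι → Qb), X.Bas y q.1 q.2 := ⟨(α, β), h⟩
  rw [hp, dif_pos hex]
  exact X.bas_hv hex.choose_spec h

/-- the incidence forms -/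
noncomputable def inc (c : X.Ch) (k l m : ι) : MvPolynomial (κ ⊕ ι) Qb :=
  subp (X.u c) (X.v c) (X' (k, l)) * MvPolynomial.X (Sum.inr m) -
  subp (X.u c) (X.v c) (X' (k, m)) * MvPolynomial.X (Sum.inr l) +
  subp (X.u c) (X.v c) (X' (l, m)) * MvPolynomial.X (Sum.inr k)
where X' (p : ι × ι) : MvPolynomial (κ ⊕ ((ι × ι) ⊕ ι)) Qb := MvPolynomial.X (Sum.inr (Sum.inl p))

lemma inc_hom (c : X.Ch) (k l m : ι) : WH1 (X.inc c k l m) (X.e c + X.e c) 1 := by
  have h : ∀ p : ι × ι, WH1 (subp (X.u c) (X.v c) (inc.X' p)) (X.e c + X.e c) 0 := fun p => by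
    have := WH1_subp (X.hu c) (X.hvv c) (WH2_p (κ := κ) p)
    exact this.cast (by ring) rfl
  exact (((h (k, l)).mul (WH1_w m)).cast (by ring) (by ring)).sub
    (((h (k, m)).mul (WH1_w l)).cast (by ring) (by ring)) |>.add
    (((h (l, m)).mul (WH1_w k)).cast (by ring) (by ring))

lemma inc_eval (c : X.Ch) (k l m : ι) (y : κ → Qb) (w : ι → Qb) :
    eval (zz1 y w) (X.inc c k l m) = Pl (vev (X.u c) y) (vev (X.v c) y) (k, l) * w m -
      Pl (vev (X.u c) y) (vev (X.v c) y) (k, m) * w l +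
      Pl (vev (X.u c) y) (vev (X.v c) y) (l, m) * w k := by
  have h : ∀ p : ι × ι, eval (zz1 y w) (subp (X.u c) (X.v c) (inc.X' p)) =
      Pl (vev (X.u c) y) (vev (X.v c) y) p := fun p => by
    rw [subp_eval]
    simp [inc.X', zz2]
  rw [inc, map_add, map_sub, map_mul, map_mul, map_mul, h, h, h]
  simp [zz1]

/-- the equations of the bundle -/
noncomputable def SX : Set (MvPolynomial (κ ⊕ ι) Qb) :=
  {P | ∃ Q ∈ X.SY, P = bind₁ (fun k => MvPolynomial.X (Sum.inl k)) Q} ∪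
  {P | ∃ c k l m, P = X.inc c k l m}

lemma SX_hom : ∀ P ∈ X.SX, ∃ d, IsWeightedHomogeneous (wt g1) P d := by
  rintro P (⟨Q, hQ, rfl⟩ | ⟨c, k, l, m, rfl⟩)
  · obtain ⟨d, hd⟩ := X.hSY Q hQ
    exact ⟨_, WH1_inl hd⟩
  · exact ⟨_, X.inc_hom c k l m⟩

lemma mem_SX {y : κ → Qb} {w : ι → Qb} (hy : y ≠ 0) :
    (∀ P ∈ X.SX, eval (zz1 y w) P = 0) ↔ y ∈ X.Y ∧ w ∈ X.E y := by
  constructor
  · intro h
    have hyY : y ∈ X.Y := by
      refine ⟨hy, fun P hP => ?_⟩
      have := h _ (Or.inl ⟨P, hP, rfl⟩)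
      rwa [inl_eval] at this
    refine ⟨hyY, ?_⟩
    obtain ⟨c, hc, hE⟩ := X.exists_bas hyY
    rw [hE]
    obtain ⟨⟨k, l⟩, hkl⟩ := Function.ne_iff.mp hc
    simp only [Pl, Pi.zero_apply] at hkl
    set α := vev (X.u c) y
    set β := vev (X.v c) y
    refine ⟨![(w k * β l - w l * β k) / (α k * β l - α l * β k),
      (α k * w l - α l * w k) / (α k * β l - α l * β k)], ?_⟩
    funext m
    have h1 := h _ (Or.inr ⟨c, k, l, m, rfl⟩)
    rw [inc_eval] at h1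
    simp only [Pl] at h1
    simp only [pt, Matrix.cons_val_zero, Matrix.cons_val_one]
    rw [div_mul_eq_mul_div, div_mul_eq_mul_div, ← add_div, eq_div_iff hkl]
    linear_combination h1
  · rintro ⟨hyY, hw⟩ P (⟨Q, hQ, rfl⟩ | ⟨c, k, l, m, rfl⟩)
    · rw [inl_eval]
      exact hyY.2 Q hQ
    · rw [inc_eval]
      obtain ⟨c', hc', hE⟩ := X.exists_bas hyY
      obtain ⟨h1, h2⟩ := X.memU y hyY.1 hyY.2 c
      obtain ⟨z1, hz1⟩ := (hE _).mp h1
      obtain ⟨z2, hz2⟩ := (hE _).mp h2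
      obtain ⟨z3, hz3⟩ := (hE _).mp hw
      rw [hz1, hz2, hz3]
      simp only [Pl, pt]
      ring

end Bdl

end Pool.Agent.H913
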