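import Pool.Agent.H913.Uni

/-!
# Binary forms: coprimality and the characterisation of the monomial maps
-/

set_option autoImplicit false
set_option linter.unusedSectionVars false

namespace Pool.Agent.H913

open Pool.Agent.V11286.AbsHeight Height NumberField Module MvPolynomial

/-- the binary forms `A` and `B` have no common zero -/
def NoZ (A B : S2) : Prop := ∀ z : Fin 2 → Qb, z ≠ 0 → ¬ (eval z A = 0 ∧ eval z B = 0)

lemma exists_zero {B : S2} {n : ℕ} (hB : B.IsHomogeneous (n + 1)) :
    ∃ z : Fin 2 → Qb, z ≠ 0 ∧ eval z B = 0 := by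
  by_cases h : B = 0
  · refine ⟨![1, 0], ?_, by rw [h, map_zero]⟩
    intro h
    have := congrFun h 0
    simp at this
  · obtain ⟨v, c, hc, hv0, hev⟩ := factor hB h
    refine ⟨v 0, hv0 0, ?_⟩
    rw [hev]
    rw [Finset.prod_eq_zero (Finset.mem_univ 0), mul_zero]
    simp only [br]
    ring

lemma comb_ne {α β : Fin 2 → Qb} (h : br α β ≠ 0) (x : Qb) : (fun i => x * α i + β i) ≠ 0 := by
  intro hi
  apply h
  have e0 := congrFun hi 0
  have e1 := congrFun hi 1
  simp only [Pi.zero_apply] at e0 e1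
  rw [br]
  linear_combination (α 0) * e1 - (α 1) * e0

lemma line_coprime {A B : S2} (hAB : NoZ A B) {α β : Fin 2 → Qb} (h : br α β ≠ 0) :
    IsCoprime (ln α β A) (ln α β B) := by
  rw [Polynomial.isCoprime_iff_aeval_ne_zero_of_isAlgClosed (k := Qb) (K := Qb)]
  intro x
  rw [Polynomial.coe_aeval_eq_eval, ln_eval, ln_eval]
  exact not_and_or.mp (hAB _ (comb_ne h x))

lemma good_line {A B : S2} {n : ℕ} (hA : A.IsHomogeneous (n + 1)) (hB : B.IsHomogeneous (n + 1))
    (hAB : NoZ A B) : ∃ α β, br α β ≠ 0 ∧ (ln α β A).natDegree = n + 1 := by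
  have hA0 : A ≠ 0 := by
    rintro rfl
    obtain ⟨z, hz, hz2⟩ := exists_zero hB
    exact hAB z hz ⟨map_zero _, hz2⟩
  obtain ⟨α, hα⟩ := exists_ne hA0
  have hα0 : α ≠ 0 := by
    rintro rfl
    exact hα (eval_zero_hom (Nat.succ_ne_zero n) hA)
  obtain ⟨β, hβ⟩ := exists_compl hα0
  refine ⟨α, β, hβ, ?_⟩
  obtain ⟨h1, h2⟩ := ln_hom hA α β
  apply le_antisymm h1
  apply Polynomial.le_natDegree_of_ne_zero
  rw [h2]
  exact hα

/-- proportional pairs of forms of the same degree -/
lemma cop {A B A' B' : S2} {n : ℕ} (hA : A.IsHomogeneous (n + 1)) (hB : B.IsHomogeneous (n + 1))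
    (hA' : A'.IsHomogeneous (n + 1)) (hB' : B'.IsHomogeneous (n + 1))
    (hAB : NoZ A B) (h : A' * B = B' * A) : ∃ τ : Qb, A' = C τ * A ∧ B' = C τ * B := by
  obtain ⟨α, β, hαβ, hdeg⟩ := good_line hA hB hAB
  have hcop := line_coprime hAB hαβ
  have h1 : ln α β A' * ln α β B = ln α β B' * ln α β A := by
    rw [← map_mul, h, map_mul]
  have h2 : ln α β A ∣ ln α β A' := by
    apply hcop.dvd_of_dvd_mul_right
    rw [h1]
    exact dvd_mul_left _ _
  obtain ⟨k, hk⟩ := h2
  have ha0 : ln α β A ≠ 0 := by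
    intro h0
    rw [h0] at hdeg
    simp at hdeg
  have hkdeg : k.natDegree = 0 := by
    by_cases hk0 : k = 0
    · rw [hk0]; simp
    · have h4 := congrArg Polynomial.natDegree hk
      rw [Polynomial.natDegree_mul ha0 hk0, hdeg] at h4
      have h5 := (ln_hom hA' α β).1
      omega
  rw [Polynomial.natDegree_eq_zero] at hkdeg
  obtain ⟨τ, rfl⟩ := hkdeg
  have hC : ln α β (C τ) = Polynomial.C τ := by simp [ln]
  refine ⟨τ, ?_, ?_⟩
  · rw [← sub_eq_zero]
    apply line_zero (n := n + 1) (hA'.sub (by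
      have := (isHomogeneous_C (Fin 2) τ).mul hA
      simpa using this)) hαβ
    rw [map_sub, map_mul, hC, hk]
    ring
  · rw [← sub_eq_zero]
    apply line_zero (n := n + 1) (hB'.sub (by
      have := (isHomogeneous_C (Fin 2) τ).mul hB
      simpa using this)) hαβ
    rw [map_sub, map_mul, hC]
    have h6 : (ln α β B' - Polynomial.C τ * ln α β B) * ln α β A = 0 := by
      rw [hk] at h1
      linear_combination -h1
    exact (mul_eq_zero.mp h6).resolve_right ha0

/-- the point `z` is alone in its fibre -/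
def Alone (A B : S2) (z : Fin 2 → Qb) : Prop :=
  ∀ w : Fin 2 → Qb, eval w A * eval z B - eval w B * eval z A = 0 → br w z = 0

lemma ln_W2 (α β : Fin 2 → Qb) : ln α β (W2 (α 1) (-(α 0))) = Polynomial.C (-(br α β)) := by
  simp only [ln, W2, map_add, map_mul, aeval_X, algHom_C, Polynomial.algebraMap_eq, br, map_neg, map_sub]
  ring

lemma ln_C (α β : Fin 2 → Qb) (c : Qb) : ln α β (C c) = Polynomial.C c := by simp [ln]

lemma ln_I1 {A B : S2} {n : ℕ} (hA : A.IsHomogeneous n) (hB : B.IsHomogeneous n)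
    (α β : Fin 2 → Qb) :
    (n : Polynomial Qb) * (ln α β A * Polynomial.derivative (ln α β B) -
      Polynomial.derivative (ln α β A) * ln α β B) =
      Polynomial.C (-(br α β)) * ln α β (Jac A B) := by
  have h := congrArg (ln α β) (I1 hA hB (α 1) (-(α 0)))
  rw [map_mul, map_mul, map_sub, map_mul, map_mul, ln_W2, map_natCast, ← ln_deriv, ← ln_deriv] at h
  rw [← h]
  ring

lemma Jac_ne {A B : S2} {n : ℕ} (hA : A.IsHomogeneous (n + 1)) (hB : B.IsHomogeneous (n + 1))
    (hAB : NoZ A B) : Jac A B ≠ 0 := by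
  intro h0
  obtain ⟨α, β, hαβ, hdeg⟩ := good_line hA hB hAB
  have hcop := line_coprime hAB hαβ
  have h1 := ln_I1 hA hB α β
  rw [h0, map_zero, mul_zero, mul_eq_zero] at h1
  have h2 := h1.resolve_left (by exact_mod_cast Nat.succ_ne_zero n)
  have h3 : ln α β A ∣ Polynomial.derivative (ln α β A) := by
    apply hcop.dvd_of_dvd_mul_right
    rw [← sub_eq_zero.mp h2]
    exact dvd_mul_right _ _
  have h4 : Polynomial.derivative (ln α β A) = 0 := by
    by_contra hne
    have h5 := Polynomial.natDegree_le_of_dvd h3 hne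
    have h6 := Polynomial.natDegree_derivative_lt (p := ln α β A) (by omega)
    omega
  have h7 := Polynomial.derivative_eq_zero.mp h4
  omega

lemma alone_aux {A B : S2} {n : ℕ} (hA : A.IsHomogeneous n) (hB : B.IsHomogeneous n)
    {α β : Fin 2 → Qb} (hαβ : br α β ≠ 0) {q : Qb}
    (h1 : ∀ x, (Polynomial.C ((ln α β B).eval q) * ln α β A -
      Polynomial.C ((ln α β A).eval q) * ln α β B).eval x = 0 → x = q)
    (h2 : (Polynomial.C ((ln α β B).eval q) * ln α β A -
      Polynomial.C ((ln α β A).eval q) * ln α β B).coeff n ≠ 0) (w : Fin 2 → Qb)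
    (hw : eval w A * eval (fun i => q * α i + β i) B -
      eval w B * eval (fun i => q * α i + β i) A = 0) :
    br w (fun i => q * α i + β i) = 0 := by
  obtain ⟨μ, x, hμ, rfl⟩ | ⟨μ, rfl⟩ := dich hαβ w
  · rw [eval_smul_hom hA μ (fun i => x * α i + β i),
      eval_smul_hom hB μ (fun i => x * α i + β i)] at hw
    have h3 : (Polynomial.C ((ln α β B).eval q) * ln α β A -
      Polynomial.C ((ln α β A).eval q) * ln α β B).eval x = 0 := by
      simp only [Polynomial.eval_sub, Polynomial.eval_mul, Polynomial.eval_C, ln_eval]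
      have h4 : μ ^ n ≠ 0 := pow_ne_zero _ hμ
      apply mul_left_cancel₀ h4
      linear_combination hw
    rw [h1 x h3]
    simp only [br]
    ring
  · rw [eval_smul_hom hA, eval_smul_hom hB] at hw
    by_cases hμ : μ = 0
    · simp [br, hμ]
    exfalso
    apply h2
    simp only [Polynomial.coeff_sub, Polynomial.coeff_C_mul, ln_eval, (ln_hom hA α β).2,
      (ln_hom hB α β).2]
    have h4 : μ ^ n ≠ 0 := pow_ne_zero _ hμ
    apply mul_left_cancel₀ h4
    linear_combination hw

/-- **The algebraic lemma.** If the absolute covariant of the Jacobian of `(A, B)` is constant,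
then `(A, B)` has two totally ramified points. -/
theorem two_tot {A B : S2} {l : ℕ} (hA : A.IsHomogeneous (l + 2)) (hB : B.IsHomogeneous (l + 2))
    (hAB : NoZ A B)
    (hcase : Hes (Jac A B) = 0 ∨ ∃ r, Jac (Jac A B) (Hes (Jac A B)) ^ 2 = C r * Hes (Jac A B) ^ 3) :
    ∃ z₁ z₂, br z₁ z₂ ≠ 0 ∧ Alone A B z₁ ∧ Alone A B z₂ := by
  set J := Jac A B with hJ
  set H := Hes J with hH
  have hJ0 : J ≠ 0 := Jac_ne hA hB hAB
  have hJhom : J.IsHomogeneous (2 * l + 2) := by
    have := Jac_hom hA hB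
    convert this using 1
    ring
  have hHhom : H.IsHomogeneous (2 * l + 2 * l) := Hes_hom hJhom
  -- a generic point
  obtain ⟨α, hαJ, hαH⟩ : ∃ α, eval α J ≠ 0 ∧ (H ≠ 0 → eval α H ≠ 0) := by
    by_cases hH0 : H = 0
    · obtain ⟨α, hα⟩ := exists_ne hJ0
      exact ⟨α, hα, fun h => absurd hH0 h⟩
    · obtain ⟨α, hα⟩ := exists_ne (mul_ne_zero hJ0 hH0)
      rw [map_mul] at hα
      exact ⟨α, left_ne_zero_of_mul hα, fun _ => right_ne_zero_of_mul hα⟩
  have hα0 : α ≠ 0 := by
    rintro rfl
    exact hαJ (eval_zero_hom (by omega) hJhom)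
  obtain ⟨β, hβ⟩ := exists_compl hα0
  set δ := br α β with hδ
  set a := ln α β A with ha
  set b := ln α β B with hb
  -- the three identities
  have e1 := ln_I1 hA hB α β
  rw [← hJ, ← ha, ← hb, ← hδ] at e1
  have e2 := congrArg (ln α β) (I2 (n := 2 * l + 1) hJhom (α 1) (-(α 0)))
  rw [map_mul, map_sub, map_mul, map_mul, map_mul, map_pow, map_mul, map_pow, ln_W2, map_natCast,
    map_natCast, ← ln_deriv, ← ln_deriv, ← hδ, ← hH] at e2
  have e3 := congrArg (ln α β) (I3 hJhom hHhom (α 1) (-(α 0)))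
  rw [map_sub, map_mul, map_mul, map_mul, map_mul, map_neg, map_mul, ln_W2, map_natCast,
    map_natCast, ← ln_deriv, ← ln_deriv, ← hδ] at e3
  set jj := ln α β J with hjj
  set hh := ln α β H with hhh
  set j := a * Polynomial.derivative b - Polynomial.derivative a * b with hj
  have hn0 : ((l + 2 : ℕ) : Qb) ≠ 0 := by exact_mod_cast (by omega : l + 2 ≠ 0)
  have hm0 : ((2 * l + 1 : ℕ) : Qb) ≠ 0 := by exact_mod_cast (by omega : 2 * l + 1 ≠ 0)
  set k1 : Qb := -δ / ((l + 2 : ℕ) : Qb) with hk1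
  have hk10 : k1 ≠ 0 := div_ne_zero (neg_ne_zero.mpr hβ) hn0
  have hnat : ∀ n : ℕ, (n : Polynomial Qb) = Polynomial.C (n : Qb) := fun n => by simp
  have hjk : j = Polynomial.C k1 * jj := by
    have h1 : Polynomial.C ((l + 2 : ℕ) : Qb) * j = Polynomial.C ((l + 2 : ℕ) : Qb) *
        (Polynomial.C k1 * jj) := by
      rw [← hnat, e1, ← mul_assoc, hnat, ← Polynomial.C_mul, hk1, mul_div_cancel₀ _ hn0]
    exact mul_left_cancel₀ (Polynomial.C_ne_zero.mpr hn0) h1
  set k2 : Qb := k1 ^ 2 * δ ^ 2 / ((2 * l + 1 : ℕ) : Qb) with hk2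
  have hk20 : k2 ≠ 0 := div_ne_zero (mul_ne_zero (pow_ne_zero _ hk10) (pow_ne_zero _ hβ)) hm0
  set h : Polynomial Qb := ((2 * l + 1 + 1 : ℕ) : Polynomial Qb) * (j * Polynomial.derivative (Polynomial.derivative j)) -
      ((2 * l + 1 : ℕ) : Polynomial Qb) * Polynomial.derivative j ^ 2 with hdef
  have hhk : h = Polynomial.C k2 * hh := by
    have h1 : Polynomial.C ((2 * l + 1 : ℕ) : Qb) * h = Polynomial.C ((2 * l + 1 : ℕ) : Qb) *
        (Polynomial.C k2 * hh) := by
      rw [← mul_assoc, ← Polynomial.C_mul, hk2, mul_div_cancel₀ _ hm0, Polynomial.C_mul,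
        Polynomial.C_pow, Polynomial.C_pow]
      rw [Polynomial.C_neg] at e2
      rw [hdef, hjk]
      simp only [Polynomial.derivative_C_mul]
      rw [← hnat]
      linear_combination (Polynomial.C k1) ^ 2 * e2
    exact mul_left_cancel₀ (Polynomial.C_ne_zero.mpr hm0) h1
  have hjjdeg : jj.natDegree = 2 * l + 2 := by
    obtain ⟨h1, h2⟩ := ln_hom hJhom α β
    apply le_antisymm h1
    apply Polynomial.le_natDegree_of_ne_zero
    rw [h2]
    exact hαJ
  have main := two_roots (a := a) (b := b) (n := 2 * l + 1) (lam := l + 2) (by ring)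
    (ln_hom hA α β).1 (ln_hom hB α β).1 (fun q hq => by
      rw [ha, hb, ln_eval, ln_eval] at hq
      exact hAB _ (comb_ne hβ q) hq) (j := j) (h := h) hj
    (by rw [hjk, Polynomial.natDegree_C_mul hk10, hjjdeg]) hdef (by
      by_cases hH0 : H = 0
      · left
        rw [hhk, hhh, hH0, map_zero, mul_zero]
      · right
        constructor
        · rw [hhk, Polynomial.natDegree_C_mul hk20]
          obtain ⟨h1, h2⟩ := ln_hom hHhom α β
          have h3 : hh.natDegree = 2 * l + 2 * l := by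
            apply le_antisymm h1
            apply Polynomial.le_natDegree_of_ne_zero
            rw [h2]
            exact hαH hH0
          rw [h3]
          omega
        · obtain ⟨r, hr⟩ := hcase.resolve_left hH0
          obtain ⟨r', h5⟩ : ∃ r' : Qb, Polynomial.C r' * Polynomial.C k2 ^ 3 =
              Polynomial.C (k1 * k2 * δ) ^ 2 * Polynomial.C r := by
            refine ⟨(k1 * k2 * δ) ^ 2 * r / k2 ^ 3, ?_⟩
            rw [← Polynomial.C_pow, ← Polynomial.C_mul, div_mul_cancel₀ _ (pow_ne_zero _ hk20),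
              Polynomial.C_mul, Polynomial.C_pow]
          refine ⟨2 * l + 2 * l, r', ?_⟩
          have hr' := congrArg (ln α β) hr
          rw [map_mul, map_pow, map_pow, ln_C, ← hhh] at hr'
          have h4 : ((2 * l + 2 * l : ℕ) : Polynomial Qb) * (Polynomial.derivative j * h) -
              ((2 * l + 1 + 1 : ℕ) : Polynomial Qb) * (j * Polynomial.derivative h) =
              Polynomial.C (k1 * k2 * δ) * ln α β (Jac J H) := by
            rw [hjk, hhk]
            simp only [Polynomial.derivative_C_mul]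
            rw [Polynomial.C_neg] at e3
            rw [Polynomial.C_mul, Polynomial.C_mul]
            have e3' := e3
            linear_combination (Polynomial.C k1 * Polynomial.C k2) * e3
          rw [h4, mul_pow, hr', hhk, mul_pow]
          linear_combination (-(hh ^ 3)) * h5)
  obtain ⟨q1, q2, hne, hq⟩ := main
  refine ⟨fun i => q1 * α i + β i, fun i => q2 * α i + β i, ?_, ?_, ?_⟩
  · have : br (fun i => q1 * α i + β i) (fun i => q2 * α i + β i) = (q1 - q2) * δ := by
      simp only [br, hδ]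
      ring
    rw [this]
    exact mul_ne_zero (sub_ne_zero.mpr hne) hβ
  all_goals
    rw [Alone]
    intro w hw
  · obtain ⟨h1, h2⟩ := hq q1 (by simp)
    exact alone_aux hA hB hβ h1 h2 w hw
  · obtain ⟨h1, h2⟩ := hq q2 (by simp)
    exact alone_aux hA hB hβ h1 h2 w hw

end Pool.Agent.H913
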