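import Pool.Agent.H913.Line

/-!
# Univariate computations with root multiplicities
-/

set_option autoImplicit false
set_option linter.unusedSectionVars false

namespace Pool.Agent.H913

open Pool.Agent.V11286.AbsHeight Height NumberField Module
open Polynomial

lemma rm_of {f g : Qb[X]} {q : Qb} {a b : ℕ} (hg : g.eval q ≠ 0)
    (h : (X - C q) ^ a * f = (X - C q) ^ b * g) : f ≠ 0 ∧ a + f.rootMultiplicity q = b := by
  have hX : (X - C q : Qb[X]) ≠ 0 := X_sub_C_ne_zero q
  have hg0 : g ≠ 0 := by
    rintro rfl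
    simp at hg
  have hf : f ≠ 0 := by
    rintro rfl
    rw [mul_zero] at h
    exact mul_ne_zero (pow_ne_zero _ hX) hg0 h.symm
  refine ⟨hf, ?_⟩
  have h1 := congrArg (rootMultiplicity q) h
  rw [rootMultiplicity_mul (mul_ne_zero (pow_ne_zero _ hX) hf),
    rootMultiplicity_mul (mul_ne_zero (pow_ne_zero _ hX) hg0), rootMultiplicity_X_sub_C_pow,
    rootMultiplicity_X_sub_C_pow, rootMultiplicity_eq_zero hg, add_zero] at h1
  exact h1

lemma decomp {f : Qb[X]} (hf : f ≠ 0) (q : Qb) :
    ∃ k : Qb[X], f = (X - C q) ^ (f.rootMultiplicity q) * k ∧ k.eval q ≠ 0 := by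
  obtain ⟨k, hk, hk2⟩ := exists_eq_pow_rootMultiplicity_mul_and_not_dvd f hf q
  refine ⟨k, hk, fun h => hk2 ?_⟩
  exact dvd_iff_isRoot.mpr h

lemma dL (q : Qb) (m : ℕ) (r : Qb[X]) :
    (X - C q) * derivative ((X - C q) ^ m * r) =
      (X - C q) ^ m * ((m : Qb[X]) * r + (X - C q) * derivative r) := by
  rw [derivative_mul, derivative_pow]
  rcases m with _ | m
  · simp
  · simp
    ring

/-- the order of the Hessian at a root -/
lemma rm_hess {j : Qb[X]} {n m : ℕ} {q : Qb} (hj : j ≠ 0) (hm : j.rootMultiplicity q = m)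
    (hm0 : m ≠ 0) (hmN : m ≠ n + 1) :
    ((n + 1 : ℕ) : Qb[X]) * (j * derivative (derivative j)) - (n : Qb[X]) * derivative j ^ 2 ≠ 0 ∧
    2 + (((n + 1 : ℕ) : Qb[X]) * (j * derivative (derivative j)) -
      (n : Qb[X]) * derivative j ^ 2).rootMultiplicity q = 2 * m := by
  obtain ⟨k, hk, hkq⟩ := decomp hj q
  rw [hm] at hk
  set L : Qb[X] := X - C q with hL
  have h1 : L * derivative j = L ^ m * ((m : Qb[X]) * k + L * derivative k) := by
    rw [hk]
    exact dL q m k
  have h2 : L ^ 2 * derivative (derivative j) = L ^ m * (((m : Qb[X]) ^ 2 - m) * k +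
      2 * m * (L * derivative k) + L ^ 2 * derivative (derivative k)) := by
    have h3 : derivative (L * derivative j) = derivative j + L * derivative (derivative j) := by
      rw [derivative_mul, hL]
      simp
    have h4 : L * derivative (L * derivative j) =
        L ^ m * ((m : Qb[X]) * ((m : Qb[X]) * k + L * derivative k) +
          L * derivative ((m : Qb[X]) * k + L * derivative k)) := by
      rw [h1]
      exact dL q m _
    have h5 : derivative ((m : Qb[X]) * k + L * derivative k) =
        (m : Qb[X]) * derivative k + derivative k + L * derivative (derivative k) := by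
      rw [derivative_add, derivative_mul, derivative_mul, hL]
      simp
      ring
    rw [h5] at h4
    have h6 : L ^ 2 * derivative (derivative j) =
        L * derivative (L * derivative j) - L * derivative j := by
      rw [h3]; ring
    rw [h6, h4, h1]
    ring
  apply rm_of (g := ((n + 1 : ℕ) : Qb[X]) * (k * (((m : Qb[X]) ^ 2 - m) * k +
      2 * m * (L * derivative k) + L ^ 2 * derivative (derivative k))) -
      (n : Qb[X]) * ((m : Qb[X]) * k + L * derivative k) ^ 2)
  · simp only [hL, eval_sub, eval_mul, eval_add, eval_pow, eval_natCast, eval_X, eval_C, sub_self,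
      zero_mul, mul_zero, add_zero, eval_ofNat]
    have : ((n + 1 : ℕ) : Qb) * (eval q k * ((((m : Qb) ^ 2 - m) * eval q k) + 0 ^ 2 * eval q (derivative (derivative k)))) -
        (n : Qb) * ((m : Qb) * eval q k) ^ 2 = (eval q k) ^ 2 * m * (m - (n + 1 : ℕ)) := by
      push_cast
      ring
    rw [this]
    refine mul_ne_zero (mul_ne_zero (pow_ne_zero _ hkq) (Nat.cast_ne_zero.mpr hm0)) ?_
    rw [sub_ne_zero]
    exact_mod_cast hmN
  · have : L ^ 2 * (((n + 1 : ℕ) : Qb[X]) * (j * derivative (derivative j)) -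
        (n : Qb[X]) * derivative j ^ 2) =
        ((n + 1 : ℕ) : Qb[X]) * (j * (L ^ 2 * derivative (derivative j))) -
          (n : Qb[X]) * (L * derivative j) ^ 2 := by ring
    rw [this, h2, h1]
    nth_rewrite 1 [hk]
    ring

/-- away from the roots of `j` the Hessian cannot vanish -/
lemma hess_ne {j h : Qb[X]} {N M : ℕ} {q r : Qb} (hN : N ≠ 0) (hh : h ≠ 0) (hjq : j.eval q ≠ 0)
    (hr : ((M : Qb[X]) * (derivative j * h) - (N : Qb[X]) * (j * derivative h)) ^ 2 = C r * h ^ 3) :
    h.eval q ≠ 0 := by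
  intro h0
  obtain ⟨k, hk, hkq⟩ := decomp hh q
  set m := h.rootMultiplicity q with hm
  have hm0 : m ≠ 0 := by
    have : 0 < m := (rootMultiplicity_pos hh).mpr h0
    omega
  set L : Qb[X] := X - C q with hL
  set t := (M : Qb[X]) * (derivative j * h) - (N : Qb[X]) * (j * derivative h) with ht
  have h1 : L * derivative h = L ^ m * ((m : Qb[X]) * k + L * derivative k) := by
    rw [hk]
    exact dL q m k
  obtain ⟨ht0, ht1⟩ : t ≠ 0 ∧ 1 + t.rootMultiplicity q = m := by
    apply rm_of (g := (M : Qb[X]) * (derivative j * (L * k)) -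
      (N : Qb[X]) * (j * ((m : Qb[X]) * k + L * derivative k)))
    · simp only [hL, eval_sub, eval_mul, eval_add, eval_natCast, eval_X, eval_C, sub_self,
        zero_mul, mul_zero, add_zero, zero_sub]
      refine neg_ne_zero.mpr (mul_ne_zero (Nat.cast_ne_zero.mpr hN) (mul_ne_zero hjq
        (mul_ne_zero (Nat.cast_ne_zero.mpr hm0) hkq)))
    · have : L ^ 1 * t = (M : Qb[X]) * (derivative j * (L * h)) -
          (N : Qb[X]) * (j * (L * derivative h)) := by
        rw [ht]; ring
      rw [this, h1]
      nth_rewrite 1 [hk]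
      ring
  have h2 : C r * h ^ 3 ≠ 0 := by
    rw [← hr]
    exact pow_ne_zero _ ht0
  have h3 := congrArg (rootMultiplicity q) hr
  rw [rootMultiplicity_mul h2, rootMultiplicity_C, zero_add, pow_two,
    rootMultiplicity_mul (mul_ne_zero ht0 ht0), pow_three, rootMultiplicity_mul
      (mul_ne_zero hh (mul_ne_zero hh hh)), rootMultiplicity_mul (mul_ne_zero hh hh), ← hm] at h3
  omega

/-- the multiplicities of the Jacobian and of the fibres -/
lemma rm_jac {a b : Qb[X]} {lam : ℕ} (ha : a.natDegree ≤ lam) (hb : b.natDegree ≤ lam)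
    {q : Qb} (hab : ¬ (a.eval q = 0 ∧ b.eval q = 0))
    (hj : a * derivative b - derivative a * b ≠ 0) :
    (C (b.eval q) * a - C (a.eval q) * b) ≠ 0 ∧
    (C (b.eval q) * a - C (a.eval q) * b).natDegree ≤ lam ∧
    (a * derivative b - derivative a * b).rootMultiplicity q + 1 =
      (C (b.eval q) * a - C (a.eval q) * b).rootMultiplicity q := by
  set P := C (b.eval q) * a - C (a.eval q) * b with hP
  set j := a * derivative b - derivative a * b with hjdef
  have e1 : C (b.eval q) * j = P * derivative b - derivative P * b := by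
    rw [hP, hjdef]
    simp only [derivative_sub, derivative_mul, derivative_C]
    ring
  have e2 : C (a.eval q) * j = P * derivative a - derivative P * a := by
    rw [hP, hjdef]
    simp only [derivative_sub, derivative_mul, derivative_C]
    ring
  have hP0 : P ≠ 0 := by
    intro h
    rw [h] at e1 e2
    simp only [zero_mul, derivative_zero, sub_zero, mul_eq_zero, C_eq_zero, hj, or_false] at e1 e2
    exact hab ⟨e2, e1⟩
  have hdeg : P.natDegree ≤ lam := by
    rw [hP]
    refine le_trans (natDegree_sub_le _ _) (max_le ?_ ?_)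
    · exact le_trans (natDegree_C_mul_le _ _) ha
    · exact le_trans (natDegree_C_mul_le _ _) hb
  refine ⟨hP0, hdeg, ?_⟩
  have hPq : P.eval q = 0 := by
    rw [hP]
    simp
    ring
  obtain ⟨k, hk, hkq⟩ := decomp hP0 q
  set e := P.rootMultiplicity q with he
  have he0 : e ≠ 0 := by
    have : 0 < e := (rootMultiplicity_pos hP0).mpr hPq
    omega
  set L : Qb[X] := X - C q with hL
  have h1 : L * derivative P = L ^ e * ((e : Qb[X]) * k + L * derivative k) := by
    rw [hk]
    exact dL q e k
  have key : ∀ (f : Qb[X]) (c : Qb), f.eval q ≠ 0 → c ≠ 0 →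
      C c * j = P * derivative f - derivative P * f → j.rootMultiplicity q + 1 = e := by
    intro f c hf hc hcj
    have h2 : (C c * j) ≠ 0 ∧ 1 + (C c * j).rootMultiplicity q = e := by
      apply rm_of (g := L * k * derivative f - ((e : Qb[X]) * k + L * derivative k) * f)
      · simp only [hL, eval_sub, eval_mul, eval_add, eval_natCast, eval_X, eval_C, sub_self,
          zero_mul, add_zero, zero_sub]
        exact neg_ne_zero.mpr (mul_ne_zero (mul_ne_zero (Nat.cast_ne_zero.mpr he0) hkq) hf)
      · have : L ^ 1 * (C c * j) = L * P * derivative f - (L * derivative P) * f := by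
          rw [hcj]; ring
        rw [this, h1]
        nth_rewrite 1 [hk]
        ring
    rw [rootMultiplicity_mul h2.1, rootMultiplicity_C] at h2
    omega
  by_cases hbq : b.eval q = 0
  · have haq : a.eval q ≠ 0 := fun h => hab ⟨h, hbq⟩
    exact key a _ haq haq e2
  · exact key b _ hbq hbq e1

/-- The univariate version of the main algebraic lemma. -/
lemma two_roots {a b : Qb[X]} {n lam : ℕ} (hn : n + 1 + 2 = 2 * lam)
    (ha : a.natDegree ≤ lam) (hb : b.natDegree ≤ lam)
    (hab : ∀ q, ¬ (a.eval q = 0 ∧ b.eval q = 0)) {j h : Qb[X]}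
    (hj : j = a * derivative b - derivative a * b) (hjdeg : j.natDegree = n + 1)
    (hh : h = ((n + 1 : ℕ) : Qb[X]) * (j * derivative (derivative j)) -
      (n : Qb[X]) * derivative j ^ 2)
    (hcase : h = 0 ∨ (h.natDegree = 2 * n - 2 ∧ ∃ (M : ℕ) (r : Qb),
      ((M : Qb[X]) * (derivative j * h) - ((n + 1 : ℕ) : Qb[X]) * (j * derivative h)) ^ 2 =
        C r * h ^ 3)) :
    ∃ q₁ q₂, q₁ ≠ q₂ ∧ ∀ q ∈ ({q₁, q₂} : Set Qb),
      (∀ x, (C (b.eval q) * a - C (a.eval q) * b).eval x = 0 → x = q) ∧
      (C (b.eval q) * a - C (a.eval q) * b).coeff lam ≠ 0 := by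
  classical
  have hj0 : j ≠ 0 := by
    rintro rfl
    simp at hjdeg
  have hjroots : j.roots.card = n + 1 := by
    rw [← hjdeg]
    exact (IsAlgClosed.splits j).natDegree_eq_card_roots.symm
  have hj0' := hj0
  rw [hj] at hj0'
  -- multiplicities
  have hmul : ∀ q, j.rootMultiplicity q + 1 ≤ lam := by
    intro q
    obtain ⟨h1, h2, h3⟩ := rm_jac ha hb (hab q) hj0'
    rw [← hj] at h3
    rw [h3]
    exact le_trans (by
      rw [← count_roots]
      exact (Multiset.count_le_card _ _).trans (card_roots' _)) h2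
  have hex : ∃ q, q ∈ j.roots := by
    apply Multiset.card_pos_iff_exists_mem.mp
    omega
  obtain ⟨q0, hq0⟩ := hex
  have hpos : ∀ q ∈ j.roots, j.rootMultiplicity q ≠ 0 := by
    intro q hq
    have : 0 < j.rootMultiplicity q := (rootMultiplicity_pos hj0).mpr (isRoot_of_mem_roots hq)
    omega
  have hhes : ∀ q ∈ j.roots, h ≠ 0 ∧ 2 + h.rootMultiplicity q = 2 * j.rootMultiplicity q := by
    intro q hq
    rw [hh]
    exact rm_hess hj0 rfl (hpos q hq) (by have := hmul q; omega)
  have hh0 : h ≠ 0 := (hhes q0 hq0).1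
  obtain hc | ⟨hdeg, M, r, hr⟩ := hcase
  · exact absurd hc hh0
  have hhroots : h.roots.card = 2 * n - 2 := by
    rw [← hdeg]
    exact (IsAlgClosed.splits h).natDegree_eq_card_roots.symm
  have hsub : ∀ q ∈ h.roots, q ∈ j.roots.toFinset := by
    intro q hq
    rw [Multiset.mem_toFinset, mem_roots hj0]
    by_contra hne
    exact hess_ne (Nat.succ_ne_zero n) hh0 hne hr (isRoot_of_mem_roots hq)
  have s1 : ∑ q ∈ j.roots.toFinset, h.roots.count q = 2 * n - 2 := by
    rw [Multiset.sum_count_eq_card hsub, hhroots]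
  have s2 : ∑ q ∈ j.roots.toFinset, j.roots.count q = n + 1 := by
    rw [Multiset.sum_count_eq_card (fun q hq => Multiset.mem_toFinset.mpr hq), hjroots]
  have s3 : ∑ q ∈ j.roots.toFinset, (2 + h.roots.count q) =
      ∑ q ∈ j.roots.toFinset, 2 * j.roots.count q := by
    apply Finset.sum_congr rfl
    intro q hq
    rw [count_roots, count_roots]
    exact (hhes q (Multiset.mem_toFinset.mp hq)).2
  rw [Finset.sum_add_distrib, s1, ← Finset.mul_sum, s2, Finset.sum_const, smul_eq_mul] at s3
  have hcard : j.roots.toFinset.card = 2 := by omega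
  obtain ⟨q1, q2, hne, hset⟩ := Finset.card_eq_two.mp hcard
  rw [hset, Finset.sum_pair hne, count_roots, count_roots] at s2
  refine ⟨q1, q2, hne, ?_⟩
  intro q hq
  have hq' : j.rootMultiplicity q + 1 = lam := by
    have h1 := hmul q1
    have h2 := hmul q2
    rcases hq with rfl | hq
    · omega
    · rw [Set.mem_singleton_iff] at hq
      subst hq
      omega
  obtain ⟨h1, h2, h3⟩ := rm_jac ha hb (hab q) hj0'
  rw [← hj, hq'] at h3
  set P := C (b.eval q) * a - C (a.eval q) * b with hP
  obtain ⟨k, hk, hkq⟩ := decomp h1 q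
  rw [← h3] at hk
  have hk0 : k ≠ 0 := by
    rintro rfl
    simp at hkq
  have hkdeg : k.natDegree = 0 := by
    have h4 := congrArg natDegree hk
    rw [natDegree_mul (pow_ne_zero _ (X_sub_C_ne_zero q)) hk0, natDegree_pow,
      natDegree_X_sub_C] at h4
    omega
  rw [natDegree_eq_zero] at hkdeg
  obtain ⟨c, rfl⟩ := hkdeg
  have hc : c ≠ 0 := by simpa using hkq
  constructor
  · intro x hx
    rw [hk] at hx
    simp only [eval_mul, eval_pow, eval_sub, eval_X, eval_C, mul_eq_zero, hc, or_false] at hx
    exact sub_eq_zero.mp (pow_eq_zero_iff (by omega) |>.mp hx)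
  · rw [hk, coeff_mul_C]
    have h5 : ((X - C q : Qb[X]) ^ lam).coeff lam = 1 := by
      have := coeff_pow_of_natDegree_le (m := lam) (natDegree_X_sub_C_le q)
      simpa using this
    rw [h5, one_mul]
    exact hc

end Pool.Agent.H913
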